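import Pool.Agent.H91.GBCProfile

/-!
# Smoothness, positivity, integrability, asymptotic flatness
-/

open scoped BigOperators ContDiff
open Filter Topology MeasureTheory

namespace Pool.Agent.H91.GBC

lemma gC_apply (x : Eu 6) (i j : Fin 6) :
    gC x i j = dl i j + 4 * sf (‖x‖ ^ 2) ^ 3 * Yv x i * Yv x j := rfl

lemma contDiff_sf : ContDiff ℝ ∞ (fun x : Eu 6 => sf (‖x‖ ^ 2)) := by
  unfold sf
  have h1 : ContDiff ℝ ∞ (fun x : Eu 6 => 1 + ‖x‖ ^ 2) := contDiff_const.add (contDiff_norm_sq ℝ)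
  have h2 : ∀ x : Eu 6, 1 + ‖x‖ ^ 2 ≠ 0 := fun x => by positivity
  have h3 : ContDiff ℝ ∞ (fun x : Eu 6 => √(1 + ‖x‖ ^ 2)) := h1.sqrt h2
  exact h3.inv fun x => by positivity

lemma contDiff_Yv (i : Fin 6) : ContDiff ℝ ∞ (fun x : Eu 6 => Yv x i) := by
  unfold Yv
  refine ContDiff.sum fun j _ => ?_
  exact contDiff_const.mul (by fun_prop)

lemma gC_smooth (i j : Fin 6) : ContDiff ℝ ∞ (fun x => gC x i j) := by
  simp only [gC_apply]
  exact contDiff_const.add (((contDiff_const.mul (contDiff_sf.pow 3)).mul (contDiff_Yv i)).mul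
    (contDiff_Yv j))

lemma gC_quad (x : Eu 6) (v : Fin 6 → ℝ) :
    ∑ i, ∑ j, gC x i j * v i * v j
      = (∑ i, v i * v i) + 4 * sf (‖x‖ ^ 2) ^ 3 * (∑ i, Yv x i * v i) ^ 2 := by
  have h : ∀ i, ∑ j, gC x i j * v i * v j
      = v i * v i + (4 * sf (‖x‖ ^ 2) ^ 3 * (∑ j, Yv x j * v j)) * (Yv x i * v i) := by
    intro i
    have h2 : ∀ j, gC x i j * v i * v j = v i * (dl i j * v j)
        + (4 * sf (‖x‖ ^ 2) ^ 3 * Yv x i * v i) * (Yv x j * v j) := by
      intro j; rw [gC_apply]; ring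
    simp only [h2, Finset.sum_add_distrib, ← Finset.mul_sum, sum_dl_mul]
    ring
  simp only [h, Finset.sum_add_distrib, ← Finset.mul_sum]
  ring

lemma gC_posDef (x : Eu 6) : (gC x).PosDef := by
  refine Matrix.PosDef.of_dotProduct_mulVec_pos ?_ ?_
  · ext i j
    simp only [Matrix.conjTranspose_apply, star_trivial]
    rw [gC_apply, gC_apply, dl_comm]; ring
  · intro v hv
    have h1 : star v ⬝ᵥ (gC x).mulVec v = ∑ i, ∑ j, gC x i j * v i * v j := by
      simp only [dotProduct, Matrix.mulVec, Pi.star_apply, star_trivial, Finset.mul_sum]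
      exact Finset.sum_congr rfl fun i _ => Finset.sum_congr rfl fun j _ => by ring
    rw [h1, gC_quad]
    have hs := sf_pos (sq_nonneg ‖x‖)
    have h2 : 0 < ∑ i, v i * v i := by
      obtain ⟨i, hi⟩ := Function.ne_iff.mp hv
      refine Finset.sum_pos' (fun j _ => mul_self_nonneg _) ⟨i, Finset.mem_univ _, ?_⟩
      exact mul_self_pos.mpr hi
    positivity

theorem gC_metric : IsRiemannianMetric gC := ⟨gC_smooth, gC_posDef⟩

theorem L2_nonneg (x : Eu 6) : 0 ≤ L2 gC x := by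
  rw [L2_closed]
  have hs := sf_pos (sq_nonneg ‖x‖)
  have hp := pp_pos hs.le (sf_le_one (sq_nonneg ‖x‖))
  have hX := prof.X_pos (sq_nonneg ‖x‖)
  positivity

lemma det_gC (x : Eu 6) : (gC x).det = prof.X (‖x‖ ^ 2) := by
  have h : gC x = 1 + Matrix.replicateCol Unit (fun i => 4 * sf (‖x‖ ^ 2) ^ 3 * Yv x i)
      * Matrix.replicateRow Unit (fun i => Yv x i) := by
    ext i j
    rw [gC_apply, Matrix.add_apply, Matrix.mul_apply]
    simp [dl, Matrix.one_apply]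
  rw [h, Matrix.det_one_add_replicateCol_mul_replicateRow]
  have h2 : (fun i => Yv x i) ⬝ᵥ (fun i => 4 * sf (‖x‖ ^ 2) ^ 3 * Yv x i)
      = 4 * sf (‖x‖ ^ 2) ^ 3 * ∑ i, Yv x i * Yv x i := by
    simp only [dotProduct, Finset.mul_sum]
    exact Finset.sum_congr rfl fun i _ => by ring
  rw [h2, sum_YY]
  show _ = 1 + ‖x‖ ^ 2 * (4 * sf (‖x‖ ^ 2) ^ 3)
  ring

theorem gC_L2Integrable : L2Integrable gC := by
  unfold L2Integrable
  have h1 : (fun x : Eu 6 => L2 gC x * √(gC x).det)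
      = fun x => 192 * sf (‖x‖ ^ 2) ^ 7 * pp (sf (‖x‖ ^ 2)) / prof.X (‖x‖ ^ 2) ^ 2
          * √(prof.X (‖x‖ ^ 2)) := by
    funext x; rw [L2_closed, det_gC]
  rw [h1]
  have hr : (Module.finrank ℝ (Eu 6) : ℝ) < 7 := by
    rw [finrank_euclideanSpace_fin]; norm_num
  have hint := (integrable_rpow_neg_one_add_norm_sq (μ := (volume : Measure (Eu 6))) hr).const_mul
    (192 * 254)
  have hcs : Continuous (fun x : Eu 6 => sf (‖x‖ ^ 2)) := contDiff_sf.continuous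
  have hcX : Continuous (fun x : Eu 6 => prof.X (‖x‖ ^ 2)) := by
    have : (fun x : Eu 6 => prof.X (‖x‖ ^ 2)) = fun x => 1 + ‖x‖ ^ 2 * (4 * sf (‖x‖ ^ 2) ^ 3) :=
      rfl
    rw [this]
    fun_prop
  have hcp : Continuous (fun x : Eu 6 => pp (sf (‖x‖ ^ 2))) := by
    unfold pp
    fun_prop
  refine hint.mono' ?_ (Eventually.of_forall fun x => ?_)
  · apply Continuous.aestronglyMeasurable
    refine Continuous.mul (Continuous.div ?_ ?_ ?_) hcX.sqrt
    · exact (continuous_const.mul (hcs.pow 7)).mul hcp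
    · exact hcX.pow 2
    · intro x
      have := prof.X_pos (sq_nonneg ‖x‖)
      positivity
  · have ht := sq_nonneg ‖x‖
    have hs := sf_pos ht
    have hs1 := sf_le_one ht
    have hp := pp_pos hs.le hs1
    have hp2 := pp_le hs.le hs1
    have hX := prof_X_ge ht
    have hX0 := prof.X_pos ht
    have e1 : ((1 : ℝ) + ‖x‖ ^ 2) ^ (-(7 : ℝ) / 2) = sf (‖x‖ ^ 2) ^ 7 := by
      unfold sf
      have hb : (0 : ℝ) ≤ 1 + ‖x‖ ^ 2 := by positivity
      generalize 1 + ‖x‖ ^ 2 = b at *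
      rw [Real.sqrt_eq_rpow, ← Real.rpow_neg hb, ← Real.rpow_natCast, ← Real.rpow_mul hb]
      norm_num
    rw [Real.norm_of_nonneg (by positivity), e1]
    have e2 : √(prof.X (‖x‖ ^ 2)) ≤ prof.X (‖x‖ ^ 2) ^ 2 := by
      rw [Real.sqrt_le_left (by positivity)]
      calc prof.X (‖x‖ ^ 2) ≤ prof.X (‖x‖ ^ 2) ^ 4 := by
            exact le_self_pow₀ hX (by norm_num)
        _ = _ := by ring
    rw [div_mul_eq_mul_div, div_le_iff₀ (by positivity)]
    have hs7 : 0 ≤ sf (‖x‖ ^ 2) ^ 7 := by positivity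
    calc 192 * sf (‖x‖ ^ 2) ^ 7 * pp (sf (‖x‖ ^ 2)) * √(prof.X (‖x‖ ^ 2))
        ≤ 192 * sf (‖x‖ ^ 2) ^ 7 * 254 * prof.X (‖x‖ ^ 2) ^ 2 := by
          gcongr
      _ = 192 * 254 * sf (‖x‖ ^ 2) ^ 7 * prof.X (‖x‖ ^ 2) ^ 2 := by ring

end Pool.Agent.H91.GBC
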