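import Pool.Agent.H91.GBCDefs

/-!
# Calculus for the metric `δ + q (|x|²) Jx ⊗ Jx` on `ℝ⁶`
-/

open MeasureTheory Filter Topology
open scoped BigOperators ContDiff Nat

namespace Pool.Agent.H91.GBC

/-- Directional derivative along the `k`-th coordinate, as a `HasDerivAt` statement. -/
def HPD {n : ℕ} (k : Fin n) (f : Eu n → ℝ) (x : Eu n) (d : ℝ) : Prop :=
  HasDerivAt (fun t : ℝ => f (x + t • EuclideanSpace.single k (1 : ℝ))) d 0

section HPD
variable {n : ℕ} {k : Fin n} {f h : Eu n → ℝ} {x : Eu n} {a b : ℝ}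

lemma HPD.pd_eq (hf : HPD k f x a) : pd k f x = a := HasDerivAt.deriv hf

lemma HPD.const (c : ℝ) : HPD k (fun _ => c) x 0 := hasDerivAt_const _ _

lemma HPD.add (hf : HPD k f x a) (hh : HPD k h x b) : HPD k (fun z => f z + h z) x (a + b) :=
  HasDerivAt.add hf hh

lemma HPD.sub (hf : HPD k f x a) (hh : HPD k h x b) : HPD k (fun z => f z - h z) x (a - b) :=
  HasDerivAt.sub hf hh

lemma HPD.mul (hf : HPD k f x a) (hh : HPD k h x b) :
    HPD k (fun z => f z * h z) x (a * h x + f x * b) := by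
  have := HasDerivAt.fun_mul hf hh
  refine HasDerivAt.congr_deriv this ?_
  simp

lemma HPD.comp {u : ℝ → ℝ} {u' : ℝ} (hu : HasDerivAt u u' (f x)) (hf : HPD k f x a) :
    HPD k (fun z => u (f z)) x (u' * a) := by
  have h0 : f (x + (0 : ℝ) • EuclideanSpace.single k (1 : ℝ)) = f x := by simp
  have : HasDerivAt u u' (f (x + (0 : ℝ) • EuclideanSpace.single k (1 : ℝ))) := by
    rw [h0]; exact hu
  exact HasDerivAt.comp (0 : ℝ) this hf

lemma HPD.congr_val (hf : HPD k f x a) (h : a = b) : HPD k f x b := h ▸ hf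

lemma HPD.coord (i : Fin n) : HPD k (fun z => z i) x (if i = k then 1 else 0) := by
  unfold HPD
  have h1 : (fun t : ℝ => (x + t • EuclideanSpace.single k (1 : ℝ)) i)
      = fun t => x i + t * (if i = k then 1 else 0) := by
    funext t
    simp
  rw [h1]
  have := ((hasDerivAt_id (0 : ℝ)).mul_const (if i = k then (1 : ℝ) else 0)).const_add (x i)
  simpa using this

lemma HPD.normSq : HPD k (fun z => ‖z‖ ^ 2) x (2 * x k) := by
  unfold HPD
  have h1 : (fun t : ℝ => ‖x + t • EuclideanSpace.single k (1 : ℝ)‖ ^ 2)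
      = fun t => ‖x‖ ^ 2 + t * (2 * x k) + t ^ 2 := by
    funext t
    rw [norm_add_sq_real, inner_smul_right, norm_smul, EuclideanSpace.inner_single_right]
    simp
    ring
  rw [h1]
  have h2 := (((hasDerivAt_id' (0 : ℝ)).mul_const (2 * x k)).const_add (‖x‖ ^ 2)).fun_add
    ((hasDerivAt_id' (0 : ℝ)).fun_pow 2)
  refine HasDerivAt.congr_deriv h2 ?_
  simp

end HPD

/-- Kronecker delta on `Fin 6`. -/
noncomputable def dl (i j : Fin 6) : ℝ := if i = j then 1 else 0

lemma dl_comm (i j : Fin 6) : dl i j = dl j i := by unfold dl; simp [eq_comm]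

/-- Integer form of the complex structure. -/
def Jz (i j : Fin 6) : ℤ :=
  (![![0, -1, 0, 0, 0, 0], ![1, 0, 0, 0, 0, 0], ![0, 0, 0, -1, 0, 0], ![0, 0, 1, 0, 0, 0],
    ![0, 0, 0, 0, 0, -1], ![0, 0, 0, 0, 1, 0]] : Fin 6 → Fin 6 → ℤ) i j

/-- The complex structure of `ℝ⁶ = ℂ³`. -/
noncomputable def Jr (i j : Fin 6) : ℝ := (Jz i j : ℝ)

lemma Jz_anti : ∀ i j, Jz i j = - Jz j i := by decide
lemma Jz_sq : ∀ i j, ∑ m, Jz i m * Jz m j = if i = j then -1 else 0 := by decide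

lemma Jr_anti (i j : Fin 6) : Jr i j = - Jr j i := by
  unfold Jr; rw [Jz_anti i j]; push_cast; ring

lemma Jr_self (i : Fin 6) : Jr i i = 0 := by
  have := Jr_anti i i; linarith

lemma Jr_sq (i j : Fin 6) : ∑ m, Jr i m * Jr m j = - dl i j := by
  have := Jz_sq i j
  unfold Jr dl
  have h2 : ((∑ m, Jz i m * Jz m j : ℤ) : ℝ) = ((if i = j then -1 else 0 : ℤ) : ℝ) := by rw [this]
  push_cast at h2
  rw [h2]; split_ifs <;> simp

/-- The vector `Jx`. -/
noncomputable def Yv (x : Eu 6) (i : Fin 6) : ℝ := ∑ j, Jr i j * x j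

lemma sum_xx (x : Eu 6) : ∑ m, x m * x m = ‖x‖ ^ 2 := by
  rw [EuclideanSpace.norm_sq_eq]
  exact Finset.sum_congr rfl fun m _ => by rw [Real.norm_eq_abs, sq_abs]; ring

lemma sum_Jx (x : Eu 6) (i : Fin 6) : ∑ m, Jr i m * x m = Yv x i := rfl

lemma sum_xJ (x : Eu 6) (i : Fin 6) : ∑ m, x m * Jr m i = - Yv x i := by
  unfold Yv
  rw [← Finset.sum_neg_distrib]
  exact Finset.sum_congr rfl fun m _ => by rw [Jr_anti m i]; ring

lemma sum_JY (x : Eu 6) (i : Fin 6) : ∑ m, Jr i m * Yv x m = - x i := by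
  unfold Yv
  have h1 : ∑ m, Jr i m * ∑ j, Jr m j * x j = ∑ j, (∑ m, Jr i m * Jr m j) * x j := by
    simp_rw [Finset.mul_sum, Finset.sum_mul]
    rw [Finset.sum_comm]
    exact Finset.sum_congr rfl fun j _ => Finset.sum_congr rfl fun m _ => by ring
  rw [h1]
  simp_rw [Jr_sq]
  simp [dl]

lemma sum_YJ (x : Eu 6) (i : Fin 6) : ∑ m, Yv x m * Jr m i = x i := by
  have h := sum_JY x i
  have h2 : ∑ m, Yv x m * Jr m i = - ∑ m, Jr i m * Yv x m := by
    rw [← Finset.sum_neg_distrib]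
    exact Finset.sum_congr rfl fun m _ => by rw [Jr_anti m i]; ring
  rw [h2, h]; ring

lemma sum_xY (x : Eu 6) : ∑ m, x m * Yv x m = 0 := by
  have h1 : ∑ m, x m * Yv x m = ∑ m, ∑ j, x m * Jr m j * x j := by
    unfold Yv
    exact Finset.sum_congr rfl fun m _ => by
      rw [Finset.mul_sum]; exact Finset.sum_congr rfl fun j _ => by ring
  have h2 : ∑ m, ∑ j, x m * Jr m j * x j = - ∑ m, ∑ j, x m * Jr m j * x j := by
    conv_lhs => rw [Finset.sum_comm]
    rw [← Finset.sum_neg_distrib]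
    refine Finset.sum_congr rfl fun m _ => ?_
    rw [← Finset.sum_neg_distrib]
    refine Finset.sum_congr rfl fun j _ => ?_
    rw [Jr_anti j m]; ring
  linarith

lemma sum_Yx (x : Eu 6) : ∑ m, Yv x m * x m = 0 := by
  rw [← sum_xY x]; exact Finset.sum_congr rfl fun m _ => by ring

lemma sum_YY (x : Eu 6) : ∑ m, Yv x m * Yv x m = ‖x‖ ^ 2 := by
  have h1 : ∑ m, Yv x m * Yv x m = ∑ m, ∑ j, Yv x m * Jr m j * x j := by
    refine Finset.sum_congr rfl fun m _ => ?_
    conv_lhs => rw [show Yv x m * Yv x m = Yv x m * ∑ j, Jr m j * x j from rfl, Finset.mul_sum]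
    exact Finset.sum_congr rfl fun j _ => by ring
  rw [h1, Finset.sum_comm, ← sum_xx x]
  refine Finset.sum_congr rfl fun j _ => ?_
  rw [← Finset.sum_mul, sum_YJ]

lemma sum_dl_mul (i : Fin 6) (f : Fin 6 → ℝ) : ∑ m, dl i m * f m = f i := by
  simp [dl]

lemma sum_mul_dl (i : Fin 6) (f : Fin 6 → ℝ) : ∑ m, f m * dl m i = f i := by
  simp [dl]

lemma HPD.Yv {k : Fin 6} {x : Eu 6} (i : Fin 6) : HPD k (fun z => Yv z i) x (Jr i k) := by
  unfold HPD
  have h1 : (fun t : ℝ => GBC.Yv (x + t • EuclideanSpace.single k (1 : ℝ)) i)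
      = fun t => GBC.Yv x i + t * Jr i k := by
    funext t
    unfold GBC.Yv
    have : ∀ j, Jr i j * (x + t • EuclideanSpace.single k (1 : ℝ)) j
        = Jr i j * x j + t * (Jr i j * dl j k) := by
      intro j
      simp [dl]
      split_ifs <;> ring
    simp_rw [this, Finset.sum_add_distrib, ← Finset.mul_sum]
    rw [sum_mul_dl]
  rw [h1]
  have := ((hasDerivAt_id (0 : ℝ)).mul_const (Jr i k)).const_add (GBC.Yv x i)
  simpa using this

end Pool.Agent.H91.GBC
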