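import Pool.Agent.H91.GBCFlat

/-!
# Completeness
-/

open scoped BigOperators ContDiff
open Filter Topology MeasureTheory

namespace Pool.Agent.H91.GBC

lemma gC_lower (x : Eu 6) (v : Eu 6) : ‖v‖ ^ 2 ≤ ∑ i, ∑ j, gC x i j * v i * v j := by
  rw [gC_quad x (fun i => v i), sum_xx]
  have hs := sf_pos (sq_nonneg ‖x‖)
  have : 0 ≤ 4 * sf (‖x‖ ^ 2) ^ 3 * (∑ i, Yv x i * v i) ^ 2 := by positivity
  linarith

lemma gC_upper (x : Eu 6) (v : Eu 6) : ∑ i, ∑ j, gC x i j * v i * v j ≤ 5 * ‖v‖ ^ 2 := by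
  rw [gC_quad x (fun i => v i), sum_xx]
  have ht := sq_nonneg ‖x‖
  have hs := sf_pos ht
  have h1 : (∑ i, Yv x i * v i) ^ 2 ≤ ‖x‖ ^ 2 * ‖v‖ ^ 2 := by
    have := Finset.sum_mul_sq_le_sq_mul_sq Finset.univ (fun i => Yv x i) (fun i => v i)
    have e1 : ∑ i, Yv x i ^ 2 = ‖x‖ ^ 2 := by
      rw [← sum_YY]; exact Finset.sum_congr rfl fun i _ => by ring
    have e2 : ∑ i, v i ^ 2 = ‖v‖ ^ 2 := by
      rw [← sum_xx]; exact Finset.sum_congr rfl fun i _ => by ring
    rw [e1, e2] at this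
    exact this
  have h2 : prof.X (‖x‖ ^ 2) ≤ 5 := prof_X_le ht
  have h3 : prof.X (‖x‖ ^ 2) = 1 + ‖x‖ ^ 2 * (4 * sf (‖x‖ ^ 2) ^ 3) := rfl
  have h4 : 0 ≤ 4 * sf (‖x‖ ^ 2) ^ 3 := by positivity
  calc ‖v‖ ^ 2 + 4 * sf (‖x‖ ^ 2) ^ 3 * (∑ i, Yv x i * v i) ^ 2
      ≤ ‖v‖ ^ 2 + 4 * sf (‖x‖ ^ 2) ^ 3 * (‖x‖ ^ 2 * ‖v‖ ^ 2) := by gcongr
    _ = prof.X (‖x‖ ^ 2) * ‖v‖ ^ 2 := by rw [h3]; ring
    _ ≤ 5 * ‖v‖ ^ 2 := by gcongr

lemma gC_cont (i j : Fin 6) : Continuous (fun x => gC x i j) := (gC_smooth i j).continuous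

lemma length_ge {γ : ℝ → Eu 6} (hγ : ContDiff ℝ 1 γ) : ‖γ 1 - γ 0‖ ≤ curveLength gC γ := by
  have hd : Continuous (deriv γ) := hγ.continuous_deriv le_rfl
  have hc : Continuous γ := hγ.continuous
  have hint : ∫ t in (0 : ℝ)..1, deriv γ t = γ 1 - γ 0 := by
    refine intervalIntegral.integral_deriv_eq_sub (fun t _ => ?_) (hd.intervalIntegrable _ _)
    exact (hγ.differentiable (by norm_num)).differentiableAt
  rw [← hint]
  refine (intervalIntegral.norm_integral_le_integral_norm zero_le_one).trans ?_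
  unfold curveLength
  have hq : Continuous (fun t => √(∑ i, ∑ j, gC (γ t) i j * deriv γ t i * deriv γ t j)) := by
    refine Continuous.sqrt ?_
    refine continuous_finsetSum _ fun i _ => continuous_finsetSum _ fun j _ => ?_
    have h1 : Continuous (fun t => gC (γ t) i j) := (gC_cont i j).comp hc
    have h2 : ∀ i, Continuous (fun t => deriv γ t i) := fun i => by
      have : Continuous (fun x : Eu 6 => x i) := by fun_prop
      exact this.comp hd
    exact (h1.mul (h2 i)).mul (h2 j)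
  refine intervalIntegral.integral_mono_on zero_le_one (hd.norm.intervalIntegrable _ _)
    (hq.intervalIntegrable _ _) fun t _ => ?_
  exact Real.le_sqrt_of_sq_le (gC_lower _ _)

lemma length_line (x y : Eu 6) :
    curveLength gC (fun t : ℝ => x + t • (y - x)) ≤ √5 * ‖y - x‖ := by
  unfold curveLength
  have hd : ∀ t : ℝ, deriv (fun t : ℝ => x + t • (y - x)) t = y - x := by
    intro t
    have h : HasDerivAt (fun t : ℝ => x + t • (y - x)) ((1 : ℝ) • (y - x)) t :=
      ((hasDerivAt_id' t).smul_const (y - x)).const_add x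
    rw [h.deriv, one_smul]
  simp only [hd]
  have hq : Continuous (fun t : ℝ => √(∑ i, ∑ j, gC (x + t • (y - x)) i j * (y - x) i
      * (y - x) j)) := by
    refine Continuous.sqrt ?_
    refine continuous_finsetSum _ fun i _ => continuous_finsetSum _ fun j _ => ?_
    have h0 : Continuous (fun t : ℝ => x + t • (y - x)) := by fun_prop
    have h1 : Continuous (fun t : ℝ => gC (x + t • (y - x)) i j) := (gC_cont i j).comp h0
    exact (h1.mul continuous_const).mul continuous_const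
  have h1 : (∫ t in (0 : ℝ)..1, √(∑ i, ∑ j, gC (x + t • (y - x)) i j * (y - x) i * (y - x) j))
      ≤ ∫ _t in (0 : ℝ)..1, √5 * ‖y - x‖ := by
    refine intervalIntegral.integral_mono_on zero_le_one (hq.intervalIntegrable _ _)
      (continuous_const.intervalIntegrable _ _) fun t _ => ?_
    rw [Real.sqrt_le_left (by positivity)]
    rw [mul_pow, Real.sq_sqrt (by norm_num)]
    exact gC_upper _ _
  refine h1.trans ?_
  simp

lemma line_mem (x y : Eu 6) : curveLength gC (fun t : ℝ => x + t • (y - x)) ∈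
    {L | ∃ γ : ℝ → Eu 6, ContDiff ℝ 1 γ ∧ γ 0 = x ∧ γ 1 = y ∧ L = curveLength gC γ} := by
  refine ⟨fun t : ℝ => x + t • (y - x), ?_, ?_, ?_, rfl⟩
  · exact contDiff_const.add (contDiff_id.smul contDiff_const)
  · simp
  · simp

lemma riemDist_ge (x y : Eu 6) : ‖y - x‖ ≤ riemDist gC x y := by
  unfold riemDist
  refine le_csInf ⟨_, line_mem x y⟩ ?_
  rintro L ⟨γ, hγ, h0, h1, rfl⟩
  have := length_ge hγ
  rwa [h0, h1] at this

lemma riemDist_le (x y : Eu 6) : riemDist gC x y ≤ √5 * ‖y - x‖ := by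
  unfold riemDist
  refine (csInf_le ⟨0, ?_⟩ (line_mem x y)).trans (length_line x y)
  rintro L ⟨γ, hγ, h0, h1, rfl⟩
  exact (norm_nonneg _).trans (length_ge hγ)

theorem gC_complete : IsCompleteMetric gC := by
  intro u hu
  have hc : CauchySeq u := by
    rw [Metric.cauchySeq_iff]
    intro ε hε
    obtain ⟨N, hN⟩ := hu ε hε
    refine ⟨N, fun p hp q hq => ?_⟩
    rw [dist_comm, dist_eq_norm]
    exact (riemDist_ge _ _).trans_lt (hN p hp q hq)
  obtain ⟨x, hx⟩ := cauchySeq_tendsto_of_complete hc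
  refine ⟨x, ?_⟩
  have h1 : Tendsto (fun p => √5 * ‖x - u p‖) atTop (𝓝 0) := by
    have h2 : Tendsto (fun p => x - u p) atTop (𝓝 (x - x)) := tendsto_const_nhds.sub hx
    rw [sub_self] at h2
    have h3 := h2.norm.const_mul (√5)
    simpa using h3
  refine squeeze_zero (fun p => ?_) (fun p => riemDist_le _ _) h1
  exact (norm_nonneg _).trans (riemDist_ge _ _)

end Pool.Agent.H91.GBC
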