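import Pool.Agent.H91.GBCDelta

/-!
# `L_2` and `P` in terms of the Riemann, Ricci and scalar curvatures
-/

open scoped BigOperators

namespace Pool.Agent.H91.GBC

variable {n : ℕ}

/-- Ricci contraction of a mixed tensor -/
noncomputable def ricT (T : Fin n → Fin n → Fin n → Fin n → ℝ) (k i : Fin n) : ℝ :=
  ∑ j, T k j i j

/-- scalar contraction of a mixed tensor -/
noncomputable def scT (T : Fin n → Fin n → Fin n → Fin n → ℝ) : ℝ := ∑ k, ricT T k k

lemma sum6_four (A B C D E F : Fin n → Fin n → Fin n → Fin n → ℝ) :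
    ∑ a, ∑ b, ∑ c, ∑ d, (4 * A a b c d - 4 * B a b c d + 4 * C a b c d + 4 * D a b c d
      - 4 * E a b c d + 4 * F a b c d)
    = 4 * (∑ a, ∑ b, ∑ c, ∑ d, A a b c d) - 4 * (∑ a, ∑ b, ∑ c, ∑ d, B a b c d)
      + 4 * (∑ a, ∑ b, ∑ c, ∑ d, C a b c d) + 4 * (∑ a, ∑ b, ∑ c, ∑ d, D a b c d)
      - 4 * (∑ a, ∑ b, ∑ c, ∑ d, E a b c d) + 4 * (∑ a, ∑ b, ∑ c, ∑ d, F a b c d) := by
  simp only [Finset.sum_add_distrib, Finset.sum_sub_distrib, ← Finset.mul_sum]

lemma sum6_two (A B C D E F : Fin n → Fin n → ℝ) :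
    ∑ a, ∑ b, (2 * A a b - 2 * B a b + 2 * C a b + 2 * D a b
      - 2 * E a b + 2 * F a b)
    = 2 * (∑ a, ∑ b, A a b) - 2 * (∑ a, ∑ b, B a b)
      + 2 * (∑ a, ∑ b, C a b) + 2 * (∑ a, ∑ b, D a b)
      - 2 * (∑ a, ∑ b, E a b) + 2 * (∑ a, ∑ b, F a b) := by
  simp only [Finset.sum_add_distrib, Finset.sum_sub_distrib, ← Finset.mul_sum]

section
variable (T : Fin n → Fin n → Fin n → Fin n → ℝ)
  (h1 : ∀ k l i j, T l k i j = - T k l i j) (h2 : ∀ k l i j, T k l j i = - T k l i j)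
include h1 h2

lemma L2_aux :
    (1 / 4 : ℝ) * ∑ i₁, ∑ i₂, ∑ i₃, ∑ i₄, ∑ j₁, ∑ j₂, ∑ j₃, ∑ j₄,
      gdelta ![i₁, i₂, i₃, i₄] ![j₁, j₂, j₃, j₄] * T i₁ i₂ j₁ j₂ * T i₃ i₄ j₃ j₄
    = ∑ a, ∑ b, ∑ c, ∑ d, T a b c d * T c d a b - 4 * ∑ a, ∑ b, ricT T a b * ricT T b a
      + scT T ^ 2 := by
  have e1 : ∀ a b c d : Fin n, ∑ j₁, ∑ j₂, ∑ j₃, ∑ j₄,
      gdelta ![a, b, c, d] ![j₁, j₂, j₃, j₄] * T a b j₁ j₂ * T c d j₃ j₄
      = 4 * (T a b a b * T c d c d) - 4 * (T a b a c * T c d b d) + 4 * (T a b a d * T c d b c)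
        + 4 * (T a b b c * T c d a d) - 4 * (T a b b d * T c d a c)
        + 4 * (T a b c d * T c d a b) := by
    intro a b c d
    have := gdelta_contract a b c d (fun p q r s => T a b p q * T c d r s)
    simp only [← mul_assoc] at this
    rw [this]
    rw [h2 a b a b, h2 c d c d, h2 a b a c, h2 a b a d, h2 a b b c, h2 a b b d, h2 a b c d,
      h2 c d a b, h2 c d a c, h2 c d a d, h2 c d b c, h2 c d b d]
    ring
  simp only [e1]
  rw [sum6_four (fun a b c d => T a b a b * T c d c d) (fun a b c d => T a b a c * T c d b d)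
    (fun a b c d => T a b a d * T c d b c) (fun a b c d => T a b b c * T c d a d)
    (fun a b c d => T a b b d * T c d a c) (fun a b c d => T a b c d * T c d a b)]
  have r1 : ∀ b c, ∑ a, T a b a c = ricT T b c := by
    intro b c
    unfold ricT
    exact Finset.sum_congr rfl fun a _ => by rw [h1 b a, h2 b a c a]; ring
  have r2 : ∀ b c, ∑ a, T b a a c = - ricT T b c := by
    intro b c
    rw [← r1, ← Finset.sum_neg_distrib]
    exact Finset.sum_congr rfl fun a _ => by rw [h1 a b]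
  have r3 : ∀ b c, ∑ a, T a b c a = - ricT T b c := by
    intro b c
    rw [← r1, ← Finset.sum_neg_distrib]
    exact Finset.sum_congr rfl fun a _ => by rw [h2 a b]
  have r4 : ∀ b c, ∑ a, T b a c a = ricT T b c := fun b c => rfl
  have s1 : ∑ a, ∑ b, T a b a b = scT T := rfl
  have t1 : ∑ a, ∑ b, ∑ c, ∑ d, T a b a b * T c d c d = scT T ^ 2 := by
    have : ∀ a b, ∑ c, ∑ d, T a b a b * T c d c d = T a b a b * scT T := by
      intro a b
      rw [← s1]
      simp only [Finset.mul_sum]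
    simp only [this, ← Finset.sum_mul, s1]
    ring
  have t2 : ∑ a, ∑ b, ∑ c, ∑ d, T a b a c * T c d b d = ∑ a, ∑ b, ricT T a b * ricT T b a := by
    have : ∀ a b c, ∑ d, T a b a c * T c d b d = T a b a c * ricT T c b := by
      intro a b c
      rw [← Finset.mul_sum]; rfl
    simp only [this]
    rw [Finset.sum_comm]
    refine Finset.sum_congr rfl fun b _ => ?_
    rw [Finset.sum_comm]
    refine Finset.sum_congr rfl fun c _ => ?_
    rw [← Finset.sum_mul, r1]
  have t3 : ∑ a, ∑ b, ∑ c, ∑ d, T a b a d * T c d b c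
      = - ∑ a, ∑ b, ricT T a b * ricT T b a := by
    rw [← t2, ← Finset.sum_neg_distrib]
    refine Finset.sum_congr rfl fun a _ => ?_
    rw [← Finset.sum_neg_distrib]
    refine Finset.sum_congr rfl fun b _ => ?_
    rw [Finset.sum_comm, ← Finset.sum_neg_distrib]
    refine Finset.sum_congr rfl fun c _ => ?_
    rw [← Finset.sum_neg_distrib]
    refine Finset.sum_congr rfl fun d _ => ?_
    rw [h1 c d]; ring
  have t4 : ∑ a, ∑ b, ∑ c, ∑ d, T a b b c * T c d a d
      = - ∑ a, ∑ b, ricT T a b * ricT T b a := by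
    rw [← t2, ← Finset.sum_neg_distrib, Finset.sum_comm]
    refine Finset.sum_congr rfl fun a _ => ?_
    rw [← Finset.sum_neg_distrib]
    refine Finset.sum_congr rfl fun b _ => ?_
    rw [← Finset.sum_neg_distrib]
    refine Finset.sum_congr rfl fun c _ => ?_
    rw [← Finset.sum_neg_distrib]
    refine Finset.sum_congr rfl fun d _ => ?_
    rw [h1 a b]; ring
  have t5 : ∑ a, ∑ b, ∑ c, ∑ d, T a b b d * T c d a c
      = ∑ a, ∑ b, ricT T a b * ricT T b a := by
    rw [← neg_neg (∑ a, ∑ b, ricT T a b * ricT T b a), ← t3, ← Finset.sum_neg_distrib,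
      Finset.sum_comm]
    refine Finset.sum_congr rfl fun a _ => ?_
    rw [← Finset.sum_neg_distrib]
    refine Finset.sum_congr rfl fun b _ => ?_
    rw [← Finset.sum_neg_distrib]
    refine Finset.sum_congr rfl fun c _ => ?_
    rw [← Finset.sum_neg_distrib]
    refine Finset.sum_congr rfl fun d _ => ?_
    rw [h1 a b]; ring
  rw [t1, t2, t3, t4, t5]
  ring

lemma P_aux (G : Fin n → Fin n → ℝ) (s t : Fin n) :
    (1 / 4 : ℝ) * ∑ i₁, ∑ i₂, ∑ j₁, ∑ j₂, ∑ j₃, ∑ j₄,
      gdelta ![i₁, i₂, s, t] ![j₁, j₂, j₃, j₄] * T i₁ i₂ j₁ j₂ * G j₃ j₄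
    = (1 / 2) * (scT T * (G s t - G t s)
        - 2 * ∑ b, ricT T b s * (G b t - G t b)
        + 2 * ∑ b, ricT T b t * (G b s - G s b)
        + ∑ a, ∑ b, T a b s t * (G a b - G b a)) := by
  have e1 : ∀ a b : Fin n, ∑ j₁, ∑ j₂, ∑ j₃, ∑ j₄,
      gdelta ![a, b, s, t] ![j₁, j₂, j₃, j₄] * T a b j₁ j₂ * G j₃ j₄
      = 2 * ((G s t - G t s) * T a b a b) - 2 * (T a b a s * (G b t - G t b))
        + 2 * (T a b a t * (G b s - G s b))
        + 2 * (T a b b s * (G a t - G t a)) - 2 * (T a b b t * (G a s - G s a))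
        + 2 * (T a b s t * (G a b - G b a)) := by
    intro a b
    have := gdelta_contract a b s t (fun p q r u => T a b p q * G r u)
    simp only [← mul_assoc] at this
    rw [this]
    rw [h2 a b a b, h2 a b a s, h2 a b a t, h2 a b b s, h2 a b b t, h2 a b s t]
    ring
  simp only [e1]
  rw [sum6_two (fun a b => (G s t - G t s) * T a b a b) (fun a b => T a b a s * (G b t - G t b))
    (fun a b => T a b a t * (G b s - G s b)) (fun a b => T a b b s * (G a t - G t a))
    (fun a b => T a b b t * (G a s - G s a)) (fun a b => T a b s t * (G a b - G b a))]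
  have r1 : ∀ b c, ∑ a, T a b a c = ricT T b c := by
    intro b c
    unfold ricT
    exact Finset.sum_congr rfl fun a _ => by rw [h1 b a, h2 b a c a]; ring
  have s1 : ∑ a, ∑ b, (G s t - G t s) * T a b a b = (G s t - G t s) * scT T := by
    simp only [← Finset.mul_sum]; rfl
  have t2 : ∀ u v, ∑ a, ∑ b, T a b a u * (G b v - G v b)
      = ∑ b, ricT T b u * (G b v - G v b) := by
    intro u v
    rw [Finset.sum_comm]
    refine Finset.sum_congr rfl fun b _ => ?_
    rw [← Finset.sum_mul, r1]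
  have t3 : ∀ u v, ∑ a, ∑ b, T a b b u * (G a v - G v a)
      = - ∑ b, ricT T b u * (G b v - G v b) := by
    intro u v
    rw [← t2, Finset.sum_comm, ← Finset.sum_neg_distrib]
    refine Finset.sum_congr rfl fun b _ => ?_
    rw [← Finset.sum_neg_distrib]
    refine Finset.sum_congr rfl fun a _ => ?_
    rw [h1 b a]; ring
  rw [t2, t2, t3, t3, s1]
  ring

end

end Pool.Agent.H91.GBC
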