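import Pool.Agent.H91.GBCBasic

/-!
# Christoffel symbols and curvature of `δ + q (|x|²) Jx ⊗ Jx` on `ℝ⁶`
-/

open MeasureTheory Filter Topology
open scoped BigOperators ContDiff Nat

namespace Pool.Agent.H91.GBC

/-- A profile function with its first two derivatives. -/
structure QD where
  q : ℝ → ℝ
  q1 : ℝ → ℝ
  q2 : ℝ → ℝ
  hq : ∀ t, 0 ≤ t → HasDerivAt q (q1 t) t
  hq1 : ∀ t, 0 ≤ t → HasDerivAt q1 (q2 t) t
  hX : ∀ t, 0 ≤ t → 0 < 1 + t * q t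

namespace QD
variable (D : QD)

/-- the metric -/
noncomputable def g : MatField 6 := fun x => Matrix.of fun i j =>
  dl i j + D.q (‖x‖ ^ 2) * Yv x i * Yv x j

/-- `X = 1 + t q` -/
noncomputable def X (t : ℝ) : ℝ := 1 + t * D.q t

/-- `A = (q' - q²) / X` -/
noncomputable def A (t : ℝ) : ℝ := (D.q1 t - D.q t ^ 2) / D.X t

/-- the derivative of `A` -/
noncomputable def A1 (t : ℝ) : ℝ :=
  ((D.q2 t - 2 * D.q t * D.q1 t) * D.X t - (D.q1 t - D.q t ^ 2) * (D.q t + t * D.q1 t))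
    / D.X t ^ 2

lemma X_pos {t : ℝ} (ht : 0 ≤ t) : 0 < D.X t := D.hX t ht

lemma hasDerivAt_X {t : ℝ} (ht : 0 ≤ t) : HasDerivAt D.X (D.q t + t * D.q1 t) t := by
  have := ((hasDerivAt_id' t).fun_mul (D.hq t ht)).const_add 1
  refine HasDerivAt.congr_deriv this ?_
  ring

lemma hasDerivAt_A {t : ℝ} (ht : 0 ≤ t) : HasDerivAt D.A (D.A1 t) t := by
  have h1 := (D.hq1 t ht).fun_sub ((D.hq t ht).fun_pow 2)
  have h2 := h1.fun_div (D.hasDerivAt_X ht) (D.X_pos ht).ne'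
  refine HasDerivAt.congr_deriv h2 ?_
  unfold A1
  congr 1
  push_cast
  ring

/-- the inverse matrix of the metric -/
noncomputable def ginv (x : Eu 6) : Matrix (Fin 6) (Fin 6) ℝ := Matrix.of fun i j =>
  dl i j - D.q (‖x‖ ^ 2) / D.X (‖x‖ ^ 2) * Yv x i * Yv x j

lemma g_apply (x : Eu 6) (i j : Fin 6) :
    D.g x i j = dl i j + D.q (‖x‖ ^ 2) * Yv x i * Yv x j := rfl

lemma ginv_apply (x : Eu 6) (i j : Fin 6) :
    D.ginv x i j = dl i j - D.q (‖x‖ ^ 2) / D.X (‖x‖ ^ 2) * Yv x i * Yv x j := rfl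

lemma sum_dl_dl (i j : Fin 6) : ∑ m, dl i m * dl m j = dl i j := by
  rw [sum_dl_mul]

lemma inv_g (x : Eu 6) : (D.g x)⁻¹ = D.ginv x := by
  apply Matrix.inv_eq_right_inv
  ext i j
  rw [Matrix.mul_apply]
  have hX := (D.X_pos (sq_nonneg ‖x‖)).ne'
  set ρ := ‖x‖ ^ 2 with hρ
  have h1 : ∀ m, D.g x i m * D.ginv x m j = dl i m * dl m j
      + (- (D.q ρ / D.X ρ) * Yv x j) * (dl i m * Yv x m)
      + (D.q ρ * Yv x i) * (Yv x m * dl m j)
      + (- D.q ρ * (D.q ρ / D.X ρ) * Yv x i * Yv x j) * (Yv x m * Yv x m) := by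
    intro m
    rw [g_apply, ginv_apply]
    ring
  rw [Finset.sum_congr rfl fun m _ => h1 m]
  simp only [Finset.sum_add_distrib, ← Finset.mul_sum]
  rw [sum_dl_mul, sum_dl_mul, sum_mul_dl, sum_YY, ← hρ]
  have h2 : (1 : Matrix (Fin 6) (Fin 6) ℝ) i j = dl i j := by
    unfold dl; rw [Matrix.one_apply]
  rw [h2]
  have h3 : D.X ρ = 1 + ρ * D.q ρ := rfl
  field_simp
  rw [h3]
  ring

/-- the derivative of the metric -/
noncomputable def dg (x : Eu 6) (k i j : Fin 6) : ℝ :=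
  2 * D.q1 (‖x‖ ^ 2) * x k * Yv x i * Yv x j + D.q (‖x‖ ^ 2) * (Jr i k * Yv x j + Yv x i * Jr j k)

lemma hpd_q (x : Eu 6) (k : Fin 6) :
    HPD k (fun z => D.q (‖z‖ ^ 2)) x (D.q1 (‖x‖ ^ 2) * (2 * x k)) :=
  HPD.comp (D.hq _ (sq_nonneg _)) HPD.normSq

lemma hpd_q1 (x : Eu 6) (k : Fin 6) :
    HPD k (fun z => D.q1 (‖z‖ ^ 2)) x (D.q2 (‖x‖ ^ 2) * (2 * x k)) :=
  HPD.comp (D.hq1 _ (sq_nonneg _)) HPD.normSq

lemma hpd_A (x : Eu 6) (k : Fin 6) :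
    HPD k (fun z => D.A (‖z‖ ^ 2)) x (D.A1 (‖x‖ ^ 2) * (2 * x k)) :=
  HPD.comp (D.hasDerivAt_A (sq_nonneg _)) HPD.normSq

lemma hpd_g (x : Eu 6) (k i j : Fin 6) : HPD k (fun z => D.g z i j) x (D.dg x k i j) := by
  have h := (HPD.const (k := k) (x := x) (dl i j)).add
    (((D.hpd_q x k).mul (HPD.Yv i)).mul (HPD.Yv j))
  refine HPD.congr_val h ?_
  unfold dg
  ring

lemma pd_g (x : Eu 6) (k i j : Fin 6) : pd k (fun z => D.g z i j) x = D.dg x k i j :=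
  (D.hpd_g x k i j).pd_eq

/-- closed form of the Christoffel symbols -/
noncomputable def chr (i j k : Fin 6) (x : Eu 6) : ℝ :=
  D.A (‖x‖ ^ 2) * Yv x i * (x j * Yv x k + x k * Yv x j)
    - D.q1 (‖x‖ ^ 2) * x i * Yv x j * Yv x k
    + D.q (‖x‖ ^ 2) * (Jr i j * Yv x k + Jr i k * Yv x j)

lemma christoffel_eq (i j k : Fin 6) (x : Eu 6) : christoffel D.g i j k x = D.chr i j k x := by
  unfold christoffel
  have hX := (D.X_pos (sq_nonneg ‖x‖)).ne'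
  have h1 : ∀ m, (D.g x)⁻¹ i m *
      (pd j (fun z => D.g z m k) x + pd k (fun z => D.g z m j) x - pd m (fun z => D.g z j k) x)
      = (2 * D.q1 (‖x‖ ^ 2) * (x j * Yv x k + x k * Yv x j)) * (dl i m * Yv x m)
        + (2 * D.q (‖x‖ ^ 2) * Yv x k) * (dl i m * Jr m j)
        + (2 * D.q (‖x‖ ^ 2) * Yv x j) * (dl i m * Jr m k)
        + (- (2 * D.q1 (‖x‖ ^ 2) * Yv x j * Yv x k)) * (dl i m * x m)
        + (- (D.q (‖x‖ ^ 2) / D.X (‖x‖ ^ 2)) * Yv x i * (2 * D.q1 (‖x‖ ^ 2)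
            * (x j * Yv x k + x k * Yv x j))) * (Yv x m * Yv x m)
        + (- (D.q (‖x‖ ^ 2) / D.X (‖x‖ ^ 2)) * Yv x i * (2 * D.q (‖x‖ ^ 2) * Yv x k))
            * (Yv x m * Jr m j)
        + (- (D.q (‖x‖ ^ 2) / D.X (‖x‖ ^ 2)) * Yv x i * (2 * D.q (‖x‖ ^ 2) * Yv x j))
            * (Yv x m * Jr m k)
        + (- (D.q (‖x‖ ^ 2) / D.X (‖x‖ ^ 2)) * Yv x i * (- (2 * D.q1 (‖x‖ ^ 2) * Yv x j
            * Yv x k))) * (Yv x m * x m) := by
    intro m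
    rw [inv_g, ginv_apply, pd_g, pd_g, pd_g]
    unfold dg
    rw [Jr_anti k j, Jr_anti j m, Jr_anti k m]
    ring
  rw [Finset.sum_congr rfl fun m _ => h1 m]
  simp only [Finset.sum_add_distrib, ← Finset.mul_sum]
  rw [sum_dl_mul, sum_dl_mul, sum_dl_mul, sum_dl_mul, sum_YY, sum_YJ, sum_YJ, sum_Yx]
  have h3 : D.X (‖x‖ ^ 2) = 1 + (‖x‖ ^ 2) * D.q (‖x‖ ^ 2) := rfl
  unfold chr A
  generalize hρ : ‖x‖ ^ 2 = ρ at *
  field_simp
  rw [h3]
  ring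

lemma christoffel_fun (i j k : Fin 6) : christoffel D.g i j k = D.chr i j k := by
  funext x; exact D.christoffel_eq i j k x

/-- the derivative of the closed form of the Christoffel symbols -/
noncomputable def dchr (m i j k : Fin 6) (x : Eu 6) : ℝ :=
  2 * D.A1 (‖x‖ ^ 2) * x m * Yv x i * (x j * Yv x k + x k * Yv x j)
    + D.A (‖x‖ ^ 2) * Jr i m * (x j * Yv x k + x k * Yv x j)
    + D.A (‖x‖ ^ 2) * Yv x i * (dl j m * Yv x k + x j * Jr k m + dl k m * Yv x j + x k * Jr j m)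
    - 2 * D.q2 (‖x‖ ^ 2) * x m * x i * Yv x j * Yv x k
    - D.q1 (‖x‖ ^ 2) * (dl i m * Yv x j * Yv x k + x i * Jr j m * Yv x k + x i * Yv x j * Jr k m)
    + 2 * D.q1 (‖x‖ ^ 2) * x m * (Jr i j * Yv x k + Jr i k * Yv x j)
    + D.q (‖x‖ ^ 2) * (Jr i j * Jr k m + Jr i k * Jr j m)

lemma pd_chr (m i j k : Fin 6) (x : Eu 6) : pd m (D.chr i j k) x = D.dchr m i j k x := by
  have hx : ∀ i : Fin 6, HPD m (fun z : Eu 6 => z i) x (dl i m) := fun i => HPD.coord i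
  have hY : ∀ i : Fin 6, HPD m (fun z : Eu 6 => Yv z i) x (Jr i m) := fun i => HPD.Yv i
  have h1 := ((D.hpd_A x m).mul (hY i)).mul (((hx j).mul (hY k)).add ((hx k).mul (hY j)))
  have h2 := (((D.hpd_q1 x m).mul (hx i)).mul (hY j)).mul (hY k)
  have h3 := (D.hpd_q x m).mul
    (((HPD.const (k := m) (x := x) (Jr i j)).mul (hY k)).add
      ((HPD.const (k := m) (x := x) (Jr i k)).mul (hY j)))
  have h4 := ((h1.sub h2).add h3).pd_eq
  have h5 : (D.chr i j k) = fun z => D.A (‖z‖ ^ 2) * Yv z i * (z j * Yv z k + z k * Yv z j)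
    - D.q1 (‖z‖ ^ 2) * z i * Yv z j * Yv z k
    + D.q (‖z‖ ^ 2) * (Jr i j * Yv z k + Jr i k * Yv z j) := rfl
  rw [h5, h4]
  unfold dchr
  ring

end QD

end Pool.Agent.H91.GBC
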