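import Mathlib

/-!
# The Gauss-Bonnet-Chern mass: definitions

Riemannian metrics on `ℝⁿ` are given by their matrix `g x = (g_ij (x))` in the global standard
coordinates.  All curvature quantities are written in these coordinates, with the indices and
contractions of the problem file.
-/

open MeasureTheory Filter Topology
open scoped BigOperators ContDiff Nat

namespace Pool.Agent.H91.GBC

/-- `ℝⁿ` with its Euclidean norm. -/
abbrev Eu (n : ℕ) := EuclideanSpace ℝ (Fin n)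

/-- A field of `n × n` matrices on `ℝⁿ`; `g x i j` is the component `g_ij` at the point `x`. -/
abbrev MatField (n : ℕ) := Eu n → Matrix (Fin n) (Fin n) ℝ

/-- The partial derivative `∂_k f` at `x`. -/
noncomputable def pd {n : ℕ} (k : Fin n) (f : Eu n → ℝ) (x : Eu n) : ℝ :=
  lineDeriv ℝ f x (EuclideanSpace.single k (1 : ℝ))

/-- `g` is a smooth Riemannian metric on `ℝⁿ`: its components are smooth and the matrix
`(g_ij (x))` is symmetric and positive definite at every point. -/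
def IsRiemannianMetric {n : ℕ} (g : MatField n) : Prop :=
  (∀ i j, ContDiff ℝ ∞ (fun x => g x i j)) ∧ ∀ x, (g x).PosDef

/-- The Christoffel symbols `Γ^i_{jk}` of `g`. -/
noncomputable def christoffel {n : ℕ} (g : MatField n) (i j k : Fin n) (x : Eu n) : ℝ :=
  (1 / 2) * ∑ m, (g x)⁻¹ i m *
    (pd j (fun z => g z m k) x + pd k (fun z => g z m j) x - pd m (fun z => g z j k) x)

/-- The Riemann tensor `R^i_{jkl}` of `g`, that is `R(∂_k, ∂_l) ∂_j = R^i_{jkl} ∂_i`. -/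
noncomputable def riem {n : ℕ} (g : MatField n) (i j k l : Fin n) (x : Eu n) : ℝ :=
  pd k (christoffel g i l j) x - pd l (christoffel g i k j) x
    + ∑ m, (christoffel g i k m x * christoffel g m l j x
      - christoffel g i l m x * christoffel g m k j x)

/-- The Riemann tensor with two indices raised, `R_{kl}^{ij} = g^{jm} R^i_{mkl}`; in this sign
convention `R_{12}^{12}` is the sectional curvature (positive on round spheres). -/
noncomputable def curv {n : ℕ} (g : MatField n) (k l i j : Fin n) (x : Eu n) : ℝ :=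
  ∑ m, (g x)⁻¹ j m * riem g i m k l x

/-- The generalized Kronecker delta `δ^{i_1 i_2 i_3 i_4}_{j_1 j_2 j_3 j_4}`, the determinant of
the matrix of the `δ^{i_a}_{j_b}`. -/
noncomputable def gdelta {n : ℕ} (I J : Fin 4 → Fin n) : ℝ :=
  Matrix.det (Matrix.of fun a b : Fin 4 => if I a = J b then (1 : ℝ) else 0)

/-- The Gauss-Bonnet curvature
`L_2 = (1/4) δ^{i_1 i_2 i_3 i_4}_{j_1 j_2 j_3 j_4} R_{i_1 i_2}^{j_1 j_2} R_{i_3 i_4}^{j_3 j_4}`. -/
noncomputable def L2 {n : ℕ} (g : MatField n) (x : Eu n) : ℝ :=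
  (1 / 4) * ∑ i₁, ∑ i₂, ∑ i₃, ∑ i₄, ∑ j₁, ∑ j₂, ∑ j₃, ∑ j₄,
    gdelta ![i₁, i₂, i₃, i₄] ![j₁, j₂, j₃, j₄] * curv g i₁ i₂ j₁ j₂ x * curv g i₃ i₄ j₃ j₄ x

/-- The tensor `P^{stlm} = (1/4) δ^{i_1 i_2 s t}_{j_1 j_2 j_3 j_4} R_{i_1 i_2}^{j_1 j_2}
g^{j_3 l} g^{j_4 m}`. -/
noncomputable def P {n : ℕ} (g : MatField n) (s t l m : Fin n) (x : Eu n) : ℝ :=
  (1 / 4) * ∑ i₁, ∑ i₂, ∑ j₁, ∑ j₂, ∑ j₃, ∑ j₄,
    gdelta ![i₁, i₂, s, t] ![j₁, j₂, j₃, j₄] * curv g i₁ i₂ j₁ j₂ x
      * (g x)⁻¹ j₃ l * (g x)⁻¹ j₄ m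

/-- The integral of `f` over the coordinate sphere `S_r` of radius `r` about the origin with
respect to the Euclidean surface measure: `r^(n-1)` times the integral of `f (r θ)` over the unit
sphere. -/
noncomputable def sphereIntegral {n : ℕ} (f : Eu n → ℝ) (r : ℝ) : ℝ :=
  r ^ (n - 1) * ∫ θ : Metric.sphere (0 : Eu n) 1, f (r • (θ : Eu n)) ∂(volume.toSphere)

/-- The flux `∫_{S_r} P^{ijml} ∂_l g_jm ν_i dS`, where `ν = x / |x|`. -/
noncomputable def flux {n : ℕ} (g : MatField n) (r : ℝ) : ℝ :=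
  sphereIntegral (fun x => ∑ i, ∑ j, ∑ m, ∑ l,
    P g i j m l x * pd l (fun z => g z j m) x * (x i / ‖x‖)) r

/-- `ω_{n-1}`, the volume of the unit sphere of dimension `n - 1`. -/
noncomputable def omega (n : ℕ) : ℝ := (volume : Measure (Eu n)).toSphere.real Set.univ

/-- The constant `c(n,2) = (n-4)! / (2 (n-1)! ω_{n-1})`. -/
noncomputable def massConst (n : ℕ) : ℝ :=
  ((n - 4)! : ℝ) / (2 * ((n - 1)! : ℝ) * omega n)

/-- The Gauss-Bonnet-Chern mass `m_2` of `g` is `m`. -/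
def HasGBCMass {n : ℕ} (g : MatField n) (m : ℝ) : Prop :=
  Tendsto (fun r : ℝ => massConst n * flux g r) atTop (𝓝 m)

/-- `g` is asymptotically flat of order `τ` in the standard coordinates: with
`σ_ij = g_ij - δ_ij`, `|σ_ij| + r |∂_k σ_ij| + r² |∂_l ∂_k σ_ij| = O(r^(-τ))`. -/
def IsAsymptoticallyFlat {n : ℕ} (g : MatField n) (τ : ℝ) : Prop :=
  ∃ C R₀ : ℝ, 0 < R₀ ∧ ∀ x : Eu n, R₀ ≤ ‖x‖ → ∀ i j k l : Fin n,
    |g x i j - (1 : Matrix (Fin n) (Fin n) ℝ) i j|
      + ‖x‖ * |pd k (fun z => g z i j - (1 : Matrix (Fin n) (Fin n) ℝ) i j) x|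
      + ‖x‖ ^ 2 * |pd l (pd k (fun z => g z i j - (1 : Matrix (Fin n) (Fin n) ℝ) i j)) x|
      ≤ C * ‖x‖ ^ (-τ)

/-- `L_2 (g)` is integrable with respect to the Riemannian volume `√(det g) dx`. -/
def L2Integrable {n : ℕ} (g : MatField n) : Prop :=
  Integrable (fun x => L2 g x * √(g x).det) volume

/-- The length of the curve `γ` on `[0,1]` in the metric `g`. -/
noncomputable def curveLength {n : ℕ} (g : MatField n) (γ : ℝ → Eu n) : ℝ :=
  ∫ t in (0 : ℝ)..1, √(∑ i, ∑ j, g (γ t) i j * deriv γ t i * deriv γ t j)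

/-- The Riemannian distance of `g`: the infimum of the lengths of `C¹` curves from `x` to `y`. -/
noncomputable def riemDist {n : ℕ} (g : MatField n) (x y : Eu n) : ℝ :=
  sInf {L | ∃ γ : ℝ → Eu n, ContDiff ℝ 1 γ ∧ γ 0 = x ∧ γ 1 = y ∧ L = curveLength g γ}

/-- `g` is complete: every sequence that is Cauchy for the Riemannian distance converges for
the Riemannian distance. -/
def IsCompleteMetric {n : ℕ} (g : MatField n) : Prop :=
  ∀ u : ℕ → Eu n,
    (∀ ε > 0, ∃ N : ℕ, ∀ p ≥ N, ∀ q ≥ N, riemDist g (u p) (u q) < ε) →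
      ∃ x : Eu n, Tendsto (fun p => riemDist g (u p) x) atTop (𝓝 0)

end Pool.Agent.H91.GBC
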