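import Pool.Agent.H91.GBCDefs

/-!
# Contractions with the generalized Kronecker delta
-/

open scoped BigOperators

namespace Pool.Agent.H91.GBC

variable {n : ℕ}

/-- Kronecker delta on `Fin n` -/
noncomputable def ed (i j : Fin n) : ℝ := if i = j then 1 else 0

lemma gdelta_eq (a b c d p q r s : Fin n) :
    gdelta ![a, b, c, d] ![p, q, r, s] =
      ed a p * ed b q * ed c r * ed d s - ed a p * ed b q * ed c s * ed d r
      - ed a p * ed b r * ed c q * ed d s + ed a p * ed b r * ed c s * ed d q
      + ed a p * ed b s * ed c q * ed d r - ed a p * ed b s * ed c r * ed d q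
      - ed a q * ed b p * ed c r * ed d s + ed a q * ed b p * ed c s * ed d r
      + ed a q * ed b r * ed c p * ed d s - ed a q * ed b r * ed c s * ed d p
      - ed a q * ed b s * ed c p * ed d r + ed a q * ed b s * ed c r * ed d p
      + ed a r * ed b p * ed c q * ed d s - ed a r * ed b p * ed c s * ed d q
      - ed a r * ed b q * ed c p * ed d s + ed a r * ed b q * ed c s * ed d p
      + ed a r * ed b s * ed c p * ed d q - ed a r * ed b s * ed c q * ed d p
      - ed a s * ed b p * ed c q * ed d r + ed a s * ed b p * ed c r * ed d q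
      + ed a s * ed b q * ed c p * ed d r - ed a s * ed b q * ed c r * ed d p
      - ed a s * ed b r * ed c p * ed d q + ed a s * ed b r * ed c q * ed d p := by
  have h0 : gdelta ![a, b, c, d] ![p, q, r, s]
      = Matrix.det (Matrix.of fun i j : Fin 4 => ed ((![a, b, c, d] : Fin 4 → Fin n) i)
          ((![p, q, r, s] : Fin 4 → Fin n) j)) := rfl
  rw [h0, Matrix.det_succ_row_zero]
  simp only [Fin.sum_univ_four, Matrix.det_fin_three, Matrix.submatrix_apply, Matrix.of_apply,
    Fin.succAbove, Fin.isValue]
  simp
  ring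

lemma sum_ed (a : Fin n) (f : Fin n → ℝ) : ∑ s, ed a s * f s = f a := by
  simp [ed]

lemma gdelta_contract (a b c d : Fin n) (F : Fin n → Fin n → Fin n → Fin n → ℝ) :
    ∑ p, ∑ q, ∑ r, ∑ s, gdelta ![a, b, c, d] ![p, q, r, s] * F p q r s =
      F a b c d - F a b d c - F a c b d + F a d b c + F a c d b - F a d c b
      - F b a c d + F b a d c + F c a b d - F d a b c - F c a d b + F d a c b
      + F b c a d - F b d a c - F c b a d + F d b a c + F c d a b - F d c a b
      - F b c d a + F b d c a + F c b d a - F d b c a - F c d b a + F d c b a := by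
  have h0 : ∑ p, ∑ q, ∑ r, ∑ s, ed a p * ed b q * ed c r * ed d s * F p q r s
      = F a b c d := by
    have h : ∀ p q r s, ed a p * ed b q * ed c r * ed d s * F p q r s
        = ed a p * (ed b q * (ed c r * (ed d s * (F p q r s)))) := by
      intros; ring
    simp only [h, ← Finset.mul_sum, sum_ed]
  have h1 : ∑ p, ∑ q, ∑ r, ∑ s, ed a p * ed b q * ed c s * ed d r * F p q r s
      = F a b d c := by
    have h : ∀ p q r s, ed a p * ed b q * ed c s * ed d r * F p q r s
        = ed a p * (ed b q * (ed d r * (ed c s * (F p q r s)))) := by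
      intros; ring
    simp only [h, ← Finset.mul_sum, sum_ed]
  have h2 : ∑ p, ∑ q, ∑ r, ∑ s, ed a p * ed b r * ed c q * ed d s * F p q r s
      = F a c b d := by
    have h : ∀ p q r s, ed a p * ed b r * ed c q * ed d s * F p q r s
        = ed a p * (ed c q * (ed b r * (ed d s * (F p q r s)))) := by
      intros; ring
    simp only [h, ← Finset.mul_sum, sum_ed]
  have h3 : ∑ p, ∑ q, ∑ r, ∑ s, ed a p * ed b r * ed c s * ed d q * F p q r s
      = F a d b c := by
    have h : ∀ p q r s, ed a p * ed b r * ed c s * ed d q * F p q r s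
        = ed a p * (ed d q * (ed b r * (ed c s * (F p q r s)))) := by
      intros; ring
    simp only [h, ← Finset.mul_sum, sum_ed]
  have h4 : ∑ p, ∑ q, ∑ r, ∑ s, ed a p * ed b s * ed c q * ed d r * F p q r s
      = F a c d b := by
    have h : ∀ p q r s, ed a p * ed b s * ed c q * ed d r * F p q r s
        = ed a p * (ed c q * (ed d r * (ed b s * (F p q r s)))) := by
      intros; ring
    simp only [h, ← Finset.mul_sum, sum_ed]
  have h5 : ∑ p, ∑ q, ∑ r, ∑ s, ed a p * ed b s * ed c r * ed d q * F p q r s
      = F a d c b := by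
    have h : ∀ p q r s, ed a p * ed b s * ed c r * ed d q * F p q r s
        = ed a p * (ed d q * (ed c r * (ed b s * (F p q r s)))) := by
      intros; ring
    simp only [h, ← Finset.mul_sum, sum_ed]
  have h6 : ∑ p, ∑ q, ∑ r, ∑ s, ed a q * ed b p * ed c r * ed d s * F p q r s
      = F b a c d := by
    have h : ∀ p q r s, ed a q * ed b p * ed c r * ed d s * F p q r s
        = ed b p * (ed a q * (ed c r * (ed d s * (F p q r s)))) := by
      intros; ring
    simp only [h, ← Finset.mul_sum, sum_ed]
  have h7 : ∑ p, ∑ q, ∑ r, ∑ s, ed a q * ed b p * ed c s * ed d r * F p q r s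
      = F b a d c := by
    have h : ∀ p q r s, ed a q * ed b p * ed c s * ed d r * F p q r s
        = ed b p * (ed a q * (ed d r * (ed c s * (F p q r s)))) := by
      intros; ring
    simp only [h, ← Finset.mul_sum, sum_ed]
  have h8 : ∑ p, ∑ q, ∑ r, ∑ s, ed a q * ed b r * ed c p * ed d s * F p q r s
      = F c a b d := by
    have h : ∀ p q r s, ed a q * ed b r * ed c p * ed d s * F p q r s
        = ed c p * (ed a q * (ed b r * (ed d s * (F p q r s)))) := by
      intros; ring
    simp only [h, ← Finset.mul_sum, sum_ed]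
  have h9 : ∑ p, ∑ q, ∑ r, ∑ s, ed a q * ed b r * ed c s * ed d p * F p q r s
      = F d a b c := by
    have h : ∀ p q r s, ed a q * ed b r * ed c s * ed d p * F p q r s
        = ed d p * (ed a q * (ed b r * (ed c s * (F p q r s)))) := by
      intros; ring
    simp only [h, ← Finset.mul_sum, sum_ed]
  have h10 : ∑ p, ∑ q, ∑ r, ∑ s, ed a q * ed b s * ed c p * ed d r * F p q r s
      = F c a d b := by
    have h : ∀ p q r s, ed a q * ed b s * ed c p * ed d r * F p q r s
        = ed c p * (ed a q * (ed d r * (ed b s * (F p q r s)))) := by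
      intros; ring
    simp only [h, ← Finset.mul_sum, sum_ed]
  have h11 : ∑ p, ∑ q, ∑ r, ∑ s, ed a q * ed b s * ed c r * ed d p * F p q r s
      = F d a c b := by
    have h : ∀ p q r s, ed a q * ed b s * ed c r * ed d p * F p q r s
        = ed d p * (ed a q * (ed c r * (ed b s * (F p q r s)))) := by
      intros; ring
    simp only [h, ← Finset.mul_sum, sum_ed]
  have h12 : ∑ p, ∑ q, ∑ r, ∑ s, ed a r * ed b p * ed c q * ed d s * F p q r s
      = F b c a d := by
    have h : ∀ p q r s, ed a r * ed b p * ed c q * ed d s * F p q r s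
        = ed b p * (ed c q * (ed a r * (ed d s * (F p q r s)))) := by
      intros; ring
    simp only [h, ← Finset.mul_sum, sum_ed]
  have h13 : ∑ p, ∑ q, ∑ r, ∑ s, ed a r * ed b p * ed c s * ed d q * F p q r s
      = F b d a c := by
    have h : ∀ p q r s, ed a r * ed b p * ed c s * ed d q * F p q r s
        = ed b p * (ed d q * (ed a r * (ed c s * (F p q r s)))) := by
      intros; ring
    simp only [h, ← Finset.mul_sum, sum_ed]
  have h14 : ∑ p, ∑ q, ∑ r, ∑ s, ed a r * ed b q * ed c p * ed d s * F p q r s
      = F c b a d := by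
    have h : ∀ p q r s, ed a r * ed b q * ed c p * ed d s * F p q r s
        = ed c p * (ed b q * (ed a r * (ed d s * (F p q r s)))) := by
      intros; ring
    simp only [h, ← Finset.mul_sum, sum_ed]
  have h15 : ∑ p, ∑ q, ∑ r, ∑ s, ed a r * ed b q * ed c s * ed d p * F p q r s
      = F d b a c := by
    have h : ∀ p q r s, ed a r * ed b q * ed c s * ed d p * F p q r s
        = ed d p * (ed b q * (ed a r * (ed c s * (F p q r s)))) := by
      intros; ring
    simp only [h, ← Finset.mul_sum, sum_ed]
  have h16 : ∑ p, ∑ q, ∑ r, ∑ s, ed a r * ed b s * ed c p * ed d q * F p q r s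
      = F c d a b := by
    have h : ∀ p q r s, ed a r * ed b s * ed c p * ed d q * F p q r s
        = ed c p * (ed d q * (ed a r * (ed b s * (F p q r s)))) := by
      intros; ring
    simp only [h, ← Finset.mul_sum, sum_ed]
  have h17 : ∑ p, ∑ q, ∑ r, ∑ s, ed a r * ed b s * ed c q * ed d p * F p q r s
      = F d c a b := by
    have h : ∀ p q r s, ed a r * ed b s * ed c q * ed d p * F p q r s
        = ed d p * (ed c q * (ed a r * (ed b s * (F p q r s)))) := by
      intros; ring
    simp only [h, ← Finset.mul_sum, sum_ed]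
  have h18 : ∑ p, ∑ q, ∑ r, ∑ s, ed a s * ed b p * ed c q * ed d r * F p q r s
      = F b c d a := by
    have h : ∀ p q r s, ed a s * ed b p * ed c q * ed d r * F p q r s
        = ed b p * (ed c q * (ed d r * (ed a s * (F p q r s)))) := by
      intros; ring
    simp only [h, ← Finset.mul_sum, sum_ed]
  have h19 : ∑ p, ∑ q, ∑ r, ∑ s, ed a s * ed b p * ed c r * ed d q * F p q r s
      = F b d c a := by
    have h : ∀ p q r s, ed a s * ed b p * ed c r * ed d q * F p q r s
        = ed b p * (ed d q * (ed c r * (ed a s * (F p q r s)))) := by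
      intros; ring
    simp only [h, ← Finset.mul_sum, sum_ed]
  have h20 : ∑ p, ∑ q, ∑ r, ∑ s, ed a s * ed b q * ed c p * ed d r * F p q r s
      = F c b d a := by
    have h : ∀ p q r s, ed a s * ed b q * ed c p * ed d r * F p q r s
        = ed c p * (ed b q * (ed d r * (ed a s * (F p q r s)))) := by
      intros; ring
    simp only [h, ← Finset.mul_sum, sum_ed]
  have h21 : ∑ p, ∑ q, ∑ r, ∑ s, ed a s * ed b q * ed c r * ed d p * F p q r s
      = F d b c a := by
    have h : ∀ p q r s, ed a s * ed b q * ed c r * ed d p * F p q r s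
        = ed d p * (ed b q * (ed c r * (ed a s * (F p q r s)))) := by
      intros; ring
    simp only [h, ← Finset.mul_sum, sum_ed]
  have h22 : ∑ p, ∑ q, ∑ r, ∑ s, ed a s * ed b r * ed c p * ed d q * F p q r s
      = F c d b a := by
    have h : ∀ p q r s, ed a s * ed b r * ed c p * ed d q * F p q r s
        = ed c p * (ed d q * (ed b r * (ed a s * (F p q r s)))) := by
      intros; ring
    simp only [h, ← Finset.mul_sum, sum_ed]
  have h23 : ∑ p, ∑ q, ∑ r, ∑ s, ed a s * ed b r * ed c q * ed d p * F p q r s
      = F d c b a := by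
    have h : ∀ p q r s, ed a s * ed b r * ed c q * ed d p * F p q r s
        = ed d p * (ed c q * (ed b r * (ed a s * (F p q r s)))) := by
      intros; ring
    simp only [h, ← Finset.mul_sum, sum_ed]
  simp only [gdelta_eq, add_mul, sub_mul]
  simp only [Finset.sum_add_distrib, Finset.sum_sub_distrib]
  rw [h0, h1, h2, h3, h4, h5, h6, h7, h8, h9, h10, h11, h12, h13, h14, h15, h16, h17, h18, h19, h20, h21, h22, h23]

end Pool.Agent.H91.GBC
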