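import Pool.Agent.H91.GBCAnalysis

/-!
# Asymptotic flatness and the value of the mass
-/

open scoped BigOperators ContDiff
open Filter Topology MeasureTheory

namespace Pool.Agent.H91.GBC

lemma abs_coord_le (x : Eu 6) (i : Fin 6) : |x i| ≤ ‖x‖ := by
  have h := sum_xx x
  have h2 : x i * x i ≤ ∑ m, x m * x m :=
    Finset.single_le_sum (f := fun m => x m * x m) (fun m _ => mul_self_nonneg _)
      (Finset.mem_univ i)
  rw [← sq_le_sq₀ (abs_nonneg _) (norm_nonneg _), sq_abs]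
  nlinarith

lemma abs_Yv_le (x : Eu 6) (i : Fin 6) : |Yv x i| ≤ ‖x‖ := by
  have h := sum_YY x
  have h2 : Yv x i * Yv x i ≤ ∑ m, Yv x m * Yv x m :=
    Finset.single_le_sum (f := fun m => Yv x m * Yv x m) (fun m _ => mul_self_nonneg _)
      (Finset.mem_univ i)
  rw [← sq_le_sq₀ (abs_nonneg _) (norm_nonneg _), sq_abs]
  nlinarith

lemma abs_Jr_le (i j : Fin 6) : |Jr i j| ≤ 1 := by
  have h : ∀ i j : Fin 6, |Jz i j| ≤ 1 := by decide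
  have := h i j
  unfold Jr
  exact_mod_cast this

lemma abs_dl_le (i j : Fin 6) : |dl i j| ≤ 1 := by
  unfold dl; split_ifs <;> simp

lemma bnd_mul {a b A B : ℝ} (ha : |a| ≤ A) (hb : |b| ≤ B) : |a * b| ≤ A * B := by
  rw [abs_mul]
  exact mul_le_mul ha hb (abs_nonneg _) ((abs_nonneg _).trans ha)

lemma bnd_add {a b A B : ℝ} (ha : |a| ≤ A) (hb : |b| ≤ B) : |a + b| ≤ A + B :=
  (abs_add_le a b).trans (add_le_add ha hb)

namespace QD
variable (D : QD)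

/-- second derivative of the metric -/
noncomputable def ddg (x : Eu 6) (l k i j : Fin 6) : ℝ :=
  4 * D.q2 (‖x‖ ^ 2) * x l * x k * Yv x i * Yv x j
    + 2 * D.q1 (‖x‖ ^ 2) * (dl k l * Yv x i * Yv x j + x k * Jr i l * Yv x j
        + x k * Yv x i * Jr j l)
    + 2 * D.q1 (‖x‖ ^ 2) * x l * (Jr i k * Yv x j + Yv x i * Jr j k)
    + D.q (‖x‖ ^ 2) * (Jr i k * Jr j l + Jr i l * Jr j k)

lemma pd_dg (x : Eu 6) (l k i j : Fin 6) :
    pd l (fun z => D.dg z k i j) x = D.ddg x l k i j := by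
  have hx : ∀ i : Fin 6, HPD l (fun z : Eu 6 => z i) x (dl i l) := fun i => HPD.coord i
  have hY : ∀ i : Fin 6, HPD l (fun z : Eu 6 => Yv z i) x (Jr i l) := fun i => HPD.Yv i
  have h1 := ((((HPD.const (k := l) (x := x) 2).mul (D.hpd_q1 x l)).mul (hx k)).mul (hY i)).mul
    (hY j)
  have h3 := (D.hpd_q x l).mul
    (((HPD.const (k := l) (x := x) (Jr i k)).mul (hY j)).add
      ((hY i).mul (HPD.const (k := l) (x := x) (Jr j k))))
  have h4 := (h1.add h3).pd_eq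
  have h5 : (fun z => D.dg z k i j) = fun z => 2 * D.q1 (‖z‖ ^ 2) * z k * Yv z i * Yv z j
    + D.q (‖z‖ ^ 2) * (Jr i k * Yv z j + Yv z i * Jr j k) := rfl
  rw [h5, h4]
  unfold ddg
  ring

end QD

lemma one_eq_dl (i j : Fin 6) : (1 : Matrix (Fin 6) (Fin 6) ℝ) i j = dl i j := by
  unfold dl; rw [Matrix.one_apply]

lemma pd_sigma (k i j : Fin 6) :
    pd k (fun z => gC z i j - (1 : Matrix (Fin 6) (Fin 6) ℝ) i j)
      = fun x => prof.dg x k i j := by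
  funext x
  have h := (prof.hpd_g x k i j).sub
    (HPD.const (k := k) (x := x) ((1 : Matrix (Fin 6) (Fin 6) ℝ) i j))
  rw [sub_zero] at h
  exact h.pd_eq

theorem gC_flat : IsAsymptoticallyFlat gC 1 := by
  refine ⟨152, 1, one_pos, fun x hx i j k l => ?_⟩
  rw [pd_sigma, QD.pd_dg, one_eq_dl, gC_apply, Real.rpow_neg_one]
  have hr0 : 0 < ‖x‖ := by linarith
  have ht := sq_nonneg ‖x‖
  have hs := sf_pos ht
  have hsq := sf_sq ht
  have hw : sf (‖x‖ ^ 2) * ‖x‖ ≤ 1 := by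
    have h2 : (sf (‖x‖ ^ 2) * ‖x‖) ^ 2 ≤ 1 := by nlinarith [sq_nonneg (sf (‖x‖ ^ 2))]
    have h3 : 0 ≤ sf (‖x‖ ^ 2) * ‖x‖ := by positivity
    exact (sq_le_one_iff₀ h3).mp h2
  have hxb := abs_coord_le x
  have hYb := abs_Yv_le x
  have e1 : |4 * sf (‖x‖ ^ 2) ^ 3| ≤ 4 * sf (‖x‖ ^ 2) ^ 3 := by
    rw [abs_of_nonneg (by positivity)]
  have b1 : |dl i j + 4 * sf (‖x‖ ^ 2) ^ 3 * Yv x i * Yv x j - dl i j|
      ≤ 4 * sf (‖x‖ ^ 2) ^ 3 * ‖x‖ * ‖x‖ := by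
    rw [add_sub_cancel_left]
    exact bnd_mul (bnd_mul e1 (hYb i)) (hYb j)
  have e2 : |2 * (-6 * sf (‖x‖ ^ 2) ^ 5)| ≤ 12 * sf (‖x‖ ^ 2) ^ 5 := by
    rw [show 2 * (-6 * sf (‖x‖ ^ 2) ^ 5) = -(12 * sf (‖x‖ ^ 2) ^ 5) by ring, abs_neg,
      abs_of_nonneg (by positivity)]
  have e3 : |4 * (15 * sf (‖x‖ ^ 2) ^ 7)| ≤ 60 * sf (‖x‖ ^ 2) ^ 7 := by
    rw [abs_of_nonneg (by positivity)]
    linarith
  have b2 : |prof.dg x k i j| ≤ 12 * sf (‖x‖ ^ 2) ^ 5 * ‖x‖ * ‖x‖ * ‖x‖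
      + 4 * sf (‖x‖ ^ 2) ^ 3 * (1 * ‖x‖ + ‖x‖ * 1) := by
    unfold QD.dg
    rw [prof_q, prof_q1]
    exact bnd_add (bnd_mul (bnd_mul (bnd_mul e2 (hxb k)) (hYb i)) (hYb j))
      (bnd_mul e1 (bnd_add (bnd_mul (abs_Jr_le i k) (hYb j)) (bnd_mul (hYb i) (abs_Jr_le j k))))
  have b3 : |prof.ddg x l k i j| ≤ 60 * sf (‖x‖ ^ 2) ^ 7 * ‖x‖ * ‖x‖ * ‖x‖ * ‖x‖
      + 12 * sf (‖x‖ ^ 2) ^ 5 * (1 * ‖x‖ * ‖x‖ + ‖x‖ * 1 * ‖x‖ + ‖x‖ * ‖x‖ * 1)
      + 12 * sf (‖x‖ ^ 2) ^ 5 * ‖x‖ * (1 * ‖x‖ + ‖x‖ * 1)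
      + 4 * sf (‖x‖ ^ 2) ^ 3 * (1 * 1 + 1 * 1) := by
    unfold QD.ddg
    rw [prof_q, prof_q1, prof_q2]
    refine bnd_add (bnd_add (bnd_add ?_ ?_) ?_) ?_
    · exact bnd_mul (bnd_mul (bnd_mul (bnd_mul e3 (hxb l)) (hxb k)) (hYb i)) (hYb j)
    · exact bnd_mul e2 (bnd_add (bnd_add (bnd_mul (bnd_mul (abs_dl_le k l) (hYb i)) (hYb j))
        (bnd_mul (bnd_mul (hxb k) (abs_Jr_le i l)) (hYb j)))
        (bnd_mul (bnd_mul (hxb k) (hYb i)) (abs_Jr_le j l)))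
    · exact bnd_mul (bnd_mul e2 (hxb l)) (bnd_add (bnd_mul (abs_Jr_le i k) (hYb j))
        (bnd_mul (hYb i) (abs_Jr_le j k)))
    · exact bnd_mul e1 (bnd_add (bnd_mul (abs_Jr_le i k) (abs_Jr_le j l))
        (bnd_mul (abs_Jr_le i l) (abs_Jr_le j k)))
  generalize sf (‖x‖ ^ 2) = s at *
  generalize ‖x‖ = r at *
  have hw0 : 0 ≤ s * r := by positivity
  calc _ ≤ 4 * s ^ 3 * r * r + r * (12 * s ^ 5 * r * r * r + 4 * s ^ 3 * (1 * r + r * 1))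
        + r ^ 2 * (60 * s ^ 7 * r * r * r * r + 12 * s ^ 5 * (1 * r * r + r * 1 * r + r * r * 1)
          + 12 * s ^ 5 * r * (1 * r + r * 1) + 4 * s ^ 3 * (1 * 1 + 1 * 1)) := by
        gcongr
    _ = (20 * (s * r) ^ 3 + 72 * (s * r) ^ 5 + 60 * (s * r) ^ 7) * r⁻¹ := by
        field_simp; ring
    _ ≤ (20 * 1 + 72 * 1 + 60 * 1) * r⁻¹ := by
        have p3 : (s * r) ^ 3 ≤ 1 := pow_le_one₀ hw0 hw
        have p5 : (s * r) ^ 5 ≤ 1 := pow_le_one₀ hw0 hw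
        have p7 : (s * r) ^ 7 ≤ 1 := pow_le_one₀ hw0 hw
        gcongr
    _ = 152 * r⁻¹ := by norm_num

lemma omega_pos : 0 < omega 6 := by
  unfold omega
  rw [Measure.toSphere_real_apply_univ]
  have h1 : 0 < (volume : Measure (Eu 6)).real (Metric.ball 0 1) := by
    rw [measureReal_def]
    exact ENNReal.toReal_pos (Metric.measure_ball_pos _ _ one_pos).ne' measure_ball_lt_top.ne
  have h2 : (0 : ℝ) < (Module.finrank ℝ (Eu 6) : ℝ) := by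
    rw [finrank_euclideanSpace_fin]; norm_num
  positivity

lemma flux_eq {r : ℝ} (hr : 0 < r) :
    massConst 6 * flux gC r = (1 / 120) * (24 * (1 - sf (r ^ 2) ^ 2) ^ 3
      * (20 - 24 * (1 - sf (r ^ 2) ^ 2)) / (1 + 4 * sf (r ^ 2) * (1 - sf (r ^ 2) ^ 2))) := by
  have hOm := omega_pos
  unfold flux sphereIntegral
  have h1 : ∀ θ : Metric.sphere (0 : Eu 6) 1,
      (∑ i, ∑ j, ∑ m, ∑ l, P gC i j m l (r • (θ : Eu 6))
        * pd l (fun z => gC z j m) (r • (θ : Eu 6))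
        * ((r • (θ : Eu 6)) i / ‖r • (θ : Eu 6)‖))
      = 6 * prof.q (r ^ 2) * (5 * prof.q (r ^ 2) + 4 * (r ^ 2 * prof.q1 (r ^ 2)))
        * (r ^ 2 / r) / prof.X (r ^ 2) := by
    intro θ
    have hn : ‖r • (θ : Eu 6)‖ = r := by
      rw [norm_smul, Real.norm_of_nonneg hr.le]
      have : ‖(θ : Eu 6)‖ = 1 := by simp
      rw [this, mul_one]
    have := prof.flux_density (r • (θ : Eu 6))
    rw [hn] at this
    unfold gC
    rw [hn, this]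
  simp only [h1]
  rw [integral_const]
  have h2 : (Measure.toSphere (volume : Measure (Eu 6))).real Set.univ = omega 6 := rfl
  rw [h2, smul_eq_mul]
  unfold massConst
  have ht := sq_nonneg r
  rw [prof_q, prof_q1, prof_X ht]
  have hs := sf_pos ht
  have hsm := sf_sq_mul ht
  have hX : 0 < 1 + 4 * sf (r ^ 2) * (1 - sf (r ^ 2) ^ 2) := by
    rw [← prof_X ht]; exact prof.X_pos ht
  have hf1 : ((6 - 4).factorial : ℝ) = 2 := by norm_num [Nat.factorial]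
  have hf2 : ((6 - 1).factorial : ℝ) = 120 := by norm_num [Nat.factorial]
  rw [hf1, hf2]
  have e : (1 - sf (r ^ 2) ^ 2) = sf (r ^ 2) ^ 2 * r ^ 2 := hsm.symm
  rw [e] at hX ⊢
  generalize sf (r ^ 2) = s at *
  generalize omega 6 = Om at *
  have hr' := hr.ne'
  have hOm' := hOm.ne'
  have hX' := hX.ne'
  field_simp
  ring

lemma tendsto_sf : Tendsto (fun r : ℝ => sf (r ^ 2)) atTop (𝓝 0) := by
  have h1 : Tendsto (fun r : ℝ => r⁻¹) atTop (𝓝 0) := tendsto_inv_atTop_zero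
  refine squeeze_zero' (Eventually.of_forall fun r => (sf_pos (sq_nonneg r)).le) ?_ h1
  filter_upwards [eventually_gt_atTop 0] with r hr
  unfold sf
  have : r ≤ √(1 + r ^ 2) := Real.le_sqrt_of_sq_le (by linarith)
  exact inv_anti₀ hr this

theorem gC_mass : HasGBCMass gC (-4 / 5) := by
  unfold HasGBCMass
  have h1 : Tendsto (fun r : ℝ => (1 / 120) * (24 * (1 - sf (r ^ 2) ^ 2) ^ 3
      * (20 - 24 * (1 - sf (r ^ 2) ^ 2)) / (1 + 4 * sf (r ^ 2) * (1 - sf (r ^ 2) ^ 2))))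
      atTop (𝓝 ((1 / 120) * (24 * (1 - (0 : ℝ) ^ 2) ^ 3
      * (20 - 24 * (1 - (0 : ℝ) ^ 2)) / (1 + 4 * 0 * (1 - (0 : ℝ) ^ 2))))) := by
    have hs := tendsto_sf
    have h2 : Tendsto (fun r : ℝ => 1 - sf (r ^ 2) ^ 2) atTop (𝓝 (1 - (0 : ℝ) ^ 2)) :=
      tendsto_const_nhds.sub (hs.pow 2)
    refine tendsto_const_nhds.mul (Tendsto.div ?_ ?_ (by norm_num))
    · exact (tendsto_const_nhds.mul (h2.pow 3)).mul
        (tendsto_const_nhds.sub (tendsto_const_nhds.mul h2))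
    · exact tendsto_const_nhds.add ((tendsto_const_nhds.mul hs).mul h2)
  have h3 : ((1 / 120 : ℝ) * (24 * (1 - (0 : ℝ) ^ 2) ^ 3
      * (20 - 24 * (1 - (0 : ℝ) ^ 2)) / (1 + 4 * 0 * (1 - (0 : ℝ) ^ 2)))) = -4 / 5 := by norm_num
  rw [h3] at h1
  refine h1.congr' ?_
  filter_upwards [eventually_gt_atTop 0] with r hr
  rw [flux_eq hr]

end Pool.Agent.H91.GBC
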