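import Pool.Agent.H91.GBCL2

/-!
# The flux density of the Gauss-Bonnet-Chern mass for `δ + q (|x|²) Jx ⊗ Jx`
-/

open scoped BigOperators

namespace Pool.Agent.H91.GBC

lemma sum_YJt (x : Eu 6) (j : Fin 6) : ∑ l, Yv x l * Jr j l = - x j := by
  rw [← sum_JY x j]; exact Finset.sum_congr rfl fun l _ => by ring

lemma sum_xJt (x : Eu 6) (j : Fin 6) : ∑ l, x l * Jr j l = Yv x j := by
  rw [← sum_Jx x j]; exact Finset.sum_congr rfl fun l _ => by ring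

lemma sum_JJt (a b : Fin 6) : ∑ j, Jr j a * Jr j b = dl a b := by
  have h := Jr_sq a b
  have h2 : ∑ j, Jr j a * Jr j b = - ∑ j, Jr a j * Jr j b := by
    rw [← Finset.sum_neg_distrib]
    exact Finset.sum_congr rfl fun j _ => by rw [Jr_anti j a]; ring
  rw [h2, h]; ring

lemma sum_dl_diag (f : Fin 6 → ℝ) : ∑ a, ∑ b, dl a b * f b = ∑ b, f b := by
  simp only [sum_dl_mul]

lemma sum_ZZ (x : Eu 6) : ∑ a, ∑ b, Zf x a b * Zf x a b = 2 * ‖x‖ ^ 4 := by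
  have h : ∀ a b, Zf x a b * Zf x a b = (x a * x a) * (Yv x b * Yv x b)
      + (-2 * (x a * Yv x a)) * (x b * Yv x b) + (Yv x a * Yv x a) * (x b * x b) := by
    intro a b; unfold Zf; ring
  simp only [h, Finset.sum_add_distrib, ← Finset.mul_sum, sum_YY, sum_xx, sum_xY]
  simp only [← Finset.sum_mul, sum_YY, sum_xx]
  ring

lemma sum_ZJ (x : Eu 6) : ∑ a, ∑ b, Zf x a b * Jr a b = - 2 * ‖x‖ ^ 2 := by
  have h : ∀ a b, Zf x a b * Jr a b = (x a) * (Jr a b * Yv x b)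
      + (- Yv x a) * (Jr a b * x b) := by
    intro a b; unfold Zf; ring
  simp only [h, Finset.sum_add_distrib, ← Finset.mul_sum, sum_JY, sum_Jx]
  have h2 : ∀ a, x a * - x a = (-1) * (x a * x a) := fun a => by ring
  have h3 : ∀ a, - Yv x a * Yv x a = (-1) * (Yv x a * Yv x a) := fun a => by ring
  simp only [h2, h3, ← Finset.mul_sum, sum_YY, sum_xx]
  ring

lemma sum_JJ : ∑ a, ∑ b, Jr a b * Jr a b = 6 := by
  have h : ∀ a b, Jr a b * Jr a b = - (Jr a b * Jr b a) := by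
    intro a b; rw [Jr_anti b a]; ring
  simp only [h, Finset.sum_neg_distrib, Jr_sq]
  simp [dl]

lemma sum_uv (x : Eu 6) (k1 k2 v1 v2 : ℝ) :
    ∑ a, ∑ b, (k1 * Zf x a b + k2 * Jr a b) * (v1 * Zf x a b + v2 * Jr a b)
      = k1 * v1 * (2 * ‖x‖ ^ 4) + (k1 * v2 + k2 * v1) * (- 2 * ‖x‖ ^ 2) + k2 * v2 * 6 := by
  have h : ∀ a b, (k1 * Zf x a b + k2 * Jr a b) * (v1 * Zf x a b + v2 * Jr a b)
      = (k1 * v1) * (Zf x a b * Zf x a b) + (k1 * v2 + k2 * v1) * (Zf x a b * Jr a b)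
        + (k2 * v2) * (Jr a b * Jr a b) := by
    intro a b; ring
  simp only [h, Finset.sum_add_distrib, ← Finset.mul_sum, sum_ZZ, sum_ZJ, sum_JJ]

lemma sum_uZ (x : Eu 6) (k1 k2 : ℝ) :
    ∑ a, ∑ b, (k1 * Zf x a b + k2 * Jr a b) * Zf x a b
      = k1 * (2 * ‖x‖ ^ 4) + k2 * (- 2 * ‖x‖ ^ 2) := by
  have h := sum_uv x k1 k2 1 0
  simp only [one_mul, zero_mul, add_zero, mul_one, mul_zero, zero_add] at h
  exact h

lemma gram3 (x : Eu 6) (k1 k2 k3 v1 v2 v3 : ℝ) :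
    ∑ a, ∑ b, ∑ j, (Yv x j * (k1 * Zf x a b + k2 * Jr a b)
          + k3 * (Jr j a * Yv x b - Jr j b * Yv x a))
        * (Yv x j * (v1 * Zf x a b + v2 * Jr a b)
          + v3 * (Jr j a * Yv x b - Jr j b * Yv x a))
      = ‖x‖ ^ 2 * (k1 * v1 * (2 * ‖x‖ ^ 4) + (k1 * v2 + k2 * v1) * (- 2 * ‖x‖ ^ 2) + k2 * v2 * 6)
        + v3 * (k1 * (2 * ‖x‖ ^ 4) + k2 * (- 2 * ‖x‖ ^ 2))
        + k3 * (v1 * (2 * ‖x‖ ^ 4) + v2 * (- 2 * ‖x‖ ^ 2))
        + k3 * v3 * (10 * ‖x‖ ^ 2) := by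
  have h : ∀ a b j, (Yv x j * (k1 * Zf x a b + k2 * Jr a b)
          + k3 * (Jr j a * Yv x b - Jr j b * Yv x a))
        * (Yv x j * (v1 * Zf x a b + v2 * Jr a b)
          + v3 * (Jr j a * Yv x b - Jr j b * Yv x a))
      = ((k1 * Zf x a b + k2 * Jr a b) * (v1 * Zf x a b + v2 * Jr a b)) * (Yv x j * Yv x j)
        + ((v3 * (k1 * Zf x a b + k2 * Jr a b) + k3 * (v1 * Zf x a b + v2 * Jr a b)) * Yv x b)
          * (Yv x j * Jr j a)
        + (- (v3 * (k1 * Zf x a b + k2 * Jr a b) + k3 * (v1 * Zf x a b + v2 * Jr a b)) * Yv x a)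
          * (Yv x j * Jr j b)
        + (k3 * v3 * Yv x b * Yv x b) * (Jr j a * Jr j a)
        + (-2 * k3 * v3 * Yv x a * Yv x b) * (Jr j a * Jr j b)
        + (k3 * v3 * Yv x a * Yv x a) * (Jr j b * Jr j b) := by
    intro a b j; ring
  have hd : ∀ j, dl j j = 1 := by intro j; simp [dl]
  simp only [h, Finset.sum_add_distrib, ← Finset.mul_sum, sum_YY, sum_YJ, sum_JJt, hd]
  have e1 : ∑ a, ∑ b, (k1 * Zf x a b + k2 * Jr a b) * (v1 * Zf x a b + v2 * Jr a b) * ‖x‖ ^ 2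
      = ‖x‖ ^ 2 * (k1 * v1 * (2 * ‖x‖ ^ 4) + (k1 * v2 + k2 * v1) * (- 2 * ‖x‖ ^ 2)
        + k2 * v2 * 6) := by
    simp only [← Finset.sum_mul, sum_uv]; ring
  have e2 : (∑ a, ∑ b, (v3 * (k1 * Zf x a b + k2 * Jr a b)
        + k3 * (v1 * Zf x a b + v2 * Jr a b)) * Yv x b * x a)
      + ∑ a, ∑ b, -(v3 * (k1 * Zf x a b + k2 * Jr a b) + k3 * (v1 * Zf x a b + v2 * Jr a b))
        * Yv x a * x b
      = v3 * (k1 * (2 * ‖x‖ ^ 4) + k2 * (- 2 * ‖x‖ ^ 2))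
        + k3 * (v1 * (2 * ‖x‖ ^ 4) + v2 * (- 2 * ‖x‖ ^ 2)) := by
    rw [← sum_uZ x k1 k2, ← sum_uZ x v1 v2]
    simp only [← Finset.sum_add_distrib, Finset.mul_sum]
    refine Finset.sum_congr rfl fun a _ => Finset.sum_congr rfl fun b _ => ?_
    unfold Zf; ring
  have e3 : (∑ a : Fin 6, ∑ b : Fin 6, k3 * v3 * Yv x b * Yv x b * 1)
      = k3 * v3 * (6 * ‖x‖ ^ 2) := by
    have : ∀ b, k3 * v3 * Yv x b * Yv x b * 1 = (k3 * v3) * (Yv x b * Yv x b) := fun b => by ring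
    simp only [this, ← Finset.mul_sum, sum_YY, Finset.sum_const, Finset.card_univ,
      Fintype.card_fin, nsmul_eq_mul]
    push_cast; ring
  have e4 : (∑ a : Fin 6, k3 * v3 * Yv x a * Yv x a * ∑ _b : Fin 6, (1 : ℝ))
      = k3 * v3 * (6 * ‖x‖ ^ 2) := by
    rw [← e3, Finset.sum_comm]
    simp only [Finset.mul_sum]
  have e5 : (∑ a, ∑ b, -2 * k3 * v3 * Yv x a * Yv x b * dl a b)
      = k3 * v3 * (- 2 * ‖x‖ ^ 2) := by
    have : ∀ a b, -2 * k3 * v3 * Yv x a * Yv x b * dl a b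
        = dl a b * ((-2 * k3 * v3 * Yv x a) * Yv x b) := fun a b => by ring
    simp only [this, sum_dl_mul]
    have : ∀ a, -2 * k3 * v3 * Yv x a * Yv x a = (-2 * k3 * v3) * (Yv x a * Yv x a) :=
      fun a => by ring
    simp only [this, ← Finset.mul_sum, sum_YY]
    ring
  rw [e1, e3, e4, e5]
  linarith [e2]

namespace QD
variable (D : QD)

lemma sum_ginv_x (x : Eu 6) (b : Fin 6) : ∑ l, D.ginv x b l * x l = x b := by
  have h : ∀ l, D.ginv x b l * x l = dl b l * x l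
      + (- (D.q (‖x‖ ^ 2) / D.X (‖x‖ ^ 2)) * Yv x b) * (Yv x l * x l) := by
    intro l; rw [ginv_apply]; ring
  simp only [h, Finset.sum_add_distrib, ← Finset.mul_sum, sum_dl_mul, sum_Yx]
  ring

lemma sum_ginv_Y (x : Eu 6) (b : Fin 6) :
    ∑ l, D.ginv x b l * Yv x l = Yv x b / D.X (‖x‖ ^ 2) := by
  have h : ∀ l, D.ginv x b l * Yv x l = dl b l * Yv x l
      + (- (D.q (‖x‖ ^ 2) / D.X (‖x‖ ^ 2)) * Yv x b) * (Yv x l * Yv x l) := by
    intro l; rw [ginv_apply]; ring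
  simp only [h, Finset.sum_add_distrib, ← Finset.mul_sum, sum_dl_mul, sum_YY]
  have hX := (D.X_pos (sq_nonneg ‖x‖)).ne'
  have h3 : D.X (‖x‖ ^ 2) = 1 + ‖x‖ ^ 2 * D.q (‖x‖ ^ 2) := rfl
  field_simp
  rw [h3]; ring

lemma sum_ginv_Jt (x : Eu 6) (b j : Fin 6) : ∑ l, D.ginv x b l * Jr j l
    = Jr j b + D.q (‖x‖ ^ 2) / D.X (‖x‖ ^ 2) * Yv x b * x j := by
  have h : ∀ l, D.ginv x b l * Jr j l = dl b l * Jr j l
      + (- (D.q (‖x‖ ^ 2) / D.X (‖x‖ ^ 2)) * Yv x b) * (Yv x l * Jr j l) := by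
    intro l; rw [ginv_apply]; ring
  simp only [h, Finset.sum_add_distrib, ← Finset.mul_sum, sum_dl_mul, sum_YJt]
  ring

lemma sum_ginv_J (x : Eu 6) (a b : Fin 6) : ∑ m, D.ginv x a m * Jr m b
    = Jr a b - D.q (‖x‖ ^ 2) / D.X (‖x‖ ^ 2) * Yv x a * x b := by
  have h : ∀ l, D.ginv x a l * Jr l b = dl a l * Jr l b
      + (- (D.q (‖x‖ ^ 2) / D.X (‖x‖ ^ 2)) * Yv x a) * (Yv x l * Jr l b) := by
    intro l; rw [ginv_apply]; ring
  simp only [h, Finset.sum_add_distrib, ← Finset.mul_sum, sum_dl_mul, sum_YJ]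
  ring

/-- the derivative of the metric with two indices raised -/
noncomputable def W (x : Eu 6) (j a b : Fin 6) : ℝ :=
  ∑ m, ∑ l, D.ginv x a m * D.ginv x b l * D.dg x l j m

lemma W_eq (x : Eu 6) (j a b : Fin 6) :
    D.W x j a b = 2 * D.q1 (‖x‖ ^ 2) * x b * Yv x j * Yv x a / D.X (‖x‖ ^ 2)
      + D.q (‖x‖ ^ 2) * ((Jr j b + D.q (‖x‖ ^ 2) / D.X (‖x‖ ^ 2) * Yv x b * x j) * Yv x a
          / D.X (‖x‖ ^ 2)
        + Yv x j * (Jr a b + D.q (‖x‖ ^ 2) / D.X (‖x‖ ^ 2) * (Yv x b * x a - Yv x a * x b))) := by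
  unfold W
  have h1 : ∀ m, ∑ l, D.ginv x a m * D.ginv x b l * D.dg x l j m
      = (2 * D.q1 (‖x‖ ^ 2) * x b * Yv x j
          + D.q (‖x‖ ^ 2) * (Jr j b + D.q (‖x‖ ^ 2) / D.X (‖x‖ ^ 2) * Yv x b * x j))
            * (D.ginv x a m * Yv x m)
        + (D.q (‖x‖ ^ 2) * Yv x j) * (D.ginv x a m * Jr m b)
        + (D.q (‖x‖ ^ 2) * Yv x j * (D.q (‖x‖ ^ 2) / D.X (‖x‖ ^ 2)) * Yv x b)
            * (D.ginv x a m * x m) := by
    intro m
    have h2 : ∀ l, D.ginv x a m * D.ginv x b l * D.dg x l j m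
        = (D.ginv x a m * (2 * D.q1 (‖x‖ ^ 2) * Yv x j * Yv x m)) * (D.ginv x b l * x l)
          + (D.ginv x a m * D.q (‖x‖ ^ 2) * Yv x m) * (D.ginv x b l * Jr j l)
          + (D.ginv x a m * D.q (‖x‖ ^ 2) * Yv x j) * (D.ginv x b l * Jr m l) := by
      intro l; unfold dg; ring
    simp only [h2, Finset.sum_add_distrib, ← Finset.mul_sum, sum_ginv_x, sum_ginv_Jt]
    ring
  simp only [h1, Finset.sum_add_distrib, ← Finset.mul_sum, sum_ginv_x, sum_ginv_Y, sum_ginv_J]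
  ring

/-- antisymmetrisation of `W` -/
noncomputable def V (x : Eu 6) (j a b : Fin 6) : ℝ := D.W x j a b - D.W x j b a

lemma V_eq (x : Eu 6) (j a b : Fin 6) :
    D.V x j a b = Yv x j * (- 2 * D.A (‖x‖ ^ 2) * Zf x a b + 2 * D.q (‖x‖ ^ 2) * Jr a b)
      + (- (D.q (‖x‖ ^ 2) / D.X (‖x‖ ^ 2))) * (Jr j a * Yv x b - Jr j b * Yv x a) := by
  unfold V
  rw [W_eq, W_eq]
  unfold Zf A
  rw [Jr_anti b a]
  ring

end QD

end Pool.Agent.H91.GBC
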