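import Pool.Agent.H91.GBCFlux

/-!
# The flux density of the Gauss-Bonnet-Chern mass: closed form
-/

open scoped BigOperators

namespace Pool.Agent.H91.GBC

namespace QD
variable (D : QD)

lemma P_eq (x : Eu 6) (i j m l : Fin 6) :
    P D.g i j m l x = (1 / 2) * (scT (D.T x) * (D.ginv x i m * D.ginv x j l
          - D.ginv x j m * D.ginv x i l)
        - 2 * ∑ b, ricT (D.T x) b i * (D.ginv x b m * D.ginv x j l - D.ginv x j m * D.ginv x b l)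
        + 2 * ∑ b, ricT (D.T x) b j * (D.ginv x b m * D.ginv x i l - D.ginv x i m * D.ginv x b l)
        + ∑ a, ∑ b, D.T x a b i j
            * (D.ginv x a m * D.ginv x b l - D.ginv x b m * D.ginv x a l)) := by
  unfold P
  have h := P_aux (D.T x) (fun k l i j => D.cm_anti1 k l i j x)
    (fun k l i j => D.cm_anti2 k l i j x) (fun a b => D.ginv x a m * D.ginv x b l) i j
  rw [← h]
  simp only [curv_eq, inv_g]
  congr 1
  refine Finset.sum_congr rfl fun i₁ _ => Finset.sum_congr rfl fun i₂ _ =>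
    Finset.sum_congr rfl fun j₁ _ => Finset.sum_congr rfl fun j₂ _ =>
    Finset.sum_congr rfl fun j₃ _ => Finset.sum_congr rfl fun j₄ _ => ?_
  unfold T
  ring

lemma V_sum (x : Eu 6) (j a b : Fin 6) :
    ∑ m, ∑ l, (D.ginv x a m * D.ginv x b l - D.ginv x b m * D.ginv x a l) * D.dg x l j m
      = D.V x j a b := by
  unfold V W
  rw [← Finset.sum_sub_distrib]
  refine Finset.sum_congr rfl fun m _ => ?_
  rw [← Finset.sum_sub_distrib]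
  refine Finset.sum_congr rfl fun l _ => ?_
  ring

lemma inner_sum (x : Eu 6) (i j : Fin 6) :
    ∑ m, ∑ l, P D.g i j m l x * D.dg x l j m
      = (1 / 2) * (scT (D.T x) * D.V x j i j
        - 2 * ∑ b, ricT (D.T x) b i * D.V x j b j
        + 2 * ∑ b, ricT (D.T x) b j * D.V x j b i
        + ∑ a, ∑ b, D.T x a b i j * D.V x j a b) := by
  have h : ∀ m l, P D.g i j m l x * D.dg x l j m
      = (1 / 2) * (scT (D.T x)) * ((D.ginv x i m * D.ginv x j l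
            - D.ginv x j m * D.ginv x i l) * D.dg x l j m)
        + (-1) * ∑ b, ricT (D.T x) b i * ((D.ginv x b m * D.ginv x j l
            - D.ginv x j m * D.ginv x b l) * D.dg x l j m)
        + (1) * ∑ b, ricT (D.T x) b j * ((D.ginv x b m * D.ginv x i l
            - D.ginv x i m * D.ginv x b l) * D.dg x l j m)
        + (1 / 2) * ∑ a, ∑ b, D.T x a b i j
            * ((D.ginv x a m * D.ginv x b l - D.ginv x b m * D.ginv x a l) * D.dg x l j m) := by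
    intro m l
    rw [P_eq]
    have e1 : ∀ u v : Fin 6, (∑ b, ricT (D.T x) b u * ((D.ginv x b m * D.ginv x v l
            - D.ginv x v m * D.ginv x b l) * D.dg x l j m))
        = (∑ b, ricT (D.T x) b u * (D.ginv x b m * D.ginv x v l
            - D.ginv x v m * D.ginv x b l)) * D.dg x l j m := by
      intro u v
      rw [Finset.sum_mul]
      exact Finset.sum_congr rfl fun b _ => by ring
    have e2 : (∑ a, ∑ b, D.T x a b i j
            * ((D.ginv x a m * D.ginv x b l - D.ginv x b m * D.ginv x a l) * D.dg x l j m))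
        = (∑ a, ∑ b, D.T x a b i j
            * (D.ginv x a m * D.ginv x b l - D.ginv x b m * D.ginv x a l)) * D.dg x l j m := by
      rw [Finset.sum_mul]
      refine Finset.sum_congr rfl fun a _ => ?_
      rw [Finset.sum_mul]
      exact Finset.sum_congr rfl fun b _ => by ring
    rw [e1, e1, e2]
    ring
  simp only [h, Finset.sum_add_distrib, ← Finset.mul_sum, V_sum]
  have e3 : ∀ u v : Fin 6, (∑ m, ∑ l, ∑ b, ricT (D.T x) b u * ((D.ginv x b m * D.ginv x v l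
            - D.ginv x v m * D.ginv x b l) * D.dg x l j m))
        = ∑ b, ricT (D.T x) b u * D.V x j b v := by
    intro u v
    have : ∀ m, (∑ l, ∑ b, ricT (D.T x) b u * ((D.ginv x b m * D.ginv x v l
            - D.ginv x v m * D.ginv x b l) * D.dg x l j m))
        = ∑ b, ∑ l, ricT (D.T x) b u * ((D.ginv x b m * D.ginv x v l
            - D.ginv x v m * D.ginv x b l) * D.dg x l j m) := fun m => Finset.sum_comm
    simp only [this]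
    rw [Finset.sum_comm]
    refine Finset.sum_congr rfl fun b _ => ?_
    simp only [← Finset.mul_sum, V_sum]
  have e4 : (∑ m, ∑ l, ∑ a, ∑ b, D.T x a b i j
            * ((D.ginv x a m * D.ginv x b l - D.ginv x b m * D.ginv x a l) * D.dg x l j m))
        = ∑ a, ∑ b, D.T x a b i j * D.V x j a b := by
    have : ∀ m, (∑ l, ∑ a, ∑ b, D.T x a b i j
            * ((D.ginv x a m * D.ginv x b l - D.ginv x b m * D.ginv x a l) * D.dg x l j m))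
        = ∑ a, ∑ b, ∑ l, D.T x a b i j
            * ((D.ginv x a m * D.ginv x b l - D.ginv x b m * D.ginv x a l)
              * D.dg x l j m) := by
      intro m
      rw [Finset.sum_comm]
      exact Finset.sum_congr rfl fun a _ => Finset.sum_comm
    simp only [this]
    rw [Finset.sum_comm]
    refine Finset.sum_congr rfl fun a _ => ?_
    rw [Finset.sum_comm]
    refine Finset.sum_congr rfl fun b _ => ?_
    simp only [← Finset.mul_sum, V_sum]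
  rw [e3, e3, e4]
  ring

/-- the coefficient in `V` traces -/
noncomputable def vv (t : ℝ) : ℝ := 2 * D.A t * t + D.q t / D.X t + 2 * D.q t

lemma V_trace (x : Eu 6) (i : Fin 6) :
    ∑ j, D.V x j i j = - D.vv (‖x‖ ^ 2) * x i := by
  have h : ∀ j, D.V x j i j
      = (- 2 * D.A (‖x‖ ^ 2) * x i) * (Yv x j * Yv x j)
        + (2 * D.A (‖x‖ ^ 2) * Yv x i) * (Yv x j * x j)
        + (2 * D.q (‖x‖ ^ 2)) * (Jr i j * Yv x j)
        + (- (D.q (‖x‖ ^ 2) / D.X (‖x‖ ^ 2))) * (Yv x j * Jr j i) := by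
    intro j
    rw [V_eq, Jr_self]
    unfold Zf
    ring
  simp only [h, Finset.sum_add_distrib, ← Finset.mul_sum, sum_YY, sum_Yx, sum_JY, sum_YJ]
  unfold vv
  ring

lemma V_anti (x : Eu 6) (j a b : Fin 6) : D.V x j b a = - D.V x j a b := by
  unfold V; ring

lemma S1 (x : Eu 6) : ∑ i, ∑ j, x i * D.V x j i j = - D.vv (‖x‖ ^ 2) * ‖x‖ ^ 2 := by
  simp only [← Finset.mul_sum, V_trace]
  have h : ∀ i, x i * (- D.vv (‖x‖ ^ 2) * x i) = (- D.vv (‖x‖ ^ 2)) * (x i * x i) :=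
    fun i => by ring
  simp only [h, ← Finset.mul_sum, sum_xx]

lemma S2 (x : Eu 6) : ∑ i, ∑ j, x i * ∑ b, ricT (D.T x) b i * D.V x j b j
    = - (D.ra (‖x‖ ^ 2) + D.rb (‖x‖ ^ 2) * ‖x‖ ^ 2) * D.vv (‖x‖ ^ 2) * ‖x‖ ^ 2 := by
  have h1 : ∀ i, ∑ j, x i * ∑ b, ricT (D.T x) b i * D.V x j b j
      = ∑ b, (x i * ricT (D.T x) b i) * (- D.vv (‖x‖ ^ 2) * x b) := by
    intro i
    rw [← Finset.mul_sum, Finset.sum_comm, Finset.mul_sum]
    refine Finset.sum_congr rfl fun b _ => ?_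
    rw [← Finset.mul_sum, V_trace]
    ring
  simp only [h1]
  rw [Finset.sum_comm]
  simp only [← Finset.sum_mul]
  have h2 : ∀ b, ∑ i, x i * ricT (D.T x) b i
      = (D.ra (‖x‖ ^ 2) + D.rb (‖x‖ ^ 2) * ‖x‖ ^ 2) * x b := by
    intro b
    have h3 : ∀ i, x i * ricT (D.T x) b i
        = D.ra (‖x‖ ^ 2) * (x i * dl i b) + (D.rb (‖x‖ ^ 2) * x b) * (x i * x i)
          + (D.rc (‖x‖ ^ 2) * Yv x b) * (x i * Yv x i) := by
      intro i; rw [ricT_T]; ring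
    simp only [h3, Finset.sum_add_distrib, ← Finset.mul_sum, sum_mul_dl, sum_xx, sum_xY]
    ring
  simp only [h2]
  have h4 : ∀ b, (D.ra (‖x‖ ^ 2) + D.rb (‖x‖ ^ 2) * ‖x‖ ^ 2) * x b * (- D.vv (‖x‖ ^ 2) * x b)
      = (- (D.ra (‖x‖ ^ 2) + D.rb (‖x‖ ^ 2) * ‖x‖ ^ 2) * D.vv (‖x‖ ^ 2)) * (x b * x b) :=
    fun b => by ring
  simp only [h4, ← Finset.mul_sum, sum_xx]

lemma S3 (x : Eu 6) : ∑ i, ∑ j, x i * ∑ b, ricT (D.T x) b j * D.V x j b i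
    = (D.ra (‖x‖ ^ 2) + D.rc (‖x‖ ^ 2) * ‖x‖ ^ 2) * D.vv (‖x‖ ^ 2) * ‖x‖ ^ 2 := by
  -- first contract the index `i` of `V` with `x`
  have hVx : ∀ j b, ∑ i, x i * D.V x j b i
      = (2 * D.A (‖x‖ ^ 2) * ‖x‖ ^ 2 + 2 * D.q (‖x‖ ^ 2)) * (Yv x j * Yv x b)
        + (D.q (‖x‖ ^ 2) / D.X (‖x‖ ^ 2)) * (Yv x j * Yv x b) := by
    intro j b
    have h : ∀ i, x i * D.V x j b i
        = (- 2 * D.A (‖x‖ ^ 2) * Yv x j * x b) * (x i * Yv x i)
          + (2 * D.A (‖x‖ ^ 2) * Yv x j * Yv x b) * (x i * x i)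
          + (2 * D.q (‖x‖ ^ 2) * Yv x j) * (x i * Jr b i)
          + (- (D.q (‖x‖ ^ 2) / D.X (‖x‖ ^ 2)) * Jr j b) * (x i * Yv x i)
          + (D.q (‖x‖ ^ 2) / D.X (‖x‖ ^ 2) * Yv x b) * (x i * Jr j i) := by
      intro i
      rw [V_eq]
      unfold Zf
      ring
    simp only [h, Finset.sum_add_distrib, ← Finset.mul_sum, sum_xY, sum_xx, sum_xJt]
    ring
  have h1 : ∑ i, ∑ j, x i * ∑ b, ricT (D.T x) b j * D.V x j b i
      = ∑ j, ∑ b, ricT (D.T x) b j * ∑ i, x i * D.V x j b i := by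
    rw [Finset.sum_comm]
    refine Finset.sum_congr rfl fun j _ => ?_
    simp only [Finset.mul_sum]
    rw [Finset.sum_comm]
    exact Finset.sum_congr rfl fun b _ => Finset.sum_congr rfl fun i _ => by ring
  rw [h1]
  simp only [hVx]
  have h2 : ∀ j b, ricT (D.T x) b j * ((2 * D.A (‖x‖ ^ 2) * ‖x‖ ^ 2 + 2 * D.q (‖x‖ ^ 2))
        * (Yv x j * Yv x b) + (D.q (‖x‖ ^ 2) / D.X (‖x‖ ^ 2)) * (Yv x j * Yv x b))
      = (D.ra (‖x‖ ^ 2) * D.vv (‖x‖ ^ 2) * Yv x j) * (dl j b * Yv x b)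
        + (D.rb (‖x‖ ^ 2) * D.vv (‖x‖ ^ 2) * x j * Yv x j) * (x b * Yv x b)
        + (D.rc (‖x‖ ^ 2) * D.vv (‖x‖ ^ 2) * (Yv x j * Yv x j)) * (Yv x b * Yv x b) := by
    intro j b
    rw [ricT_T]
    unfold vv
    ring
  simp only [h2, Finset.sum_add_distrib, ← Finset.mul_sum, sum_dl_mul, sum_xY, sum_YY]
  have h3 : ∀ j, D.ra (‖x‖ ^ 2) * D.vv (‖x‖ ^ 2) * Yv x j * Yv x j
      = (D.ra (‖x‖ ^ 2) * D.vv (‖x‖ ^ 2)) * (Yv x j * Yv x j) := fun j => by ring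
  have h4 : ∀ j, D.rc (‖x‖ ^ 2) * D.vv (‖x‖ ^ 2) * (Yv x j * Yv x j) * ‖x‖ ^ 2
      = (D.rc (‖x‖ ^ 2) * D.vv (‖x‖ ^ 2) * ‖x‖ ^ 2) * (Yv x j * Yv x j) := fun j => by ring
  simp only [h3, h4, ← Finset.mul_sum, sum_YY, mul_zero, Finset.sum_const_zero]
  ring

lemma K_eq (x : Eu 6) (k l j : Fin 6) :
    ∑ i, x i * D.T x k l i j
      = Yv x j * ((- D.al (‖x‖ ^ 2) * ‖x‖ ^ 2 - 2 * D.q1 (‖x‖ ^ 2) - 2 * D.A (‖x‖ ^ 2))
          * Zf x k l + (2 * D.A (‖x‖ ^ 2) * ‖x‖ ^ 2 + 2 * D.q (‖x‖ ^ 2)) * Jr k l)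
        + (- (D.q1 (‖x‖ ^ 2) * ‖x‖ ^ 2 + D.q (‖x‖ ^ 2)))
          * (Jr j k * Yv x l - Jr j l * Yv x k) := by
  unfold T
  simp only [cm_eq_cmG]
  rw [slot_i (w := fun i => x i) (X := fun i => x i) (Y := fun i => Yv x i)
      (P := fun i => Jr i j) (Q := fun i => Jr i k) (R := fun i => Jr i l)
      (S := fun i => dl i k) (T := fun i => dl i l)]
  rw [sum_xx, sum_xY, sum_xJ, sum_xJ, sum_xJ, sum_mul_dl, sum_mul_dl]
  unfold cmG Zf
  ring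

lemma S4 (x : Eu 6) : ∑ i, ∑ j, x i * ∑ a, ∑ b, D.T x a b i j * D.V x j a b
    = ‖x‖ ^ 2 * ((- D.al (‖x‖ ^ 2) * ‖x‖ ^ 2 - 2 * D.q1 (‖x‖ ^ 2) - 2 * D.A (‖x‖ ^ 2))
          * (- 2 * D.A (‖x‖ ^ 2)) * (2 * ‖x‖ ^ 4)
        + ((- D.al (‖x‖ ^ 2) * ‖x‖ ^ 2 - 2 * D.q1 (‖x‖ ^ 2) - 2 * D.A (‖x‖ ^ 2))
          * (2 * D.q (‖x‖ ^ 2)) + (2 * D.A (‖x‖ ^ 2) * ‖x‖ ^ 2 + 2 * D.q (‖x‖ ^ 2))
          * (- 2 * D.A (‖x‖ ^ 2))) * (- 2 * ‖x‖ ^ 2)
        + (2 * D.A (‖x‖ ^ 2) * ‖x‖ ^ 2 + 2 * D.q (‖x‖ ^ 2)) * (2 * D.q (‖x‖ ^ 2)) * 6)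
      + (- (D.q (‖x‖ ^ 2) / D.X (‖x‖ ^ 2)))
        * ((- D.al (‖x‖ ^ 2) * ‖x‖ ^ 2 - 2 * D.q1 (‖x‖ ^ 2) - 2 * D.A (‖x‖ ^ 2))
          * (2 * ‖x‖ ^ 4)
          + (2 * D.A (‖x‖ ^ 2) * ‖x‖ ^ 2 + 2 * D.q (‖x‖ ^ 2)) * (- 2 * ‖x‖ ^ 2))
      + (- (D.q1 (‖x‖ ^ 2) * ‖x‖ ^ 2 + D.q (‖x‖ ^ 2)))
        * ((- 2 * D.A (‖x‖ ^ 2)) * (2 * ‖x‖ ^ 4) + (2 * D.q (‖x‖ ^ 2)) * (- 2 * ‖x‖ ^ 2))
      + (- (D.q1 (‖x‖ ^ 2) * ‖x‖ ^ 2 + D.q (‖x‖ ^ 2)))
        * (- (D.q (‖x‖ ^ 2) / D.X (‖x‖ ^ 2))) * (10 * ‖x‖ ^ 2) := by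
  rw [← gram3]
  have h1 : ∑ i, ∑ j, x i * ∑ a, ∑ b, D.T x a b i j * D.V x j a b
      = ∑ i, ∑ j, ∑ a, ∑ b, (x i * D.T x a b i j) * D.V x j a b := by
    refine Finset.sum_congr rfl fun i _ => Finset.sum_congr rfl fun j _ => ?_
    simp only [Finset.mul_sum]
    exact Finset.sum_congr rfl fun a _ => Finset.sum_congr rfl fun b _ => by ring
  rw [h1]
  calc ∑ i, ∑ j, ∑ a, ∑ b, (x i * D.T x a b i j) * D.V x j a b
      = ∑ j, ∑ i, ∑ a, ∑ b, (x i * D.T x a b i j) * D.V x j a b := Finset.sum_comm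
    _ = ∑ j, ∑ a, ∑ i, ∑ b, (x i * D.T x a b i j) * D.V x j a b :=
        Finset.sum_congr rfl fun j _ => Finset.sum_comm
    _ = ∑ j, ∑ a, ∑ b, ∑ i, (x i * D.T x a b i j) * D.V x j a b :=
        Finset.sum_congr rfl fun j _ => Finset.sum_congr rfl fun a _ => Finset.sum_comm
    _ = ∑ a, ∑ j, ∑ b, ∑ i, (x i * D.T x a b i j) * D.V x j a b := Finset.sum_comm
    _ = ∑ a, ∑ b, ∑ j, ∑ i, (x i * D.T x a b i j) * D.V x j a b :=
        Finset.sum_congr rfl fun a _ => Finset.sum_comm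
    _ = _ := by
        refine Finset.sum_congr rfl fun a _ => Finset.sum_congr rfl fun b _ =>
          Finset.sum_congr rfl fun j _ => ?_
        rw [← Finset.sum_mul, K_eq, V_eq]

lemma sum4 (c1 c2 c3 c4 : ℝ) (A B C E : Fin 6 → Fin 6 → ℝ) :
    ∑ i, ∑ j, (c1 * A i j + c2 * B i j + c3 * C i j + c4 * E i j)
      = c1 * (∑ i, ∑ j, A i j) + c2 * (∑ i, ∑ j, B i j) + c3 * (∑ i, ∑ j, C i j)
        + c4 * (∑ i, ∑ j, E i j) := by
  simp only [Finset.sum_add_distrib, ← Finset.mul_sum]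

theorem flux_density (x : Eu 6) :
    ∑ i, ∑ j, ∑ m, ∑ l, P D.g i j m l x * pd l (fun z => D.g z j m) x * (x i / ‖x‖)
      = 6 * D.q (‖x‖ ^ 2) * (5 * D.q (‖x‖ ^ 2) + 4 * (‖x‖ ^ 2 * D.q1 (‖x‖ ^ 2)))
        * (‖x‖ ^ 2 / ‖x‖) / D.X (‖x‖ ^ 2) := by
  have h1 : ∀ i j, ∑ m, ∑ l, P D.g i j m l x * pd l (fun z => D.g z j m) x * (x i / ‖x‖)
      = (∑ m, ∑ l, P D.g i j m l x * D.dg x l j m) * (x i / ‖x‖) := by
    intro i j
    rw [Finset.sum_mul]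
    refine Finset.sum_congr rfl fun m _ => ?_
    rw [Finset.sum_mul]
    exact Finset.sum_congr rfl fun l _ => by rw [pd_g]
  simp only [h1, inner_sum]
  have h2 : ∀ i j, (1 / 2) * (scT (D.T x) * D.V x j i j
        - 2 * ∑ b, ricT (D.T x) b i * D.V x j b j
        + 2 * ∑ b, ricT (D.T x) b j * D.V x j b i
        + ∑ a, ∑ b, D.T x a b i j * D.V x j a b) * (x i / ‖x‖)
      = (1 / (2 * ‖x‖) * scT (D.T x)) * (x i * D.V x j i j)
        + (- 1 / ‖x‖) * (x i * ∑ b, ricT (D.T x) b i * D.V x j b j)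
        + (1 / ‖x‖) * (x i * ∑ b, ricT (D.T x) b j * D.V x j b i)
        + (1 / (2 * ‖x‖)) * (x i * ∑ a, ∑ b, D.T x a b i j * D.V x j a b) := by
    intro i j
    by_cases hx : ‖x‖ = 0
    · simp [hx]
    · field_simp
      ring
  simp only [h2]
  rw [sum4 _ _ _ _ (fun i j => x i * D.V x j i j)
    (fun i j => x i * ∑ b, ricT (D.T x) b i * D.V x j b j)
    (fun i j => x i * ∑ b, ricT (D.T x) b j * D.V x j b i)
    (fun i j => x i * ∑ a, ∑ b, D.T x a b i j * D.V x j a b)]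
  rw [S1, S2, S3, S4, scT_T]
  by_cases hx : ‖x‖ = 0
  · simp [hx]
  · have hX := (D.X_pos (sq_nonneg ‖x‖)).ne'
    have h3 : D.X (‖x‖ ^ 2) = 1 + ‖x‖ ^ 2 * D.q (‖x‖ ^ 2) := rfl
    have hAX := D.A_mul_X (sq_nonneg ‖x‖)
    have hq1 : D.q1 (‖x‖ ^ 2) = D.A (‖x‖ ^ 2) * (1 + ‖x‖ ^ 2 * D.q (‖x‖ ^ 2))
      + D.q (‖x‖ ^ 2) ^ 2 := by linarith
    unfold ra rb rc vv
    rw [h3] at hX ⊢
    rw [hq1]
    have h4 : ‖x‖ ^ 4 = (‖x‖ ^ 2) ^ 2 := by ring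
    rw [h4]
    generalize hA : D.A (‖x‖ ^ 2) = A at *
    generalize hq : D.q (‖x‖ ^ 2) = q at *
    generalize hal : D.al (‖x‖ ^ 2) = α at *
    generalize ‖x‖ = r at *
    field_simp
    ring

end QD

end Pool.Agent.H91.GBC
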