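import Pool.Agent.H91.GBCBasic

/-!
# Unitary frames adapted to a vector of `ℝ⁶ = ℂ³`
-/

open scoped BigOperators Matrix ComplexConjugate

namespace Pool.Agent.H91.GBC

/-- A unitary frame whose first vector is `x / |x|`. -/
structure IsFrame (U : Fin 6 → Fin 6 → ℝ) (x : Eu 6) : Prop where
  row : ∀ i j, ∑ a, U i a * U j a = dl i j
  col : ∀ a b, ∑ i, U i a * U i b = dl a b
  x0 : ∀ i, x i = ‖x‖ * U i 0
  hJ : ∀ c d, ∑ i, U i c * ∑ j, U j d * Jr i j = Jr c d

/-- the real matrix of a complex `3 × 3` matrix; `u a m` is the `m`-th entry of column `a` -/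
noncomputable def realMat (u : Fin 3 → Fin 3 → ℂ) : Matrix (Fin 6) (Fin 6) ℝ :=
  !![(u 0 0).re, -(u 0 0).im, (u 1 0).re, -(u 1 0).im, (u 2 0).re, -(u 2 0).im;
     (u 0 0).im, (u 0 0).re, (u 1 0).im, (u 1 0).re, (u 2 0).im, (u 2 0).re;
     (u 0 1).re, -(u 0 1).im, (u 1 1).re, -(u 1 1).im, (u 2 1).re, -(u 2 1).im;
     (u 0 1).im, (u 0 1).re, (u 1 1).im, (u 1 1).re, (u 2 1).im, (u 2 1).re;
     (u 0 2).re, -(u 0 2).im, (u 1 2).re, -(u 1 2).im, (u 2 2).re, -(u 2 2).im;
     (u 0 2).im, (u 0 2).re, (u 1 2).im, (u 1 2).re, (u 2 2).im, (u 2 2).re]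

/-- the matrix of the complex structure -/
noncomputable def Jm : Matrix (Fin 6) (Fin 6) ℝ :=
  !![0, -1, 0, 0, 0, 0; 1, 0, 0, 0, 0, 0; 0, 0, 0, -1, 0, 0; 0, 0, 1, 0, 0, 0;
     0, 0, 0, 0, 0, -1; 0, 0, 0, 0, 1, 0]

lemma Jm_apply (i j : Fin 6) : Jm i j = Jr i j := by
  unfold Jr
  fin_cases i <;> fin_cases j <;> simp [Jm, Jz]

lemma realMat_comm (u : Fin 3 → Fin 3 → ℂ) : realMat u * Jm = Jm * realMat u := by
  ext i j
  fin_cases i <;> fin_cases j <;>
    simp [realMat, Jm, Matrix.mul_apply, Fin.sum_univ_six]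

lemma realMat_orth (u : Fin 3 → Fin 3 → ℂ)
    (hu : ∀ a b, ∑ m, (conj (u a m)) * u b m = if a = b then 1 else 0) :
    (realMat u)ᵀ * realMat u = 1 := by
  have h := fun a b => congrArg Complex.re (hu a b)
  have h' := fun a b => congrArg Complex.im (hu a b)
  simp only [Fin.sum_univ_three, Complex.add_re, Complex.mul_re, Complex.conj_re, Complex.conj_im,
    Complex.add_im, Complex.mul_im] at h h'
  have a00 := h 0 0
  have a01 := h 0 1
  have a02 := h 0 2
  have a11 := h 1 1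
  have a12 := h 1 2
  have a22 := h 2 2
  have b01 := h' 0 1
  have b02 := h' 0 2
  have b12 := h' 1 2
  simp only [Fin.isValue, if_true, Complex.one_re, Complex.zero_re, Complex.zero_im,
    Fin.reduceEq, if_false] at a00 a01 a02 a11 a12 a22 b01 b02 b12
  ext i j
  fin_cases i <;> fin_cases j <;>
    simp [realMat, Matrix.mul_apply, Fin.sum_univ_six] <;> linarith

/-- the complex coordinates of `x / |x|` -/
noncomputable def cvec (x : Eu 6) : EuclideanSpace ℂ (Fin 3) :=
  WithLp.toLp 2 ![⟨x 0 / ‖x‖, x 1 / ‖x‖⟩, ⟨x 2 / ‖x‖, x 3 / ‖x‖⟩, ⟨x 4 / ‖x‖, x 5 / ‖x‖⟩]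

lemma cvec_norm (x : Eu 6) (hx : x ≠ 0) : ‖cvec x‖ = 1 := by
  have hn : 0 < ‖x‖ := norm_pos_iff.mpr hx
  have h1 : ‖cvec x‖ ^ 2 = 1 := by
    rw [EuclideanSpace.norm_sq_eq]
    have h2 := sum_xx x
    simp only [Fin.sum_univ_six] at h2
    simp only [cvec, Fin.sum_univ_three, Complex.sq_norm, Complex.normSq_apply]
    simp only [Matrix.cons_val_zero, Matrix.cons_val_one, Matrix.cons_val]
    field_simp
    linarith
  have h3 : 0 ≤ ‖cvec x‖ := norm_nonneg _
  nlinarith

lemma exists_unitary (x : Eu 6) : ∃ u : Fin 3 → Fin 3 → ℂ,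
    (∀ a b, ∑ m, (conj (u a m)) * u b m = if a = b then 1 else 0) ∧
      (x ≠ 0 → ∀ m, u 0 m = cvec x m) := by
  have hcard : Module.finrank ℂ (EuclideanSpace ℂ (Fin 3)) = Fintype.card (Fin 3) := by simp
  have key : ∃ b : OrthonormalBasis (Fin 3) ℂ (EuclideanSpace ℂ (Fin 3)),
      x ≠ 0 → b 0 = cvec x := by
    by_cases hx : x = 0
    · exact ⟨EuclideanSpace.basisFun (Fin 3) ℂ, fun h => absurd hx h⟩
    · have hv : Orthonormal ℂ (({0} : Set (Fin 3)).domRestrict (fun _ => cvec x)) := by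
        rw [orthonormal_iff_ite]
        rintro ⟨i, hi⟩ ⟨j, hj⟩
        have hi' : i = 0 := hi
        have hj' : j = 0 := hj
        subst hi' hj'
        rw [if_pos rfl]
        show inner ℂ (cvec x) (cvec x) = 1
        rw [inner_self_eq_norm_sq_to_K, cvec_norm x hx]
        simp
      obtain ⟨b, hb⟩ := Orthonormal.exists_orthonormalBasis_extension_of_card_eq hcard hv
      exact ⟨b, fun _ => hb 0 rfl⟩
  obtain ⟨b, hb⟩ := key
  refine ⟨fun a m => b a m, ?_, fun hx m => by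
    show (b 0) m = cvec x m
    rw [hb hx]⟩
  intro a c
  have h := (orthonormal_iff_ite.mp b.orthonormal) a c
  rw [PiLp.inner_apply] at h
  rw [← h]
  refine Finset.sum_congr rfl fun m _ => ?_
  simp [mul_comm]

theorem exists_frame (x : Eu 6) : ∃ U : Fin 6 → Fin 6 → ℝ, IsFrame U x := by
  obtain ⟨u, hu, hux⟩ := exists_unitary x
  have ho := realMat_orth u hu
  have ho' : realMat u * (realMat u)ᵀ = 1 := mul_eq_one_comm.mp ho
  have hc := realMat_comm u
  refine ⟨fun i j => realMat u i j, ?_, ?_, ?_, ?_⟩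
  · intro i j
    have := congrFun (congrFun ho' i) j
    rw [Matrix.mul_apply] at this
    simp only [Matrix.transpose_apply] at this
    rw [this, Matrix.one_apply]; rfl
  · intro a b
    have := congrFun (congrFun ho a) b
    rw [Matrix.mul_apply] at this
    simp only [Matrix.transpose_apply] at this
    rw [this, Matrix.one_apply]; rfl
  · intro i
    by_cases hx : x = 0
    · subst hx; simp
    · have hn : ‖x‖ ≠ 0 := (norm_pos_iff.mpr hx).ne'
      have h0 := hux hx
      fin_cases i <;> simp [realMat, h0, cvec] <;> field_simp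
  · intro c d
    have h1 : (realMat u)ᵀ * (Jm * realMat u) = Jm := by
      rw [← hc, ← Matrix.mul_assoc, ho, Matrix.one_mul]
    have := congrFun (congrFun h1 c) d
    rw [Matrix.mul_apply, Jm_apply] at this
    rw [← this]
    refine Finset.sum_congr rfl fun i _ => ?_
    rw [Matrix.transpose_apply, Matrix.mul_apply]
    congr 1
    refine Finset.sum_congr rfl fun j _ => ?_
    rw [Jm_apply]; ring

end Pool.Agent.H91.GBC
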