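import Pool.Agent.H91.GBCNorm3
import Pool.Agent.H91.GBCContract

/-!
# The Gauss-Bonnet curvature of `δ + q (|x|²) Jx ⊗ Jx` on `ℝ⁶`
-/

open scoped BigOperators

namespace Pool.Agent.H91.GBC

namespace QD
variable (D : QD)

lemma cm_anti1 (k l i j : Fin 6) (x : Eu 6) : D.cm l k i j x = - D.cm k l i j x := by
  unfold cm Zf
  rw [Jr_anti l k]
  ring

lemma cm_anti2 (k l i j : Fin 6) (x : Eu 6) : D.cm k l j i x = - D.cm k l i j x := by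
  unfold cm Zf
  rw [Jr_anti j i]
  ring

/-- the tensor `R_{kl}^{ij}` at a point -/
noncomputable def T (x : Eu 6) : Fin 6 → Fin 6 → Fin 6 → Fin 6 → ℝ := fun k l i j => D.cm k l i j x

/-- coefficient of `δ` in the Ricci tensor -/
noncomputable def ra (t : ℝ) : ℝ := - D.A t * t - 3 * D.q t
/-- coefficient of `x ⊗ x` in the Ricci tensor -/
noncomputable def rb (t : ℝ) : ℝ := - D.al t * t - 3 * D.q1 t - 3 * D.A t
/-- coefficient of `Jx ⊗ Jx` in the Ricci tensor -/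
noncomputable def rc (t : ℝ) : ℝ := - D.al t * t - 3 * D.q1 t - 7 * D.A t

lemma ricT_T (x : Eu 6) (k i : Fin 6) :
    ricT (D.T x) k i = D.ra (‖x‖ ^ 2) * dl i k + D.rb (‖x‖ ^ 2) * (x i * x k)
      + D.rc (‖x‖ ^ 2) * (Yv x i * Yv x k) := by
  unfold ricT T
  have hd : ∀ j, dl j j = 1 := by intro j; simp [dl]
  have h : ∀ j, D.cm k j i j x
      = (- D.al (‖x‖ ^ 2) * x i * x k) * (Yv x j * Yv x j)
        + (D.al (‖x‖ ^ 2) * (x i * Yv x k + Yv x i * x k)) * (x j * Yv x j)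
        + (- D.al (‖x‖ ^ 2) * Yv x i * Yv x k) * (x j * x j)
        + (2 * D.q1 (‖x‖ ^ 2) * x k) * (Jr i j * Yv x j)
        + (- 2 * D.q1 (‖x‖ ^ 2) * Yv x k) * (Jr i j * x j)
        + (2 * D.A (‖x‖ ^ 2) * x i) * (Jr k j * Yv x j)
        + (- 2 * D.A (‖x‖ ^ 2) * Yv x i) * (Jr k j * x j)
        + (D.q1 (‖x‖ ^ 2) * Jr i k) * (x j * Yv x j)
        + (- D.q1 (‖x‖ ^ 2) * Yv x k) * (Jr i j * x j)
        + (- D.q1 (‖x‖ ^ 2) * x i) * (Yv x j * Jr j k)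
        + (D.A (‖x‖ ^ 2) * Yv x i) * (x j * Jr j k)
        + (- D.A (‖x‖ ^ 2) * Jr i k) * (x j * Yv x j)
        + (D.A (‖x‖ ^ 2) * x k) * (Jr i j * Yv x j)
        + (D.A (‖x‖ ^ 2) * Yv x i) * (Yv x j * dl j k)
        + (- D.A (‖x‖ ^ 2) * Yv x i * Yv x k) * 1
        + (- D.A (‖x‖ ^ 2) * dl i k) * (Yv x j * Yv x j)
        + (D.A (‖x‖ ^ 2) * Yv x k) * (dl i j * Yv x j)
        + (3 * D.q (‖x‖ ^ 2)) * (Jr i j * Jr j k) := by
    intro j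
    unfold cm Zf
    rw [Jr_self j, hd j, show Jr j k = - Jr k j from Jr_anti j k]
    ring
  rw [Finset.sum_congr rfl fun j _ => h j]
  simp only [Finset.sum_add_distrib, ← Finset.mul_sum]
  rw [sum_YY, sum_xY, sum_xx, sum_JY, sum_Jx, sum_JY, sum_Jx, sum_YJ, sum_xJ, sum_mul_dl,
    sum_dl_mul, Jr_sq]
  unfold ra rb rc
  simp only [Finset.sum_const, Finset.card_univ, Fintype.card_fin, nsmul_eq_mul]
  push_cast
  ring

lemma sum_ric_form (x : Eu 6) (a b c : ℝ) :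
    ∑ k, (a * dl k k + b * (x k * x k) + c * (Yv x k * Yv x k))
      = 6 * a + b * ‖x‖ ^ 2 + c * ‖x‖ ^ 2 := by
  have hd : ∀ j, dl j j = 1 := by intro j; simp [dl]
  simp only [Finset.sum_add_distrib, ← Finset.mul_sum, sum_xx, sum_YY, hd]
  simp only [Finset.sum_const, Finset.card_univ, Fintype.card_fin, nsmul_eq_mul]
  push_cast
  ring

lemma sum_ric_sq (x : Eu 6) (a b c : ℝ) :
    ∑ k, ∑ i, (a * dl i k + b * (x i * x k) + c * (Yv x i * Yv x k))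
        * (a * dl k i + b * (x k * x i) + c * (Yv x k * Yv x i))
      = 6 * a ^ 2 + 2 * a * b * ‖x‖ ^ 2 + 2 * a * c * ‖x‖ ^ 2 + b ^ 2 * ‖x‖ ^ 4
        + c ^ 2 * ‖x‖ ^ 4 := by
  have hd : ∀ j, dl j j = 1 := by intro j; simp [dl]
  have h : ∀ k i, (a * dl i k + b * (x i * x k) + c * (Yv x i * Yv x k))
        * (a * dl k i + b * (x k * x i) + c * (Yv x k * Yv x i))
      = (a ^ 2) * (dl k i * dl i k) + (2 * a * b * x k) * (x i * dl i k)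
        + (2 * a * c * Yv x k) * (Yv x i * dl i k)
        + (b ^ 2 * (x k * x k)) * (x i * x i)
        + (2 * b * c * (x k * Yv x k)) * (x i * Yv x i)
        + (c ^ 2 * (Yv x k * Yv x k)) * (Yv x i * Yv x i) := by
    intro k i
    rw [dl_comm k i]; ring
  simp only [h]
  simp only [Finset.sum_add_distrib, ← Finset.mul_sum]
  simp only [sum_mul_dl, sum_xx, sum_YY, sum_xY, hd, mul_zero, Finset.sum_const_zero]
  have h2 : ∀ k, 2 * a * b * x k * x k = (2 * a * b) * (x k * x k) := fun k => by ring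
  have h3 : ∀ k, 2 * a * c * Yv x k * Yv x k = (2 * a * c) * (Yv x k * Yv x k) := fun k => by ring
  have h4 : ∀ k, b ^ 2 * (x k * x k) * ‖x‖ ^ 2 = (b ^ 2 * ‖x‖ ^ 2) * (x k * x k) :=
    fun k => by ring
  have h5 : ∀ k, c ^ 2 * (Yv x k * Yv x k) * ‖x‖ ^ 2 = (c ^ 2 * ‖x‖ ^ 2) * (Yv x k * Yv x k) :=
    fun k => by ring
  simp only [h2, h3, h4, h5, ← Finset.mul_sum, sum_xx, sum_YY]
  simp only [Finset.sum_const, Finset.card_univ, Fintype.card_fin, nsmul_eq_mul]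
  push_cast
  ring

lemma scT_T (x : Eu 6) :
    scT (D.T x) = 6 * D.ra (‖x‖ ^ 2) + D.rb (‖x‖ ^ 2) * ‖x‖ ^ 2 + D.rc (‖x‖ ^ 2) * ‖x‖ ^ 2 := by
  unfold scT
  simp only [ricT_T]
  exact sum_ric_form x _ _ _

theorem L2_eq (x : Eu 6) :
    L2 D.g x = 24 * (15 * D.q (‖x‖ ^ 2) ^ 2 + 16 * (D.A (‖x‖ ^ 2) * ‖x‖ ^ 2) * D.q (‖x‖ ^ 2)
      + 10 * (D.q1 (‖x‖ ^ 2) * ‖x‖ ^ 2) * D.q (‖x‖ ^ 2)
      + 4 * (D.q1 (‖x‖ ^ 2) * ‖x‖ ^ 2) * (D.A (‖x‖ ^ 2) * ‖x‖ ^ 2)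
      + 2 * (D.al (‖x‖ ^ 2) * ‖x‖ ^ 4) * D.q (‖x‖ ^ 2)) := by
  unfold L2
  simp only [curv_eq]
  have h := L2_aux (D.T x) (fun k l i j => D.cm_anti1 k l i j x)
    (fun k l i j => D.cm_anti2 k l i j x)
  unfold T at h
  rw [h]
  have h1 := D.norm_cm x
  have h2 := sum_ric_sq x (D.ra (‖x‖ ^ 2)) (D.rb (‖x‖ ^ 2)) (D.rc (‖x‖ ^ 2))
  have h3 := D.scT_T x
  have h4 : ∀ k i, ricT (fun k l i j => D.cm k l i j x) k i
      = D.ra (‖x‖ ^ 2) * dl i k + D.rb (‖x‖ ^ 2) * (x i * x k)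
      + D.rc (‖x‖ ^ 2) * (Yv x i * Yv x k) := D.ricT_T x
  unfold T at h3
  rw [h1, h3]
  simp only [h4]
  rw [h2]
  unfold ra rb rc
  ring

end QD

end Pool.Agent.H91.GBC
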