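import Pool.Agent.H91.GBCRiem

/-!
# The mixed Riemann tensor `R_{kl}^{ij}` of `δ + q (|x|²) Jx ⊗ Jx` on `ℝ⁶`
-/

open MeasureTheory Filter Topology
open scoped BigOperators ContDiff Nat

namespace Pool.Agent.H91.GBC

namespace QD
variable (D : QD)

lemma be_eq {t : ℝ} (ht : 0 ≤ t) :
    D.be t = - D.al t * (1 + t * D.q t) - 3 * D.q t * D.q1 t := by
  have h := (D.X_pos ht).ne'
  have h3 : D.X t = 1 + t * D.q t := rfl
  have hAX := D.A_mul_X ht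
  have hA1 : D.A1 t * D.X t = D.q2 t - 2 * D.q t * D.q1 t - D.A t * (D.q t + t * D.q1 t) := by
    unfold A1 A
    field_simp
  unfold be al
  have h4 : (D.A t * t + D.q t) * D.X t = D.q t + t * D.q1 t := by
    rw [h3]; linear_combination t * hAX
  have h5 : (D.A t * t + D.q t) * (D.q1 t - D.q t ^ 2) = (D.q t + t * D.q1 t) * D.A t := by
    rw [← hAX, ← h3, ← h4]; ring
  rw [← h3] at hAX ⊢
  linear_combination (2 : ℝ) * hA1 + h5 + (D.A t * t + D.q t) * hAX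

lemma sum_Y_rm (x : Eu 6) (i k l : Fin 6) :
    ∑ m, Yv x m * D.rm i m k l x
      = D.be (‖x‖ ^ 2) * x i * ‖x‖ ^ 2 * Zf x k l
        + D.q1 (‖x‖ ^ 2) * (- Jr i k * x l * ‖x‖ ^ 2 + Jr i l * x k * ‖x‖ ^ 2
            - 2 * x i * Zf x k l)
        - D.q1 (‖x‖ ^ 2) * x i * (-2 * ‖x‖ ^ 2 * Jr k l + Yv x l * x k - Yv x k * x l)
        + (D.q (‖x‖ ^ 2) ^ 2 - D.q1 (‖x‖ ^ 2)) * ‖x‖ ^ 2 * (dl i k * Yv x l - dl i l * Yv x k)
        + D.q (‖x‖ ^ 2) * (Jr i l * x k - Jr i k * x l + 2 * x i * Jr k l) := by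
  have h1 : ∀ m, Yv x m * D.rm i m k l x
      = (D.al (‖x‖ ^ 2) * Yv x i * Zf x k l) * (Yv x m * x m)
        + (D.be (‖x‖ ^ 2) * x i * Zf x k l) * (Yv x m * Yv x m)
        + (D.q1 (‖x‖ ^ 2) * Jr i k * Yv x l) * (Yv x m * x m)
        + (- D.q1 (‖x‖ ^ 2) * Jr i k * x l) * (Yv x m * Yv x m)
        + (- D.q1 (‖x‖ ^ 2) * Jr i l * Yv x k) * (Yv x m * x m)
        + (D.q1 (‖x‖ ^ 2) * Jr i l * x k) * (Yv x m * Yv x m)
        + (2 * D.q1 (‖x‖ ^ 2) * Zf x k l) * (Jr i m * Yv x m)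
        + (2 * D.q1 (‖x‖ ^ 2) * x i * Jr k l) * (Yv x m * Yv x m)
        + (- D.q1 (‖x‖ ^ 2) * x i * Yv x l) * (Yv x m * Jr m k)
        + (D.q1 (‖x‖ ^ 2) * x i * Yv x k) * (Yv x m * Jr m l)
        + (D.A (‖x‖ ^ 2) * Yv x i * x l) * (Yv x m * Jr m k)
        + (- D.A (‖x‖ ^ 2) * Yv x i * x k) * (Yv x m * Jr m l)
        + (D.A (‖x‖ ^ 2) * Yv x i * Yv x l) * (Yv x m * dl m k)
        + (- D.A (‖x‖ ^ 2) * Yv x i * Yv x k) * (Yv x m * dl m l)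
        + (-2 * D.A (‖x‖ ^ 2) * Yv x i * Jr k l) * (Yv x m * x m)
        + ((D.q (‖x‖ ^ 2) ^ 2 - D.q1 (‖x‖ ^ 2)) * (dl i k * Yv x l - dl i l * Yv x k))
            * (Yv x m * Yv x m)
        + (D.q (‖x‖ ^ 2) * Jr i l) * (Yv x m * Jr m k)
        + (- D.q (‖x‖ ^ 2) * Jr i k) * (Yv x m * Jr m l)
        + (-2 * D.q (‖x‖ ^ 2) * Jr k l) * (Jr i m * Yv x m) := by
    intro m
    unfold rm
    rw [show Zf x m l = x m * Yv x l - x l * Yv x m from rfl,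
      show Zf x m k = x m * Yv x k - x k * Yv x m from rfl]
    ring
  rw [Finset.sum_congr rfl fun m _ => h1 m]
  simp only [Finset.sum_add_distrib, ← Finset.mul_sum]
  rw [sum_YY, sum_Yx, sum_YJ, sum_YJ, sum_JY, sum_mul_dl, sum_mul_dl]
  ring

/-- closed form of the mixed Riemann tensor `R_{kl}^{ij}` -/
noncomputable def cm (k l i j : Fin 6) (x : Eu 6) : ℝ :=
  - D.al (‖x‖ ^ 2) * Zf x i j * Zf x k l + 2 * D.q1 (‖x‖ ^ 2) * Jr i j * Zf x k l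
    + 2 * D.A (‖x‖ ^ 2) * Zf x i j * Jr k l
    + D.q1 (‖x‖ ^ 2) * (x j * (Jr i k * Yv x l - Jr i l * Yv x k)
        - x i * (Jr j k * Yv x l - Jr j l * Yv x k))
    + D.A (‖x‖ ^ 2) * (Yv x i * (x l * Jr j k - x k * Jr j l)
        - Yv x j * (x l * Jr i k - x k * Jr i l))
    + D.A (‖x‖ ^ 2) * (Yv x i * (dl j k * Yv x l - dl j l * Yv x k)
        - Yv x j * (dl i k * Yv x l - dl i l * Yv x k))
    - D.q (‖x‖ ^ 2) * (Jr i k * Jr j l - Jr i l * Jr j k + 2 * Jr i j * Jr k l)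

lemma curv_eq (k l i j : Fin 6) (x : Eu 6) : curv D.g k l i j x = D.cm k l i j x := by
  unfold curv
  simp only [riem_eq, inv_g]
  have h1 : ∀ m, D.ginv x j m * D.rm i m k l x = dl j m * D.rm i m k l x
      + (- (D.q (‖x‖ ^ 2) / D.X (‖x‖ ^ 2)) * Yv x j) * (Yv x m * D.rm i m k l x) := by
    intro m
    rw [ginv_apply]
    ring
  rw [Finset.sum_congr rfl fun m _ => h1 m]
  simp only [Finset.sum_add_distrib, ← Finset.mul_sum]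
  rw [sum_dl_mul j (fun m => D.rm i m k l x), sum_Y_rm]
  unfold rm cm Zf
  have h3 : D.X (‖x‖ ^ 2) = 1 + ‖x‖ ^ 2 * D.q (‖x‖ ^ 2) := rfl
  have hX := (D.X_pos (sq_nonneg ‖x‖)).ne'
  rw [h3] at hX ⊢
  have hbe := D.be_eq (sq_nonneg ‖x‖)
  have hAX := D.A_mul_X (sq_nonneg ‖x‖)
  have hq1 : D.q1 (‖x‖ ^ 2) = D.A (‖x‖ ^ 2) * (1 + ‖x‖ ^ 2 * D.q (‖x‖ ^ 2))
      + D.q (‖x‖ ^ 2) ^ 2 := by linarith
  rw [hbe, hq1]
  generalize ‖x‖ ^ 2 = ρ at *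
  generalize D.A ρ = A at *
  generalize D.q ρ = q at *
  generalize D.al ρ = α at *
  field_simp
  ring

end QD

end Pool.Agent.H91.GBC
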