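import Pool.Agent.H91.GBCMixed
import Pool.Agent.H91.GBCFrame

/-!
# The full norm of the mixed Riemann tensor
-/

open scoped BigOperators

namespace Pool.Agent.H91.GBC

/-- the closed form of the mixed Riemann tensor as a function of scalars -/
noncomputable def cmG (α q1 A q xk yk xl yl xi yi xj yj Jij Jkl Jik Jil Jjk Jjl dik dil djk djl : ℝ) :
    ℝ :=
  - α * (xi * yj - xj * yi) * (xk * yl - xl * yk) + 2 * q1 * Jij * (xk * yl - xl * yk)
    + 2 * A * (xi * yj - xj * yi) * Jkl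
    + q1 * (xj * (Jik * yl - Jil * yk) - xi * (Jjk * yl - Jjl * yk))
    + A * (yi * (xl * Jjk - xk * Jjl) - yj * (xl * Jik - xk * Jil))
    + A * (yi * (djk * yl - djl * yk) - yj * (dik * yl - dil * yk))
    - q * (Jik * Jjl - Jil * Jjk + 2 * Jij * Jkl)

lemma slot_j (α q1 A q xk yk xl yl xi yi Jkl Jik Jil dik dil : ℝ)
    (w X Y P Q R S T : Fin 6 → ℝ) :
    ∑ j, w j * cmG α q1 A q xk yk xl yl xi yi (X j) (Y j) (P j) Jkl Jik Jil (Q j) (R j)
        dik dil (S j) (T j)
      = cmG α q1 A q xk yk xl yl xi yi (∑ j, w j * X j) (∑ j, w j * Y j) (∑ j, w j * P j)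
        Jkl Jik Jil (∑ j, w j * Q j) (∑ j, w j * R j) dik dil (∑ j, w j * S j)
        (∑ j, w j * T j) := by
  have h : ∀ j, w j * cmG α q1 A q xk yk xl yl xi yi (X j) (Y j) (P j) Jkl Jik Jil (Q j) (R j)
        dik dil (S j) (T j)
      = (α * yi * (xk * yl - xl * yk) - 2 * A * yi * Jkl + q1 * (Jik * yl - Jil * yk))
          * (w j * X j)
        + (- α * xi * (xk * yl - xl * yk) + 2 * A * xi * Jkl - A * (xl * Jik - xk * Jil)
            - A * (dik * yl - dil * yk)) * (w j * Y j)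
        + (2 * q1 * (xk * yl - xl * yk) - 2 * q * Jkl) * (w j * P j)
        + (- q1 * xi * yl + A * yi * xl + q * Jil) * (w j * Q j)
        + (q1 * xi * yk - A * yi * xk - q * Jik) * (w j * R j)
        + (A * yi * yl) * (w j * S j) + (- A * yi * yk) * (w j * T j) := by
    intro j; unfold cmG; ring
  rw [Finset.sum_congr rfl fun j _ => h j]
  simp only [Finset.sum_add_distrib, ← Finset.mul_sum]
  unfold cmG; ring

lemma slot_i (α q1 A q xk yk xl yl xj yj Jkl Jjk Jjl djk djl : ℝ)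
    (w X Y P Q R S T : Fin 6 → ℝ) :
    ∑ i, w i * cmG α q1 A q xk yk xl yl (X i) (Y i) xj yj (P i) Jkl (Q i) (R i) Jjk Jjl
        (S i) (T i) djk djl
      = cmG α q1 A q xk yk xl yl (∑ i, w i * X i) (∑ i, w i * Y i) xj yj (∑ i, w i * P i)
        Jkl (∑ i, w i * Q i) (∑ i, w i * R i) Jjk Jjl (∑ i, w i * S i)
        (∑ i, w i * T i) djk djl := by
  have h : ∀ i, w i * cmG α q1 A q xk yk xl yl (X i) (Y i) xj yj (P i) Jkl (Q i) (R i) Jjk Jjl
        (S i) (T i) djk djl
      = (- α * yj * (xk * yl - xl * yk) + 2 * A * yj * Jkl - q1 * (Jjk * yl - Jjl * yk))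
          * (w i * X i)
        + (α * xj * (xk * yl - xl * yk) - 2 * A * xj * Jkl + A * (xl * Jjk - xk * Jjl)
            + A * (djk * yl - djl * yk)) * (w i * Y i)
        + (2 * q1 * (xk * yl - xl * yk) - 2 * q * Jkl) * (w i * P i)
        + (q1 * xj * yl - A * yj * xl - q * Jjl) * (w i * Q i)
        + (- q1 * xj * yk + A * yj * xk + q * Jjk) * (w i * R i)
        + (- A * yj * yl) * (w i * S i) + (A * yj * yk) * (w i * T i) := by
    intro i; unfold cmG; ring
  rw [Finset.sum_congr rfl fun i _ => h i]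
  simp only [Finset.sum_add_distrib, ← Finset.mul_sum]
  unfold cmG; ring

lemma slot_l (α q1 A q xk yk xi yi xj yj Jij Jik Jjk dik djk : ℝ)
    (w X Y P Q R S T : Fin 6 → ℝ) :
    ∑ l, w l * cmG α q1 A q xk yk (X l) (Y l) xi yi xj yj Jij (P l) Jik (Q l) Jjk (R l)
        dik (S l) djk (T l)
      = cmG α q1 A q xk yk (∑ l, w l * X l) (∑ l, w l * Y l) xi yi xj yj Jij (∑ l, w l * P l)
        Jik (∑ l, w l * Q l) Jjk (∑ l, w l * R l) dik (∑ l, w l * S l) djk
        (∑ l, w l * T l) := by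
  have h : ∀ l, w l * cmG α q1 A q xk yk (X l) (Y l) xi yi xj yj Jij (P l) Jik (Q l) Jjk (R l)
        dik (S l) djk (T l)
      = (α * yk * (xi * yj - xj * yi) - 2 * q1 * Jij * yk + A * (yi * Jjk - yj * Jik))
          * (w l * X l)
        + (- α * xk * (xi * yj - xj * yi) + 2 * q1 * Jij * xk + q1 * (xj * Jik - xi * Jjk)
            + A * (yi * djk - yj * dik)) * (w l * Y l)
        + (2 * A * (xi * yj - xj * yi) - 2 * q * Jij) * (w l * P l)
        + (- q1 * xj * yk + A * yj * xk + q * Jjk) * (w l * Q l)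
        + (q1 * xi * yk - A * yi * xk - q * Jik) * (w l * R l)
        + (A * yj * yk) * (w l * S l) + (- A * yi * yk) * (w l * T l) := by
    intro l; unfold cmG; ring
  rw [Finset.sum_congr rfl fun l _ => h l]
  simp only [Finset.sum_add_distrib, ← Finset.mul_sum]
  unfold cmG; ring

lemma slot_k (α q1 A q xl yl xi yi xj yj Jij Jil Jjl dil djl : ℝ)
    (w X Y P Q R S T : Fin 6 → ℝ) :
    ∑ k, w k * cmG α q1 A q (X k) (Y k) xl yl xi yi xj yj Jij (P k) (Q k) Jil (R k) Jjl
        (S k) dil (T k) djl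
      = cmG α q1 A q (∑ k, w k * X k) (∑ k, w k * Y k) xl yl xi yi xj yj Jij (∑ k, w k * P k)
        (∑ k, w k * Q k) Jil (∑ k, w k * R k) Jjl (∑ k, w k * S k) dil
        (∑ k, w k * T k) djl := by
  have h : ∀ k, w k * cmG α q1 A q (X k) (Y k) xl yl xi yi xj yj Jij (P k) (Q k) Jil (R k) Jjl
        (S k) dil (T k) djl
      = (- α * yl * (xi * yj - xj * yi) + 2 * q1 * Jij * yl - A * (yi * Jjl - yj * Jil))
          * (w k * X k)
        + (α * xl * (xi * yj - xj * yi) - 2 * q1 * Jij * xl - q1 * (xj * Jil - xi * Jjl)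
            - A * (yi * djl - yj * dil)) * (w k * Y k)
        + (2 * A * (xi * yj - xj * yi) - 2 * q * Jij) * (w k * P k)
        + (q1 * xj * yl - A * yj * xl - q * Jjl) * (w k * Q k)
        + (- q1 * xi * yl + A * yi * xl + q * Jil) * (w k * R k)
        + (- A * yj * yl) * (w k * S k) + (A * yi * yl) * (w k * T k) := by
    intro k; unfold cmG; ring
  rw [Finset.sum_congr rfl fun k _ => h k]
  simp only [Finset.sum_add_distrib, ← Finset.mul_sum]
  unfold cmG; ring

/-- components of a 4-tensor in a frame -/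
noncomputable def pull (U : Fin 6 → Fin 6 → ℝ) (T : Fin 6 → Fin 6 → Fin 6 → Fin 6 → ℝ)
    (a b c d : Fin 6) : ℝ :=
  ∑ k, U k a * ∑ l, U l b * ∑ i, U i c * ∑ j, U j d * T k l i j

lemma parseval {U : Fin 6 → Fin 6 → ℝ} (hU : ∀ i j, ∑ a, U i a * U j a = dl i j)
    (f h : Fin 6 → ℝ) :
    ∑ i, f i * h i = ∑ a, (∑ i, U i a * f i) * (∑ i, U i a * h i) := by
  have h1 : ∀ a, (∑ i, U i a * f i) * (∑ j, U j a * h j)
      = ∑ i, ∑ j, (f i * h j) * (U i a * U j a) := by
    intro a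
    rw [Finset.sum_mul_sum]
    exact Finset.sum_congr rfl fun i _ => Finset.sum_congr rfl fun j _ => by ring
  simp only [h1]
  rw [Finset.sum_comm]
  refine Finset.sum_congr rfl fun i _ => ?_
  rw [Finset.sum_comm]
  simp only [← Finset.mul_sum, hU]
  have h2 : ∀ j, f i * h j * dl i j = f i * (dl i j * h j) := fun j => by ring
  simp only [h2, ← Finset.mul_sum, sum_dl_mul]

lemma parseval4 {U : Fin 6 → Fin 6 → ℝ} (hU : ∀ i j, ∑ a, U i a * U j a = dl i j)
    (S T : Fin 6 → Fin 6 → Fin 6 → Fin 6 → ℝ) :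
    ∑ k, ∑ l, ∑ i, ∑ j, T k l i j * S k l i j
      = ∑ a, ∑ b, ∑ c, ∑ d, pull U T a b c d * pull U S a b c d := by
  have e1 : ∀ k l i, ∑ j, T k l i j * S k l i j
      = ∑ d, (∑ j, U j d * T k l i j) * (∑ j, U j d * S k l i j) :=
    fun k l i => parseval hU _ _
  have e2 : ∀ k l, ∑ i, ∑ j, T k l i j * S k l i j
      = ∑ d, ∑ c, (∑ i, U i c * ∑ j, U j d * T k l i j)
          * (∑ i, U i c * ∑ j, U j d * S k l i j) := by
    intro k l
    simp only [e1]
    rw [Finset.sum_comm]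
    exact Finset.sum_congr rfl fun d _ => parseval hU _ _
  have e3 : ∀ k, ∑ l, ∑ i, ∑ j, T k l i j * S k l i j
      = ∑ d, ∑ c, ∑ b, (∑ l, U l b * ∑ i, U i c * ∑ j, U j d * T k l i j)
          * (∑ l, U l b * ∑ i, U i c * ∑ j, U j d * S k l i j) := by
    intro k
    simp only [e2]
    rw [Finset.sum_comm]
    refine Finset.sum_congr rfl fun d _ => ?_
    rw [Finset.sum_comm]
    exact Finset.sum_congr rfl fun c _ => parseval hU _ _
  have e4 : ∑ k, ∑ l, ∑ i, ∑ j, T k l i j * S k l i j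
      = ∑ d, ∑ c, ∑ b, ∑ a, pull U T a b c d * pull U S a b c d := by
    simp only [e3]
    rw [Finset.sum_comm]
    refine Finset.sum_congr rfl fun d _ => ?_
    rw [Finset.sum_comm]
    refine Finset.sum_congr rfl fun c _ => ?_
    rw [Finset.sum_comm]
    exact Finset.sum_congr rfl fun b _ => parseval hU _ _
  rw [e4]
  calc ∑ d, ∑ c, ∑ b, ∑ a, pull U T a b c d * pull U S a b c d
      = ∑ d, ∑ c, ∑ a, ∑ b, pull U T a b c d * pull U S a b c d :=
        Finset.sum_congr rfl fun d _ => Finset.sum_congr rfl fun c _ => Finset.sum_comm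
    _ = ∑ d, ∑ a, ∑ c, ∑ b, pull U T a b c d * pull U S a b c d :=
        Finset.sum_congr rfl fun d _ => Finset.sum_comm
    _ = ∑ a, ∑ d, ∑ c, ∑ b, pull U T a b c d * pull U S a b c d := Finset.sum_comm
    _ = ∑ a, ∑ d, ∑ b, ∑ c, pull U T a b c d * pull U S a b c d :=
        Finset.sum_congr rfl fun a _ => Finset.sum_congr rfl fun d _ => Finset.sum_comm
    _ = ∑ a, ∑ b, ∑ d, ∑ c, pull U T a b c d * pull U S a b c d :=
        Finset.sum_congr rfl fun a _ => Finset.sum_comm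
    _ = ∑ a, ∑ b, ∑ c, ∑ d, pull U T a b c d * pull U S a b c d :=
        Finset.sum_congr rfl fun a _ => Finset.sum_congr rfl fun b _ => Finset.sum_comm

/-- exchanging the two index pairs -/
lemma pull_swap (U : Fin 6 → Fin 6 → ℝ) (T : Fin 6 → Fin 6 → Fin 6 → Fin 6 → ℝ)
    (a b c d : Fin 6) :
    pull U (fun k l i j => T i j k l) a b c d = pull U T c d a b := by
  unfold pull
  have h1 : ∑ k, U k a * ∑ l, U l b * ∑ i, U i c * ∑ j, U j d * T i j k l
      = ∑ k, ∑ l, ∑ i, ∑ j, U k a * U l b * U i c * U j d * T i j k l := by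
    simp only [Finset.mul_sum]
    exact Finset.sum_congr rfl fun k _ => Finset.sum_congr rfl fun l _ =>
      Finset.sum_congr rfl fun i _ => Finset.sum_congr rfl fun j _ => by ring
  have h2 : ∑ i, U i c * ∑ j, U j d * ∑ k, U k a * ∑ l, U l b * T i j k l
      = ∑ i, ∑ j, ∑ k, ∑ l, U k a * U l b * U i c * U j d * T i j k l := by
    simp only [Finset.mul_sum]
    exact Finset.sum_congr rfl fun k _ => Finset.sum_congr rfl fun l _ =>
      Finset.sum_congr rfl fun i _ => Finset.sum_congr rfl fun j _ => by ring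
  rw [h1, h2]
  calc ∑ k, ∑ l, ∑ i, ∑ j, U k a * U l b * U i c * U j d * T i j k l
      = ∑ k, ∑ i, ∑ l, ∑ j, U k a * U l b * U i c * U j d * T i j k l :=
        Finset.sum_congr rfl fun k _ => Finset.sum_comm
    _ = ∑ i, ∑ k, ∑ l, ∑ j, U k a * U l b * U i c * U j d * T i j k l := Finset.sum_comm
    _ = ∑ i, ∑ k, ∑ j, ∑ l, U k a * U l b * U i c * U j d * T i j k l :=
        Finset.sum_congr rfl fun i _ => Finset.sum_congr rfl fun k _ => Finset.sum_comm
    _ = ∑ i, ∑ j, ∑ k, ∑ l, U k a * U l b * U i c * U j d * T i j k l :=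
        Finset.sum_congr rfl fun i _ => Finset.sum_comm

end Pool.Agent.H91.GBC
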