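import Pool.Agent.H91.GBCNorm

/-!
# The full norm of the mixed Riemann tensor: evaluation in a frame
-/

open scoped BigOperators

namespace Pool.Agent.H91.GBC

/-- integer Kronecker delta -/
def dz (i j : Fin 6) : ℤ := if i = j then 1 else 0
/-- first frame vector -/
def xz (i : Fin 6) : ℤ := if i = 0 then 1 else 0
/-- second frame vector -/
def yz (i : Fin 6) : ℤ := if i = 1 then 1 else 0
/-- frame tensor -/
def t1 (k l i j : Fin 6) : ℤ := (xz i * yz j - xz j * yz i) * (xz k * yz l - xz l * yz k)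
/-- frame tensor -/
def t2 (k l i j : Fin 6) : ℤ := 2 * Jz i j * (xz k * yz l - xz l * yz k)
  + (xz j * (Jz i k * yz l - Jz i l * yz k) - xz i * (Jz j k * yz l - Jz j l * yz k))
/-- frame tensor -/
def t3 (k l i j : Fin 6) : ℤ := 2 * (xz i * yz j - xz j * yz i) * Jz k l
  + (yz i * (xz l * Jz j k - xz k * Jz j l) - yz j * (xz l * Jz i k - xz k * Jz i l))
  + (yz i * (dz j k * yz l - dz j l * yz k) - yz j * (dz i k * yz l - dz i l * yz k))
/-- frame tensor -/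
def t4 (k l i j : Fin 6) : ℤ := -(Jz i k * Jz j l - Jz i l * Jz j k + 2 * Jz i j * Jz k l)

/-- contraction of two integer tensors -/
def gram (u v : Fin 6 → Fin 6 → Fin 6 → Fin 6 → ℤ) : ℤ :=
  ∑ a, ∑ b, ∑ c, ∑ d, u a b c d * v c d a b

set_option maxRecDepth 100000 in
lemma gram_vals : gram t1 t1 = 4 ∧ gram t1 t2 = -12 ∧ gram t1 t3 = -16 ∧ gram t1 t4 = -12 ∧
    gram t2 t1 = -12 ∧ gram t2 t2 = 36 ∧ gram t2 t3 = 96 ∧ gram t2 t4 = 84 ∧
    gram t3 t1 = -16 ∧ gram t3 t2 = 96 ∧ gram t3 t3 = 80 ∧ gram t3 t4 = 96 ∧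
    gram t4 t1 = -12 ∧ gram t4 t2 = 84 ∧ gram t4 t3 = 96 ∧ gram t4 t4 = 252 := by
  refine ⟨?_, ?_, ?_, ?_, ?_, ?_, ?_, ?_, ?_, ?_, ?_, ?_, ?_, ?_, ?_, ?_⟩ <;> decide +kernel

/-- real version -/
noncomputable def tr (t : Fin 6 → Fin 6 → Fin 6 → Fin 6 → ℤ) (a b c d : Fin 6) : ℝ :=
  (t a b c d : ℝ)

lemma gram_real (u v : Fin 6 → Fin 6 → Fin 6 → Fin 6 → ℤ) :
    ∑ a, ∑ b, ∑ c, ∑ d, tr u a b c d * tr v c d a b = (gram u v : ℝ) := by
  unfold gram tr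
  push_cast
  rfl

lemma sum_frame (c1 c2 c3 c4 : ℝ) :
    ∑ a, ∑ b, ∑ c, ∑ d, (c1 * tr t1 a b c d + c2 * tr t2 a b c d + c3 * tr t3 a b c d
        + c4 * tr t4 a b c d) * (c1 * tr t1 c d a b + c2 * tr t2 c d a b + c3 * tr t3 c d a b
        + c4 * tr t4 c d a b)
      = 4 * c1 ^ 2 + 36 * c2 ^ 2 + 80 * c3 ^ 2 + 252 * c4 ^ 2 - 24 * c1 * c2 - 32 * c1 * c3
        - 24 * c1 * c4 + 192 * c2 * c3 + 168 * c2 * c4 + 192 * c3 * c4 := by
  obtain ⟨h11, h12, h13, h14, h21, h22, h23, h24, h31, h32, h33, h34, h41, h42, h43, h44⟩ :=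
    gram_vals
  have e : ∀ a b c d : Fin 6, (c1 * tr t1 a b c d + c2 * tr t2 a b c d + c3 * tr t3 a b c d
        + c4 * tr t4 a b c d) * (c1 * tr t1 c d a b + c2 * tr t2 c d a b + c3 * tr t3 c d a b
        + c4 * tr t4 c d a b)
      = (c1 * c1) * (tr t1 a b c d * tr t1 c d a b) + (c1 * c2) * (tr t1 a b c d * tr t2 c d a b)
        + (c1 * c3) * (tr t1 a b c d * tr t3 c d a b) + (c1 * c4) * (tr t1 a b c d * tr t4 c d a b)
        + (c2 * c1) * (tr t2 a b c d * tr t1 c d a b) + (c2 * c2) * (tr t2 a b c d * tr t2 c d a b)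
        + (c2 * c3) * (tr t2 a b c d * tr t3 c d a b) + (c2 * c4) * (tr t2 a b c d * tr t4 c d a b)
        + (c3 * c1) * (tr t3 a b c d * tr t1 c d a b) + (c3 * c2) * (tr t3 a b c d * tr t2 c d a b)
        + (c3 * c3) * (tr t3 a b c d * tr t3 c d a b) + (c3 * c4) * (tr t3 a b c d * tr t4 c d a b)
        + (c4 * c1) * (tr t4 a b c d * tr t1 c d a b) + (c4 * c2) * (tr t4 a b c d * tr t2 c d a b)
        + (c4 * c3) * (tr t4 a b c d * tr t3 c d a b)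
        + (c4 * c4) * (tr t4 a b c d * tr t4 c d a b) := by
    intro a b c d; ring
  simp only [e]
  have key : ∀ u v : Fin 6 → Fin 6 → Fin 6 → Fin 6 → ℤ, ∀ z : ℝ,
      ∑ a, ∑ b, ∑ c, ∑ d, z * (tr u a b c d * tr v c d a b) = z * (gram u v : ℝ) := by
    intro u v z
    rw [← gram_real]
    simp only [Finset.mul_sum]
  simp only [Finset.sum_add_distrib]
  simp only [key]
  rw [h11, h12, h13, h14, h21, h22, h23, h24, h31, h32, h33, h34, h41, h42, h43, h44]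
  push_cast
  ring

end Pool.Agent.H91.GBC
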