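import Pool.Agent.H91.GBCNorm2

/-!
# The full norm of the mixed Riemann tensor: closed form
-/

open scoped BigOperators

namespace Pool.Agent.H91.GBC

section frame
variable {U : Fin 6 → Fin 6 → ℝ} {x : Eu 6} (hU : IsFrame U x)
include hU

lemma frame_x (a : Fin 6) : ∑ k, U k a * x k = ‖x‖ * dl a 0 := by
  have h : ∀ k, U k a * x k = ‖x‖ * (U k a * U k 0) := by
    intro k; rw [hU.x0 k]
    ring_nf
  simp only [h, ← Finset.mul_sum, hU.col]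

lemma frame_J' (c a : Fin 6) : ∑ k, U k a * ∑ i, U i c * Jr i k = Jr c a := by
  rw [← hU.hJ c a]
  simp only [Finset.mul_sum]
  rw [Finset.sum_comm]
  exact Finset.sum_congr rfl fun i _ => Finset.sum_congr rfl fun j _ => by ring

lemma frame_dl (c a : Fin 6) : ∑ k, U k a * ∑ i, U i c * dl i k = dl c a := by
  simp only [sum_mul_dl]
  rw [hU.col, dl_comm]

lemma frame_y (a : Fin 6) : ∑ k, U k a * Yv x k = ‖x‖ * dl a 1 := by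
  have h : ∀ k, U k a * Yv x k = ‖x‖ * (U k a * ∑ j, U j 0 * Jr k j) := by
    intro k
    unfold Yv
    have : ∀ j, Jr k j * x j = ‖x‖ * (U j 0 * Jr k j) := by
      intro j; rw [hU.x0 j]; ring_nf
    simp only [this, ← Finset.mul_sum]
    ring
  simp only [h, ← Finset.mul_sum, hU.hJ]
  congr 1
  have : ∀ a : Fin 6, Jz a 0 = if a = 1 then 1 else 0 := by decide
  unfold Jr dl
  rw [this]
  split_ifs <;> simp

end frame

namespace QD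
variable (D : QD)

lemma cm_eq_cmG (k l i j : Fin 6) (x : Eu 6) :
    D.cm k l i j x = cmG (D.al (‖x‖ ^ 2)) (D.q1 (‖x‖ ^ 2)) (D.A (‖x‖ ^ 2)) (D.q (‖x‖ ^ 2))
      (x k) (Yv x k) (x l) (Yv x l) (x i) (Yv x i) (x j) (Yv x j)
      (Jr i j) (Jr k l) (Jr i k) (Jr i l) (Jr j k) (Jr j l) (dl i k) (dl i l) (dl j k) (dl j l) := by
  unfold cm cmG Zf
  ring

lemma pull_cm {U : Fin 6 → Fin 6 → ℝ} {x : Eu 6} (hU : IsFrame U x) (a b c d : Fin 6) :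
    pull U (fun k l i j => D.cm k l i j x) a b c d
      = cmG (D.al (‖x‖ ^ 2)) (D.q1 (‖x‖ ^ 2)) (D.A (‖x‖ ^ 2)) (D.q (‖x‖ ^ 2))
      (‖x‖ * dl a 0) (‖x‖ * dl a 1) (‖x‖ * dl b 0) (‖x‖ * dl b 1) (‖x‖ * dl c 0) (‖x‖ * dl c 1)
      (‖x‖ * dl d 0) (‖x‖ * dl d 1)
      (Jr c d) (Jr a b) (Jr c a) (Jr c b) (Jr d a) (Jr d b) (dl c a) (dl c b) (dl d a)
      (dl d b) := by
  unfold pull
  simp only [cm_eq_cmG]
  have s1 : ∀ k l i, ∑ j, U j d * cmG (D.al (‖x‖ ^ 2)) (D.q1 (‖x‖ ^ 2)) (D.A (‖x‖ ^ 2))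
      (D.q (‖x‖ ^ 2)) (x k) (Yv x k) (x l) (Yv x l) (x i) (Yv x i) (x j) (Yv x j)
      (Jr i j) (Jr k l) (Jr i k) (Jr i l) (Jr j k) (Jr j l) (dl i k) (dl i l) (dl j k) (dl j l)
      = cmG (D.al (‖x‖ ^ 2)) (D.q1 (‖x‖ ^ 2)) (D.A (‖x‖ ^ 2))
      (D.q (‖x‖ ^ 2)) (x k) (Yv x k) (x l) (Yv x l) (x i) (Yv x i) (‖x‖ * dl d 0) (‖x‖ * dl d 1)
      (∑ j, U j d * Jr i j) (Jr k l) (Jr i k) (Jr i l) (∑ j, U j d * Jr j k)
      (∑ j, U j d * Jr j l) (dl i k) (dl i l) (∑ j, U j d * dl j k) (∑ j, U j d * dl j l) := by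
    intro k l i
    rw [slot_j (w := fun j => U j d) (X := fun j => x j) (Y := fun j => Yv x j)
      (P := fun j => Jr i j) (Q := fun j => Jr j k) (R := fun j => Jr j l)
      (S := fun j => dl j k) (T := fun j => dl j l)]
    rw [frame_x hU, frame_y hU]
  simp only [s1]
  have s2 : ∀ k l, ∑ i, U i c * cmG (D.al (‖x‖ ^ 2)) (D.q1 (‖x‖ ^ 2)) (D.A (‖x‖ ^ 2))
      (D.q (‖x‖ ^ 2)) (x k) (Yv x k) (x l) (Yv x l) (x i) (Yv x i) (‖x‖ * dl d 0) (‖x‖ * dl d 1)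
      (∑ j, U j d * Jr i j) (Jr k l) (Jr i k) (Jr i l) (∑ j, U j d * Jr j k)
      (∑ j, U j d * Jr j l) (dl i k) (dl i l) (∑ j, U j d * dl j k) (∑ j, U j d * dl j l)
      = cmG (D.al (‖x‖ ^ 2)) (D.q1 (‖x‖ ^ 2)) (D.A (‖x‖ ^ 2))
      (D.q (‖x‖ ^ 2)) (x k) (Yv x k) (x l) (Yv x l) (‖x‖ * dl c 0) (‖x‖ * dl c 1)
      (‖x‖ * dl d 0) (‖x‖ * dl d 1)
      (Jr c d) (Jr k l) (∑ i, U i c * Jr i k) (∑ i, U i c * Jr i l) (∑ j, U j d * Jr j k)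
      (∑ j, U j d * Jr j l) (∑ i, U i c * dl i k) (∑ i, U i c * dl i l) (∑ j, U j d * dl j k)
      (∑ j, U j d * dl j l) := by
    intro k l
    rw [slot_i (w := fun i => U i c) (X := fun i => x i) (Y := fun i => Yv x i)
      (P := fun i => ∑ j, U j d * Jr i j) (Q := fun i => Jr i k) (R := fun i => Jr i l)
      (S := fun i => dl i k) (T := fun i => dl i l)]
    rw [frame_x hU, frame_y hU, hU.hJ]
  simp only [s2]
  have s3 : ∀ k, ∑ l, U l b * cmG (D.al (‖x‖ ^ 2)) (D.q1 (‖x‖ ^ 2)) (D.A (‖x‖ ^ 2))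
      (D.q (‖x‖ ^ 2)) (x k) (Yv x k) (x l) (Yv x l) (‖x‖ * dl c 0) (‖x‖ * dl c 1)
      (‖x‖ * dl d 0) (‖x‖ * dl d 1)
      (Jr c d) (Jr k l) (∑ i, U i c * Jr i k) (∑ i, U i c * Jr i l) (∑ j, U j d * Jr j k)
      (∑ j, U j d * Jr j l) (∑ i, U i c * dl i k) (∑ i, U i c * dl i l) (∑ j, U j d * dl j k)
      (∑ j, U j d * dl j l)
      = cmG (D.al (‖x‖ ^ 2)) (D.q1 (‖x‖ ^ 2)) (D.A (‖x‖ ^ 2))
      (D.q (‖x‖ ^ 2)) (x k) (Yv x k) (‖x‖ * dl b 0) (‖x‖ * dl b 1) (‖x‖ * dl c 0)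
      (‖x‖ * dl c 1) (‖x‖ * dl d 0) (‖x‖ * dl d 1)
      (Jr c d) (∑ l, U l b * Jr k l) (∑ i, U i c * Jr i k) (Jr c b) (∑ j, U j d * Jr j k)
      (Jr d b) (∑ i, U i c * dl i k) (dl c b) (∑ j, U j d * dl j k) (dl d b) := by
    intro k
    rw [slot_l (w := fun l => U l b) (X := fun l => x l) (Y := fun l => Yv x l)
      (P := fun l => Jr k l) (Q := fun l => ∑ i, U i c * Jr i l)
      (R := fun l => ∑ j, U j d * Jr j l) (S := fun l => ∑ i, U i c * dl i l)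
      (T := fun l => ∑ j, U j d * dl j l)]
    rw [frame_x hU, frame_y hU, frame_J' hU, frame_J' hU, frame_dl hU, frame_dl hU]
  simp only [s3]
  rw [slot_k (w := fun k => U k a) (X := fun k => x k) (Y := fun k => Yv x k)
      (P := fun k => ∑ l, U l b * Jr k l) (Q := fun k => ∑ i, U i c * Jr i k)
      (R := fun k => ∑ j, U j d * Jr j k) (S := fun k => ∑ i, U i c * dl i k)
      (T := fun k => ∑ j, U j d * dl j k)]
  rw [frame_x hU, frame_y hU, frame_J' hU, frame_J' hU, frame_dl hU, frame_dl hU, hU.hJ]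

lemma cmG_frame (α q1 A q r : ℝ) (a b c d : Fin 6) :
    cmG α q1 A q (r * dl a 0) (r * dl a 1) (r * dl b 0) (r * dl b 1) (r * dl c 0) (r * dl c 1)
      (r * dl d 0) (r * dl d 1)
      (Jr c d) (Jr a b) (Jr c a) (Jr c b) (Jr d a) (Jr d b) (dl c a) (dl c b) (dl d a)
      (dl d b)
    = (- α * r ^ 4) * tr t1 a b c d + (q1 * r ^ 2) * tr t2 a b c d + (A * r ^ 2) * tr t3 a b c d
      + q * tr t4 a b c d := by
  have h0 : ∀ i : Fin 6, ((xz i : ℤ) : ℝ) = dl i 0 := by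
    intro i; unfold xz dl; split_ifs <;> simp
  have h1 : ∀ i : Fin 6, ((yz i : ℤ) : ℝ) = dl i 1 := by
    intro i; unfold yz dl; split_ifs <;> simp
  have h2 : ∀ i j : Fin 6, ((dz i j : ℤ) : ℝ) = dl i j := by
    intro i j; unfold dz dl; split_ifs <;> simp
  have h3 : ∀ i j : Fin 6, ((Jz i j : ℤ) : ℝ) = Jr i j := fun i j => rfl
  unfold tr t1 t2 t3 t4 cmG
  push_cast
  simp only [h0, h1, h2, h3]
  ring

theorem norm_cm (x : Eu 6) :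
    ∑ k, ∑ l, ∑ i, ∑ j, D.cm k l i j x * D.cm i j k l x
      = 4 * (- D.al (‖x‖ ^ 2) * ‖x‖ ^ 4) ^ 2 + 36 * (D.q1 (‖x‖ ^ 2) * ‖x‖ ^ 2) ^ 2
        + 80 * (D.A (‖x‖ ^ 2) * ‖x‖ ^ 2) ^ 2 + 252 * D.q (‖x‖ ^ 2) ^ 2
        - 24 * (- D.al (‖x‖ ^ 2) * ‖x‖ ^ 4) * (D.q1 (‖x‖ ^ 2) * ‖x‖ ^ 2)
        - 32 * (- D.al (‖x‖ ^ 2) * ‖x‖ ^ 4) * (D.A (‖x‖ ^ 2) * ‖x‖ ^ 2)
        - 24 * (- D.al (‖x‖ ^ 2) * ‖x‖ ^ 4) * D.q (‖x‖ ^ 2)
        + 192 * (D.q1 (‖x‖ ^ 2) * ‖x‖ ^ 2) * (D.A (‖x‖ ^ 2) * ‖x‖ ^ 2)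
        + 168 * (D.q1 (‖x‖ ^ 2) * ‖x‖ ^ 2) * D.q (‖x‖ ^ 2)
        + 192 * (D.A (‖x‖ ^ 2) * ‖x‖ ^ 2) * D.q (‖x‖ ^ 2) := by
  obtain ⟨U, hU⟩ := exists_frame x
  have h := parseval4 hU.row (fun k l i j => D.cm i j k l x) (fun k l i j => D.cm k l i j x)
  rw [h]
  have h2 : ∀ a b c d, pull U (fun k l i j => D.cm i j k l x) a b c d
      = pull U (fun k l i j => D.cm k l i j x) c d a b :=
    fun a b c d => pull_swap U (fun k l i j => D.cm k l i j x) a b c d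
  simp only [h2, D.pull_cm hU, cmG_frame]
  rw [sum_frame]

end QD

end Pool.Agent.H91.GBC
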