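import Pool.Agent.H91.GBCFlux2

/-!
# The profile `q (t) = 4 (1+t)^(-3/2)`
-/

open scoped BigOperators ContDiff
open Filter Topology

namespace Pool.Agent.H91.GBC

/-- `s (t) = (1+t)^(-1/2)` -/
noncomputable def sf (t : ℝ) : ℝ := (√(1 + t))⁻¹

lemma sf_pos {t : ℝ} (ht : 0 ≤ t) : 0 < sf t := by
  unfold sf; positivity

lemma sf_sq {t : ℝ} (ht : 0 ≤ t) : sf t ^ 2 * (1 + t) = 1 := by
  unfold sf
  rw [inv_pow, Real.sq_sqrt (by linarith)]
  field_simp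

lemma sf_le_one {t : ℝ} (ht : 0 ≤ t) : sf t ≤ 1 := by
  have h := sf_sq ht
  have h2 := sf_pos ht
  by_contra hc
  push Not at hc
  nlinarith [mul_nonneg ht (sq_nonneg (sf t))]

lemma sf_sq_mul {t : ℝ} (ht : 0 ≤ t) : sf t ^ 2 * t = 1 - sf t ^ 2 := by
  have := sf_sq ht; linarith

lemma hasDerivAt_sf {t : ℝ} (ht : 0 ≤ t) : HasDerivAt sf (-(1 / 2) * sf t ^ 3) t := by
  have h1 : HasDerivAt (fun t : ℝ => 1 + t) 1 t := by
    simpa using (hasDerivAt_id' t).const_add (1 : ℝ)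
  have h2 : HasDerivAt (fun t : ℝ => √(1 + t)) (1 / (2 * √(1 + t))) t :=
    h1.sqrt (by linarith : (1 : ℝ) + t ≠ 0)
  have h3 : √(1 + t) ≠ 0 := by positivity
  have h4 := h2.fun_inv h3
  refine HasDerivAt.congr_deriv h4 ?_
  unfold sf
  field_simp

/-- the profile -/
noncomputable def prof : QD where
  q t := 4 * sf t ^ 3
  q1 t := -6 * sf t ^ 5
  q2 t := 15 * sf t ^ 7
  hq t ht := by
    have := ((hasDerivAt_sf ht).fun_pow 3).const_mul 4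
    refine HasDerivAt.congr_deriv this ?_
    push_cast
    ring
  hq1 t ht := by
    have := ((hasDerivAt_sf ht).fun_pow 5).const_mul (-6)
    refine HasDerivAt.congr_deriv this ?_
    push_cast
    ring
  hX t ht := by
    have := sf_pos ht
    positivity

/-- the metric of the counterexample -/
noncomputable def gC : MatField 6 := prof.g

lemma prof_q (t : ℝ) : prof.q t = 4 * sf t ^ 3 := rfl
lemma prof_q1 (t : ℝ) : prof.q1 t = -6 * sf t ^ 5 := rfl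
lemma prof_q2 (t : ℝ) : prof.q2 t = 15 * sf t ^ 7 := rfl

lemma prof_X {t : ℝ} (ht : 0 ≤ t) : prof.X t = 1 + 4 * sf t * (1 - sf t ^ 2) := by
  have h := sf_sq_mul ht
  show 1 + t * (4 * sf t ^ 3) = _
  linear_combination (4 * sf t) * h

lemma prof_X_ge {t : ℝ} (ht : 0 ≤ t) : 1 ≤ prof.X t := by
  have := sf_pos ht
  show 1 ≤ 1 + t * (4 * sf t ^ 3)
  have : 0 ≤ t * (4 * sf t ^ 3) := by positivity
  linarith

lemma prof_X_le {t : ℝ} (ht : 0 ≤ t) : prof.X t ≤ 5 := by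
  rw [prof_X ht]
  have h1 := sf_pos ht
  have h2 := sf_le_one ht
  nlinarith [pow_pos h1 2, pow_pos h1 3]

/-- the polynomial in `s` deciding the sign of `L_2` -/
noncomputable def pp (s : ℝ) : ℝ :=
  4 + 14 * s - 52 * s ^ 2 - 16 * s ^ 3 + 204 * s ^ 4 + 32 * s ^ 5 - 156 * s ^ 6

lemma pp_pos {s : ℝ} (h0 : 0 ≤ s) (h1 : s ≤ 1) : 0 < pp s := by
  have h2 : 0 ≤ 1 - s := by linarith
  have key : pp s = 4 * (1 - s) ^ 7 + 42 * (s * (1 - s) ^ 6) + 116 * (s ^ 2 * (1 - s) ^ 5)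
      + 74 * (s ^ 3 * (1 - s) ^ 4) + 40 * (s ^ 4 * (1 - s) ^ 3) + 322 * (s ^ 5 * (1 - s) ^ 2)
      + 308 * (s ^ 6 * (1 - s)) + 30 * s ^ 7 := by
    unfold pp; ring
  rw [key]
  rcases h0.eq_or_lt with h | h
  · rw [← h]; norm_num
  · positivity

lemma pp_le {s : ℝ} (h0 : 0 ≤ s) (h1 : s ≤ 1) : pp s ≤ 254 := by
  unfold pp
  have a2 : 0 ≤ s ^ 2 := by positivity
  have a3 : 0 ≤ s ^ 3 := by positivity
  have a6 : 0 ≤ s ^ 6 := by positivity
  have a4 : s ^ 4 ≤ 1 := pow_le_one₀ h0 h1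
  have a5 : s ^ 5 ≤ 1 := pow_le_one₀ h0 h1
  linarith

theorem L2_closed (x : Eu 6) : L2 gC x
    = 192 * sf (‖x‖ ^ 2) ^ 7 * pp (sf (‖x‖ ^ 2)) / prof.X (‖x‖ ^ 2) ^ 2 := by
  unfold gC
  rw [prof.L2_eq]
  have ht : 0 ≤ ‖x‖ ^ 2 := sq_nonneg _
  have h4 : ‖x‖ ^ 4 = (‖x‖ ^ 2) ^ 2 := by ring
  rw [h4]
  generalize ‖x‖ ^ 2 = t at *
  have hs := sf_sq_mul ht
  have hXe := prof_X ht
  have hX := (prof.X_pos ht).ne'
  unfold QD.al QD.A1 QD.A
  rw [prof_q, prof_q1, prof_q2]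
  unfold pp
  have hs0 := (sf_pos ht).ne'
  generalize prof.X t = X at *
  generalize sf t = s at *
  have ht' : t = (1 - s ^ 2) / s ^ 2 := by
    field_simp; linarith
  subst hXe
  subst ht'
  field_simp
  ring

end Pool.Agent.H91.GBC
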