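import Pool.Agent.H91.GBCCurv

/-!
# The Riemann tensor of `δ + q (|x|²) Jx ⊗ Jx` on `ℝ⁶`
-/

open MeasureTheory Filter Topology
open scoped BigOperators ContDiff Nat

namespace Pool.Agent.H91.GBC

lemma sum_bilin (x : Eu 6) (a b e c d f h : ℝ) (i l j : Fin 6) :
    ∑ m, (a * Yv x m + b * x m + e * Jr i m)
        * (c * Yv x m + d * x m + f * Jr m l + h * Jr m j)
      = a * c * ‖x‖ ^ 2 + a * f * x l + a * h * x j + b * d * ‖x‖ ^ 2 - b * f * Yv x l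
        - b * h * Yv x j - e * c * x i + e * d * Yv x i - e * f * dl i l - e * h * dl i j := by
  have h1 : ∀ m, (a * Yv x m + b * x m + e * Jr i m)
        * (c * Yv x m + d * x m + f * Jr m l + h * Jr m j)
      = (a * c) * (Yv x m * Yv x m) + (a * d) * (Yv x m * x m) + (a * f) * (Yv x m * Jr m l)
        + (a * h) * (Yv x m * Jr m j) + (b * c) * (x m * Yv x m) + (b * d) * (x m * x m)
        + (b * f) * (x m * Jr m l) + (b * h) * (x m * Jr m j) + (e * c) * (Jr i m * Yv x m)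
        + (e * d) * (Jr i m * x m) + (e * f) * (Jr i m * Jr m l)
        + (e * h) * (Jr i m * Jr m j) := by
    intro m; ring
  rw [Finset.sum_congr rfl fun m _ => h1 m]
  simp only [Finset.sum_add_distrib, ← Finset.mul_sum]
  rw [sum_YY, sum_Yx, sum_YJ, sum_YJ, sum_xY, sum_xx, sum_xJ, sum_xJ, sum_JY, sum_Jx, Jr_sq, Jr_sq]
  ring

/-- `Z = x ∧ Jx` -/
noncomputable def Zf (x : Eu 6) (k l : Fin 6) : ℝ := x k * Yv x l - x l * Yv x k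

namespace QD
variable (D : QD)

/-- `α = 2 A' + A² ρ + q A` -/
noncomputable def al (t : ℝ) : ℝ := 2 * D.A1 t + D.A t ^ 2 * t + D.q t * D.A t

/-- `β = -2 q'' + A (ρ q' + q) + q q'` -/
noncomputable def be (t : ℝ) : ℝ := -2 * D.q2 t + D.A t * (t * D.q1 t + D.q t) + D.q t * D.q1 t

lemma A_mul_X {t : ℝ} (ht : 0 ≤ t) : D.A t * (1 + t * D.q t) = D.q1 t - D.q t ^ 2 := by
  have h := (D.X_pos ht).ne'
  have h3 : D.X t = 1 + t * D.q t := rfl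
  unfold A
  rw [← h3]
  field_simp

/-- closed form of the Riemann tensor `R^i_{jkl}` -/
noncomputable def rm (i j k l : Fin 6) (x : Eu 6) : ℝ :=
  D.al (‖x‖ ^ 2) * Yv x i * x j * Zf x k l + D.be (‖x‖ ^ 2) * x i * Yv x j * Zf x k l
    + D.q1 (‖x‖ ^ 2) * (Jr i k * Zf x j l - Jr i l * Zf x j k + 2 * Jr i j * Zf x k l)
    - D.q1 (‖x‖ ^ 2) * x i * (-2 * Yv x j * Jr k l + Yv x l * Jr j k - Yv x k * Jr j l)
    + D.A (‖x‖ ^ 2) * Yv x i * (x l * Jr j k - x k * Jr j l + dl j k * Yv x l - dl j l * Yv x k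
        - 2 * x j * Jr k l)
    + (D.q (‖x‖ ^ 2) ^ 2 - D.q1 (‖x‖ ^ 2)) * Yv x j * (dl i k * Yv x l - dl i l * Yv x k)
    + D.q (‖x‖ ^ 2) * (Jr i l * Jr j k - Jr i k * Jr j l - 2 * Jr i j * Jr k l)

lemma sum_chr (x : Eu 6) (i k l j : Fin 6) :
    ∑ m, D.chr i k m x * D.chr m l j x
      = (D.A (‖x‖ ^ 2) * Yv x i * x k - D.q1 (‖x‖ ^ 2) * x i * Yv x k + D.q (‖x‖ ^ 2) * Jr i k)
          * (D.A (‖x‖ ^ 2) * (x l * Yv x j + x j * Yv x l)) * ‖x‖ ^ 2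
        + (D.A (‖x‖ ^ 2) * Yv x i * x k - D.q1 (‖x‖ ^ 2) * x i * Yv x k + D.q (‖x‖ ^ 2) * Jr i k)
          * (D.q (‖x‖ ^ 2) * Yv x j) * x l
        + (D.A (‖x‖ ^ 2) * Yv x i * x k - D.q1 (‖x‖ ^ 2) * x i * Yv x k + D.q (‖x‖ ^ 2) * Jr i k)
          * (D.q (‖x‖ ^ 2) * Yv x l) * x j
        + (D.A (‖x‖ ^ 2) * Yv x i * Yv x k) * (- D.q1 (‖x‖ ^ 2) * Yv x l * Yv x j) * ‖x‖ ^ 2
        - (D.A (‖x‖ ^ 2) * Yv x i * Yv x k) * (D.q (‖x‖ ^ 2) * Yv x j) * Yv x l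
        - (D.A (‖x‖ ^ 2) * Yv x i * Yv x k) * (D.q (‖x‖ ^ 2) * Yv x l) * Yv x j
        - (D.q (‖x‖ ^ 2) * Yv x k) * (D.A (‖x‖ ^ 2) * (x l * Yv x j + x j * Yv x l)) * x i
        + (D.q (‖x‖ ^ 2) * Yv x k) * (- D.q1 (‖x‖ ^ 2) * Yv x l * Yv x j) * Yv x i
        - (D.q (‖x‖ ^ 2) * Yv x k) * (D.q (‖x‖ ^ 2) * Yv x j) * dl i l
        - (D.q (‖x‖ ^ 2) * Yv x k) * (D.q (‖x‖ ^ 2) * Yv x l) * dl i j := by
  rw [← sum_bilin]
  refine Finset.sum_congr rfl fun m _ => ?_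
  unfold chr
  ring

lemma riem_eq (i j k l : Fin 6) (x : Eu 6) : riem D.g i j k l x = D.rm i j k l x := by
  unfold riem
  rw [Finset.sum_sub_distrib]
  simp only [christoffel_fun]
  rw [sum_chr, sum_chr, pd_chr, pd_chr]
  unfold dchr rm al be Zf
  have hAX := D.A_mul_X (sq_nonneg ‖x‖)
  rw [dl_comm l k, Jr_anti l k]
  generalize ‖x‖ ^ 2 = ρ at *
  linear_combination (Jr i k * (x l * Yv x j + x j * Yv x l)
    - Jr i l * (x k * Yv x j + x j * Yv x k)) * hAX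

end QD

end Pool.Agent.H91.GBC
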