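import Pool.Agent.H91.GBCComplete

/-!
# A complete asymptotically flat metric with `L_2 ≥ 0` and negative Gauss-Bonnet-Chern mass

All notions (`IsRiemannianMetric`, `christoffel`, `riem`, `curv`, `L2`, `P`, `flux`,
`HasGBCMass`, `IsAsymptoticallyFlat`, `L2Integrable`, `IsCompleteMetric`) are defined in
`Pool.Agent.H91.GBCDefs`.

The metric is `g = δ + 4 (1 + |x|²)^(-3/2) Jx ⊗ Jx` on `ℝ⁶ = ℂ³`, where `J` is the complex
structure.
-/

namespace Pool.Agent.H91.NegativeMassOld

open Pool.Agent.H91.GBC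

/-- On `ℝ⁶` there is a complete smooth Riemannian metric, asymptotically flat of an order
`τ > (6 - 4) / 3`, with `L_2 (g)` integrable and nonnegative everywhere, whose
Gauss-Bonnet-Chern mass is `-4/5 < 0`. -/
theorem result :
    ∃ (g : MatField 6) (τ : ℝ),
      IsRiemannianMetric g ∧ IsCompleteMetric g ∧
      ((6 : ℝ) - 4) / 3 < τ ∧ IsAsymptoticallyFlat g τ ∧
      L2Integrable g ∧ (∀ x, 0 ≤ L2 g x) ∧ HasGBCMass g (-4 / 5) :=
  ⟨gC, 1, gC_metric, gC_complete, by norm_num, gC_flat, gC_L2Integrable, L2_nonneg, gC_mass⟩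

end Pool.Agent.H91.NegativeMassOld
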